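import Mathlib

set_option autoImplicit false

namespace Pool.Agent.Lib_helper91

/-- If `N^2 - 1 = k₁ (X₁^2 - 1) = k₂ (X₂^2 - 1)` with `N` at least as large as the coefficients,
then `k₁ k₂` is not a square. -/
lemma not_isSquare_mul {k1 k2 K N X1 X2 : ℤ} (hk1 : 2 ≤ k1) (hk2 : 2 ≤ k2) (hne : k1 ≠ k2)
    (h1K : k1 ≤ K) (h2K : k2 ≤ K) (hKN : K ≤ N) (hX1 : 1 ≤ X1) (hX2 : 1 ≤ X2)
    (e1 : N ^ 2 - 1 = k1 * (X1 ^ 2 - 1)) (e2 : N ^ 2 - 1 = k2 * (X2 ^ 2 - 1)) :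
    ¬ IsSquare (k1 * k2) := by
  rintro ⟨s, hs⟩
  set P : ℤ := 2 * |s| * (X1 * X2) with hP
  set Q : ℤ := 2 * N ^ 2 + (k1 - 1) + (k2 - 1) with hQ
  have hs2 : |s| ^ 2 = k1 * k2 := by rw [sq_abs, hs]; ring
  have hQP : Q ^ 2 - P ^ 2 = (k1 - k2) ^ 2 := by
    have a1 : k1 * X1 ^ 2 = N ^ 2 + (k1 - 1) := by linarith
    have a2 : k2 * X2 ^ 2 = N ^ 2 + (k2 - 1) := by linarith
    have : P ^ 2 = 4 * ((k1 * X1 ^ 2) * (k2 * X2 ^ 2)) := by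
      rw [hP]
      calc (2 * |s| * (X1 * X2)) ^ 2 = 4 * (|s| ^ 2) * (X1 * X2) ^ 2 := by ring
        _ = 4 * (k1 * k2) * (X1 * X2) ^ 2 := by rw [hs2]
        _ = _ := by ring
    rw [this, a1, a2, hQ]; ring
  have hP0 : 0 ≤ P := by
    rw [hP]
    have : 0 ≤ X1 * X2 := mul_nonneg (by linarith) (by linarith)
    have := abs_nonneg s
    positivity
  have hQ0 : 0 ≤ Q := by rw [hQ]; have := sq_nonneg N; linarith
  have hd : 0 < (k1 - k2) ^ 2 := by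
    have : k1 - k2 ≠ 0 := sub_ne_zero.mpr hne
    positivity
  have hlt : P < Q := by
    apply lt_of_pow_lt_pow_left₀ 2 hQ0
    linarith
  have h1 : Q + P ≤ (Q - P) * (Q + P) := by
    have : 1 ≤ Q - P := by linarith
    have h0 : 0 ≤ Q + P := by linarith
    calc Q + P = 1 * (Q + P) := by ring
      _ ≤ (Q - P) * (Q + P) := mul_le_mul_of_nonneg_right this h0
  have h2 : (Q - P) * (Q + P) = Q ^ 2 - P ^ 2 := by ring
  have h3 : (k1 - k2) ^ 2 < K ^ 2 := by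
    apply sq_lt_sq'
    · linarith
    · linarith
  have h4 : K ^ 2 ≤ N ^ 2 := pow_le_pow_left₀ (by linarith) hKN 2
  have h5 : Q = 2 * N ^ 2 + (k1 - 1) + (k2 - 1) := hQ
  have h6 := sq_nonneg N
  linarith

/-- Bounds for `k (N' X + N X')^2`. -/
lemma U_bounds {k N X N' X' : ℤ} (hk : 2 ≤ k) (hX : 1 ≤ X) (hX' : 1 ≤ X') (hN : 1 ≤ N)
    (hN' : 1 ≤ N')
    (e : N ^ 2 - 1 = k * (X ^ 2 - 1)) (e' : N' ^ 2 - 1 = k * (X' ^ 2 - 1)) :
    4 * N ^ 2 * N' ^ 2 ≤ k * (N' * X + N * X') ^ 2 ∧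
    k * (N' * X + N * X') ^ 2 ≤ 4 * N ^ 2 * N' ^ 2 + 2 * (k - 1) * (N ^ 2 + N' ^ 2) := by
  set p : ℤ := k * (X * X') with hp
  have hp0 : 0 ≤ p := by
    rw [hp]; have : 0 ≤ X * X' := mul_nonneg (by linarith) (by linarith)
    exact mul_nonneg (by linarith) this
  have a : k * X ^ 2 = N ^ 2 + (k - 1) := by linarith
  have a' : k * X' ^ 2 = N' ^ 2 + (k - 1) := by linarith
  have hp2 : p ^ 2 = (N ^ 2 + (k - 1)) * (N' ^ 2 + (k - 1)) := by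
    rw [← a, ← a', hp]; ring
  have hU : k * (N' * X + N * X') ^ 2 =
      N' ^ 2 * (N ^ 2 + (k - 1)) + N ^ 2 * (N' ^ 2 + (k - 1)) + 2 * (N * N') * p := by
    rw [← a, ← a', hp]; ring
  have hNN : 0 ≤ N * N' := mul_nonneg (by linarith) (by linarith)
  have hk1 : 0 ≤ k - 1 := by linarith
  have hNs : 0 ≤ N ^ 2 := sq_nonneg N
  have hNs' : 0 ≤ N' ^ 2 := sq_nonneg N'
  have hlow : N * N' ≤ p := by
    apply le_of_sq_le_sq _ hp0
    rw [hp2]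
    have m1 := mul_nonneg hk1 hNs
    have m2 := mul_nonneg hk1 hNs'
    have m3 := mul_nonneg hk1 hk1
    calc (N * N') ^ 2 = N ^ 2 * N' ^ 2 := by ring
      _ ≤ N ^ 2 * N' ^ 2 + ((k - 1) * N ^ 2 + (k - 1) * N' ^ 2 + (k - 1) * (k - 1)) := by linarith
      _ = _ := by ring
  have hhigh : 2 * (N * N') * p ≤ N' ^ 2 * (N ^ 2 + (k - 1)) + N ^ 2 * (N' ^ 2 + (k - 1)) := by
    apply le_of_sq_le_sq
    · have : (2 * (N * N') * p) ^ 2 =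
          4 * (N' ^ 2 * (N ^ 2 + (k - 1))) * (N ^ 2 * (N' ^ 2 + (k - 1))) := by
        calc (2 * (N * N') * p) ^ 2 = 4 * (N * N') ^ 2 * p ^ 2 := by ring
          _ = _ := by rw [hp2]; ring
      rw [this]
      exact four_mul_le_sq_add _ _
    · have := mul_nonneg hNs' (add_nonneg hNs hk1)
      have := mul_nonneg hNs (add_nonneg hNs' hk1)
      linarith
  constructor
  · rw [hU]
    have h1 : 2 * (N * N') * (N * N') ≤ 2 * (N * N') * p :=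
      mul_le_mul_of_nonneg_left hlow (by linarith)
    have h2 := mul_nonneg hk1 hNs
    have h3 := mul_nonneg hk1 hNs'
    calc 4 * N ^ 2 * N' ^ 2 = N' ^ 2 * N ^ 2 + N ^ 2 * N' ^ 2 + 2 * (N * N') * (N * N') := by ring
      _ ≤ N' ^ 2 * N ^ 2 + N ^ 2 * N' ^ 2 + 2 * (N * N') * p
            + ((k - 1) * N ^ 2 + (k - 1) * N' ^ 2) := by linarith
      _ = _ := by ring
  · rw [hU]
    calc _ ≤ N' ^ 2 * (N ^ 2 + (k - 1)) + N ^ 2 * (N' ^ 2 + (k - 1))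
          + (N' ^ 2 * (N ^ 2 + (k - 1)) + N ^ 2 * (N' ^ 2 + (k - 1))) := by
            exact add_le_add_right hhigh _
      _ = _ := by ring

/-- Gap principle: two solutions `N < N'` for the same pair of coefficients are far apart. -/
lemma pair_gap {k1 k2 K N X1 X2 N' X1' X2' : ℤ} (hk1 : 2 ≤ k1) (hk2 : 2 ≤ k2) (hne : k1 ≠ k2)
    (h1K : k1 ≤ K) (h2K : k2 ≤ K) (hKN : K ^ 5 ≤ N) (hX1 : 1 ≤ X1) (hX2 : 1 ≤ X2)
    (hX1' : 1 ≤ X1') (hX2' : 1 ≤ X2')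
    (e1 : N ^ 2 - 1 = k1 * (X1 ^ 2 - 1)) (e2 : N ^ 2 - 1 = k2 * (X2 ^ 2 - 1))
    (e1' : N' ^ 2 - 1 = k1 * (X1' ^ 2 - 1)) (e2' : N' ^ 2 - 1 = k2 * (X2' ^ 2 - 1))
    (hNN : N < N') : 4 * N ^ 3 ≤ N' ^ 2 := by
  have hK2 : 2 ≤ K := by linarith
  have hKK5 : K ≤ K ^ 5 := by
    calc K = K ^ 1 := by ring
      _ ≤ K ^ 5 := pow_le_pow_right₀ (by linarith) (by norm_num)
  have hKN1 : K ≤ N := hKK5.trans hKN
  have hN2 : 2 ≤ N := by linarith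
  have hN'2 : 2 ≤ N' := by linarith
  set A1 : ℤ := N' * X1 - N * X1' with hA1
  set B1 : ℤ := N' * X1 + N * X1' with hB1
  set A2 : ℤ := N' * X2 - N * X2' with hA2
  set B2 : ℤ := N' * X2 + N * X2' with hB2
  set W : ℤ := N' ^ 2 - N ^ 2 with hW
  have hWpos : 0 < W := by
    rw [hW]; have := pow_lt_pow_left₀ hNN (by linarith) (n := 2) (by norm_num)
    linarith
  have hAB1 : k1 * (A1 * B1) = (k1 - 1) * W := by
    have a : k1 * X1 ^ 2 = N ^ 2 + (k1 - 1) := by linarith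
    have a' : k1 * X1' ^ 2 = N' ^ 2 + (k1 - 1) := by linarith
    calc k1 * (A1 * B1) = N' ^ 2 * (k1 * X1 ^ 2) - N ^ 2 * (k1 * X1' ^ 2) := by
          rw [hA1, hB1]; ring
      _ = _ := by rw [a, a', hW]; ring
  have hAB2 : k2 * (A2 * B2) = (k2 - 1) * W := by
    have a : k2 * X2 ^ 2 = N ^ 2 + (k2 - 1) := by linarith
    have a' : k2 * X2' ^ 2 = N' ^ 2 + (k2 - 1) := by linarith
    calc k2 * (A2 * B2) = N' ^ 2 * (k2 * X2 ^ 2) - N ^ 2 * (k2 * X2' ^ 2) := by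
          rw [hA2, hB2]; ring
      _ = _ := by rw [a, a', hW]; ring
  obtain ⟨hU1lo, hU1hi⟩ := U_bounds hk1 hX1 hX1' (by linarith) (by linarith) e1 e1'
  obtain ⟨hU2lo, hU2hi⟩ := U_bounds hk2 hX2 hX2' (by linarith) (by linarith) e2 e2'
  rw [← hB1] at hU1lo hU1hi
  rw [← hB2] at hU2lo hU2hi
  set U1 : ℤ := k1 * B1 ^ 2 with hU1
  set U2 : ℤ := k2 * B2 ^ 2 with hU2
  set E : ℤ := A1 ^ 2 * k1 * (k2 - 1) ^ 2 - A2 ^ 2 * k2 * (k1 - 1) ^ 2 with hE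
  have hEU : E * (U1 * U2) = (k1 - 1) ^ 2 * (k2 - 1) ^ 2 * W ^ 2 * (U2 - U1) := by
    have c1 : A1 ^ 2 * k1 * U1 = ((k1 - 1) * W) ^ 2 := by rw [← hAB1, hU1]; ring
    have c2 : A2 ^ 2 * k2 * U2 = ((k2 - 1) * W) ^ 2 := by rw [← hAB2, hU2]; ring
    calc E * (U1 * U2) = (A1 ^ 2 * k1 * U1) * (k2 - 1) ^ 2 * U2
          - (A2 ^ 2 * k2 * U2) * (k1 - 1) ^ 2 * U1 := by rw [hE]; ring
      _ = _ := by rw [c1, c2]; ring
  -- E ≠ 0
  have hA2ne : A2 ≠ 0 := by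
    intro h
    rw [h] at hAB2
    have : 0 < (k2 - 1) * W := mul_pos (by linarith) hWpos
    simp at hAB2
    rcases hAB2 with h' | h'
    · linarith
    · linarith
  have hEne : E ≠ 0 := by
    intro h
    apply not_isSquare_mul hk1 hk2 hne h1K h2K hKN1 hX1 hX2 e1 e2
    have h1 : (A1 * k1 * (k2 - 1)) ^ 2 = (A2 * (k1 - 1)) ^ 2 * (k1 * k2) := by
      have : A1 ^ 2 * k1 * (k2 - 1) ^ 2 = A2 ^ 2 * k2 * (k1 - 1) ^ 2 := by linarith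
      calc (A1 * k1 * (k2 - 1)) ^ 2 = k1 * (A1 ^ 2 * k1 * (k2 - 1) ^ 2) := by ring
        _ = k1 * (A2 ^ 2 * k2 * (k1 - 1) ^ 2) := by rw [this]
        _ = _ := by ring
    have h2 : (A2 * (k1 - 1)) ^ 2 ∣ (A1 * k1 * (k2 - 1)) ^ 2 := ⟨_, h1⟩
    have h3 : (A2 * (k1 - 1)) ∣ (A1 * k1 * (k2 - 1)) := (Int.pow_dvd_pow_iff (by norm_num)).mp h2
    obtain ⟨z, hz⟩ := h3
    refine ⟨z, ?_⟩
    have hne0 : (A2 * (k1 - 1)) ^ 2 ≠ 0 := by
      apply pow_ne_zero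
      exact mul_ne_zero hA2ne (by linarith)
    apply mul_left_cancel₀ hne0
    rw [← h1, hz]; ring
  have hE1 : 1 ≤ |E| := Int.one_le_abs hEne
  have hN20 : 0 < N ^ 2 := by positivity
  have hN'20 : 0 < N' ^ 2 := by positivity
  have hU1pos : 0 < U1 := lt_of_lt_of_le (by positivity) hU1lo
  have hU2pos : 0 < U2 := lt_of_lt_of_le (by positivity) hU2lo
  have hk11 : 0 ≤ k1 - 1 := by linarith
  have hk21 : 0 ≤ k2 - 1 := by linarith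
  have hNN2 : N ^ 2 ≤ N' ^ 2 := by linarith
  have hdiff : |U2 - U1| ≤ 4 * K * N' ^ 2 := by
    have b1 : 2 * (k1 - 1) * (N ^ 2 + N' ^ 2) ≤ 4 * K * N' ^ 2 := by
      calc 2 * (k1 - 1) * (N ^ 2 + N' ^ 2) ≤ 2 * K * (2 * N' ^ 2) := by
            apply mul_le_mul (by linarith) (by linarith) (by positivity) (by linarith)
        _ = _ := by ring
    have b2 : 2 * (k2 - 1) * (N ^ 2 + N' ^ 2) ≤ 4 * K * N' ^ 2 := by
      calc 2 * (k2 - 1) * (N ^ 2 + N' ^ 2) ≤ 2 * K * (2 * N' ^ 2) := by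
            apply mul_le_mul (by linarith) (by linarith) (by positivity) (by linarith)
        _ = _ := by ring
    rw [abs_le]; constructor <;> linarith
  have habs : U1 * U2 ≤ (k1 - 1) ^ 2 * (k2 - 1) ^ 2 * W ^ 2 * |U2 - U1| := by
    have h1 : |E * (U1 * U2)| = |E| * (U1 * U2) := by
      rw [abs_mul, abs_of_pos (mul_pos hU1pos hU2pos)]
    have h2 : |(k1 - 1) ^ 2 * (k2 - 1) ^ 2 * W ^ 2 * (U2 - U1)| =
        (k1 - 1) ^ 2 * (k2 - 1) ^ 2 * W ^ 2 * |U2 - U1| := by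
      rw [abs_mul, abs_of_nonneg (by positivity)]
    rw [← h2, ← hEU, h1]
    have hpp := mul_pos hU1pos hU2pos
    calc U1 * U2 = 1 * (U1 * U2) := by ring
      _ ≤ |E| * (U1 * U2) := mul_le_mul_of_nonneg_right hE1 hpp.le
  have hlow : (4 * N ^ 2 * N' ^ 2) * (4 * N ^ 2 * N' ^ 2) ≤ U1 * U2 :=
    mul_le_mul hU1lo hU2lo (by positivity) hU1pos.le
  have hKp : (k1 - 1) ^ 2 * (k2 - 1) ^ 2 ≤ K ^ 4 := by
    calc (k1 - 1) ^ 2 * (k2 - 1) ^ 2 ≤ K ^ 2 * K ^ 2 := by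
          apply mul_le_mul
          · exact pow_le_pow_left₀ hk11 (by linarith) 2
          · exact pow_le_pow_left₀ hk21 (by linarith) 2
          · positivity
          · positivity
      _ = K ^ 4 := by ring
  have hW2 : W ^ 2 ≤ (N' ^ 2) ^ 2 := pow_le_pow_left₀ hWpos.le (by rw [hW]; linarith) 2
  have hup : (k1 - 1) ^ 2 * (k2 - 1) ^ 2 * W ^ 2 * |U2 - U1| ≤
      K ^ 4 * (N' ^ 2) ^ 2 * (4 * K * N' ^ 2) := by
    apply mul_le_mul _ hdiff (abs_nonneg _) (by positivity)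
    exact mul_le_mul hKp hW2 (by positivity) (by positivity)
  have hfin : (4 * N ^ 2 * N' ^ 2) * (4 * N ^ 2 * N' ^ 2) ≤ 4 * N * (N' ^ 2) ^ 3 := by
    calc (4 * N ^ 2 * N' ^ 2) * (4 * N ^ 2 * N' ^ 2) ≤ K ^ 4 * (N' ^ 2) ^ 2 * (4 * K * N' ^ 2) :=
          (hlow.trans habs).trans hup
      _ = 4 * K ^ 5 * (N' ^ 2) ^ 3 := by ring
      _ ≤ 4 * N * (N' ^ 2) ^ 3 := by
          apply mul_le_mul_of_nonneg_right _ (by positivity)
          linarith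
  have hpos : 0 < 4 * N * (N' ^ 2) ^ 2 := by positivity
  have : (4 * N * (N' ^ 2) ^ 2) * (4 * N ^ 3) ≤ (4 * N * (N' ^ 2) ^ 2) * (N' ^ 2) := by
    calc (4 * N * (N' ^ 2) ^ 2) * (4 * N ^ 3) = (4 * N ^ 2 * N' ^ 2) * (4 * N ^ 2 * N' ^ 2) := by
          ring
      _ ≤ 4 * N * (N' ^ 2) ^ 3 := hfin
      _ = _ := by ring
  exact le_of_mul_le_mul_left this hpos

end Pool.Agent.Lib_helper91
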