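import Mathlib

set_option autoImplicit false

namespace Pool.Agent.Lib_helper91

open Finset

/-- The completely multiplicative function `k ↦ k^(-5/6)`. -/
noncomputable def powHom : ℕ →* ℝ where
  toFun k := (k : ℝ) ^ (-(5 / 6) : ℝ)
  map_one' := by simp
  map_mul' a b := by
    push_cast
    exact Real.mul_rpow (Nat.cast_nonneg a) (Nat.cast_nonneg b)

lemma powHom_apply (k : ℕ) : powHom k = (k : ℝ) ^ (-(5 / 6) : ℝ) := rfl

lemma powHom_nonneg (k : ℕ) : 0 ≤ powHom k := by
  rw [powHom_apply]; positivity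

lemma two_rpow_le : (2 : ℝ) ^ (-(5 / 6) : ℝ) ≤ 3 / 5 := by
  have h : ((2 : ℝ) ^ (-(5 / 6) : ℝ)) ^ 6 ≤ (3 / 5 : ℝ) ^ 6 := by
    rw [← Real.rpow_natCast, ← Real.rpow_mul (by norm_num)]
    have : (-(5 / 6) : ℝ) * ((6 : ℕ) : ℝ) = -((5 : ℕ) : ℝ) := by norm_num
    rw [this, Real.rpow_neg (by norm_num), Real.rpow_natCast]
    norm_num
  exact le_of_pow_le_pow_left₀ (by norm_num) (by norm_num) h

lemma powHom_prime_le {p : ℕ} (hp : p.Prime) : powHom p ≤ 3 / 5 := by
  rw [powHom_apply]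
  refine le_trans ?_ two_rpow_le
  apply Real.rpow_le_rpow_of_nonpos (by norm_num)
  · exact_mod_cast hp.two_le
  · norm_num

lemma inv_one_sub_le_exp {x : ℝ} (hx0 : 0 ≤ x) (hx : x ≤ 3 / 5) :
    (1 - x)⁻¹ ≤ Real.exp (3 * x) := by
  rw [inv_le_iff_one_le_mul₀ (by linarith)]
  have h := Real.add_one_le_exp (3 * x)
  have : 1 ≤ (3 * x + 1) * (1 - x) := by nlinarith
  calc (1 : ℝ) ≤ (3 * x + 1) * (1 - x) := this
    _ ≤ Real.exp (3 * x) * (1 - x) := mul_le_mul_of_nonneg_right h (by linarith)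

lemma sum_divisors_le_exp_sum {M : ℕ} :
    ∑ k ∈ M.divisors, powHom k ≤ Real.exp (3 * ∑ p ∈ M.primeFactors, powHom p) := by
  have hlt : ∀ {p : ℕ}, p.Prime → ‖powHom p‖ < 1 := by
    intro p hp
    rw [Real.norm_of_nonneg (powHom_nonneg p)]
    linarith [powHom_prime_le hp]
  have hs := (EulerProduct.summable_and_hasSum_factoredNumbers_prod_filter_prime_geometric
    (f := powHom) hlt M.primeFactors).2
  have hs' : HasSum ((Nat.factoredNumbers M.primeFactors).indicator (fun m => powHom m))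
      (∏ p ∈ M.primeFactors with Nat.Prime p, (1 - powHom p)⁻¹) := by
    rw [← hasSum_subtype_iff_indicator]
    exact hs
  have h1 : ∑ k ∈ M.divisors, powHom k =
      ∑ k ∈ M.divisors, (Nat.factoredNumbers M.primeFactors).indicator (fun m => powHom m) k := by
    apply Finset.sum_congr rfl
    intro k hk
    rw [Set.indicator_of_mem]
    rw [Nat.mem_divisors] at hk
    have hk0 : k ≠ 0 := by
      rintro rfl
      exact hk.2 (zero_dvd_iff.mp hk.1)
    refine ⟨hk0, ?_⟩
    intro p hp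
    have hp' := Nat.prime_of_mem_primeFactorsList hp
    rw [Nat.mem_primeFactors]
    exact ⟨hp', (Nat.dvd_of_mem_primeFactorsList hp).trans hk.1, hk.2⟩
  have h2 : ∑ k ∈ M.divisors, (Nat.factoredNumbers M.primeFactors).indicator
      (fun m => powHom m) k ≤ ∏ p ∈ M.primeFactors with Nat.Prime p, (1 - powHom p)⁻¹ := by
    apply sum_le_hasSum _ _ hs'
    intro k _
    apply Set.indicator_nonneg
    intro m _
    exact powHom_nonneg m
  have h3 : (∏ p ∈ M.primeFactors with Nat.Prime p, (1 - powHom p)⁻¹) =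
      ∏ p ∈ M.primeFactors, (1 - powHom p)⁻¹ := by
    congr 1
    apply Finset.filter_true_of_mem
    intro p hp
    exact Nat.prime_of_mem_primeFactors hp
  rw [h1]
  refine h2.trans ?_
  rw [h3, Finset.mul_sum, Real.exp_sum]
  apply Finset.prod_le_prod
  · intro p hp
    have := powHom_prime_le (Nat.prime_of_mem_primeFactors hp)
    have : 0 ≤ 1 - powHom p := by linarith
    positivity
  · intro p hp
    exact inv_one_sub_le_exp (powHom_nonneg p) (powHom_prime_le (Nat.prime_of_mem_primeFactors hp))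

lemma sum_Icc_powHom_le (m : ℕ) : ∑ j ∈ Finset.Icc 1 m, powHom j ≤ 6 * (m : ℝ) ^ (1 / 6 : ℝ) := by
  induction m with
  | zero => simp
  | succ m ih =>
    rw [Finset.sum_Icc_succ_top (by omega)]
    have hm : (0 : ℝ) < (m : ℝ) + 1 := by positivity
    have key : (m : ℝ) ^ (1 / 6 : ℝ) + (1 / 6) * ((m : ℝ) + 1) ^ (-(5 / 6) : ℝ) ≤
        ((m : ℝ) + 1) ^ (1 / 6 : ℝ) := by
      have hb : (1 + (-(1 / ((m : ℝ) + 1)))) ^ (1 / 6 : ℝ) ≤
          1 + (1 / 6 : ℝ) * (-(1 / ((m : ℝ) + 1))) := by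
        apply rpow_one_add_le_one_add_mul_self
        · have : 1 / ((m : ℝ) + 1) ≤ 1 := by
            rw [div_le_one hm]; linarith [Nat.cast_nonneg (α := ℝ) m]
          linarith
        · norm_num
        · norm_num
      have hfac : (m : ℝ) = ((m : ℝ) + 1) * (1 + (-(1 / ((m : ℝ) + 1)))) := by
        field_simp; ring
      have h1 : (m : ℝ) ^ (1 / 6 : ℝ) =
          ((m : ℝ) + 1) ^ (1 / 6 : ℝ) * (1 + (-(1 / ((m : ℝ) + 1)))) ^ (1 / 6 : ℝ) := by
        rw [← Real.mul_rpow hm.le]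
        · rw [← hfac]
        · have : 1 / ((m : ℝ) + 1) ≤ 1 := by
            rw [div_le_one hm]; linarith [Nat.cast_nonneg (α := ℝ) m]
          linarith
      have h2 : ((m : ℝ) + 1) ^ (-(5 / 6) : ℝ) = ((m : ℝ) + 1) ^ (1 / 6 : ℝ) * (1 / ((m : ℝ) + 1)) := by
        have : (-(5 / 6) : ℝ) = 1 / 6 - 1 := by norm_num
        rw [this, Real.rpow_sub_one hm.ne']
        ring
      rw [h1, h2]
      have hp : 0 ≤ ((m : ℝ) + 1) ^ (1 / 6 : ℝ) := by positivity
      have := mul_le_mul_of_nonneg_left hb hp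
      linarith
    rw [powHom_apply]
    push_cast
    linarith

lemma sum_powHom_le_card (s : Finset ℕ) (hs : ∀ p ∈ s, 1 ≤ p) :
    ∑ p ∈ s, powHom p ≤ 7 * (s.card : ℝ) ^ (1 / 6 : ℝ) := by
  classical
  rcases Nat.eq_zero_or_pos s.card with h0 | h0
  · rw [Finset.card_eq_zero] at h0
    subst h0; simp
  set w := s.card with hw
  have hw0 : (0 : ℝ) < w := by exact_mod_cast h0
  rw [← Finset.sum_filter_add_sum_filter_not s (fun p => p ≤ w)]
  have h1 : ∑ p ∈ s.filter (fun p => p ≤ w), powHom p ≤ 6 * (w : ℝ) ^ (1 / 6 : ℝ) := by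
    refine le_trans ?_ (sum_Icc_powHom_le w)
    apply Finset.sum_le_sum_of_subset_of_nonneg
    · intro p hp
      rw [Finset.mem_filter] at hp
      rw [Finset.mem_Icc]
      exact ⟨hs p hp.1, hp.2⟩
    · intro p _ _
      exact powHom_nonneg p
  have h2 : ∑ p ∈ s.filter (fun p => ¬ p ≤ w), powHom p ≤ (w : ℝ) ^ (1 / 6 : ℝ) := by
    calc ∑ p ∈ s.filter (fun p => ¬ p ≤ w), powHom p
        ≤ ∑ p ∈ s.filter (fun p => ¬ p ≤ w), (w : ℝ) ^ (-(5 / 6) : ℝ) := by
          apply Finset.sum_le_sum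
          intro p hp
          rw [Finset.mem_filter] at hp
          rw [powHom_apply]
          apply Real.rpow_le_rpow_of_nonpos hw0
          · have := hp.2
            push Not at this
            exact_mod_cast this.le
          · norm_num
      _ = ((s.filter (fun p => ¬ p ≤ w)).card : ℝ) * (w : ℝ) ^ (-(5 / 6) : ℝ) := by
          rw [Finset.sum_const, nsmul_eq_mul]
      _ ≤ (w : ℝ) * (w : ℝ) ^ (-(5 / 6) : ℝ) := by
          apply mul_le_mul_of_nonneg_right _ (by positivity)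
          exact_mod_cast Finset.card_filter_le _ _
      _ = (w : ℝ) ^ (1 / 6 : ℝ) := by
          have : (1 / 6 : ℝ) = 1 + (-(5 / 6)) := by norm_num
          rw [this, Real.rpow_add hw0, Real.rpow_one]
  linarith

lemma card_primeFactors_le_log {M : ℕ} (hM : 1 ≤ M) :
    (M.primeFactors.card : ℝ) ≤ 2 * Real.log M := by
  have h1 : 2 ^ M.primeFactors.card ≤ M := by
    calc 2 ^ M.primeFactors.card = ∏ p ∈ M.primeFactors, 2 := by
          rw [Finset.prod_const]
      _ ≤ ∏ p ∈ M.primeFactors, p := by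
          apply Finset.prod_le_prod'
          intro p hp
          exact (Nat.prime_of_mem_primeFactors hp).two_le
      _ ≤ M := Nat.le_of_dvd (by omega) (Nat.prod_primeFactors_dvd M)
  have h2 : (M.primeFactors.card : ℝ) * Real.log 2 ≤ Real.log M := by
    have : ((2 : ℝ) ^ M.primeFactors.card) ≤ M := by exact_mod_cast h1
    have h3 := Real.log_le_log (by positivity) this
    rwa [Real.log_pow] at h3
  have h4 : (1 / 2 : ℝ) ≤ Real.log 2 := by
    have := Real.log_two_gt_d9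
    linarith
  have h5 : (0 : ℝ) ≤ M.primeFactors.card := Nat.cast_nonneg _
  nlinarith

/-- Rankin type bound for the divisor sum with exponent `-5/6`. -/
lemma sum_divisors_powHom_le {M : ℕ} (hM : 1 ≤ M) :
    ∑ k ∈ M.divisors, powHom k ≤ Real.exp (42 * (Real.log M) ^ (1 / 6 : ℝ)) := by
  refine sum_divisors_le_exp_sum.trans ?_
  apply Real.exp_le_exp.mpr
  have h1 := sum_powHom_le_card M.primeFactors (fun p hp => (Nat.prime_of_mem_primeFactors hp).one_le)
  have hlog : 0 ≤ Real.log M := Real.log_natCast_nonneg M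
  have h2 : (M.primeFactors.card : ℝ) ^ (1 / 6 : ℝ) ≤ 2 * (Real.log M) ^ (1 / 6 : ℝ) := by
    calc (M.primeFactors.card : ℝ) ^ (1 / 6 : ℝ) ≤ (2 * Real.log M) ^ (1 / 6 : ℝ) := by
          apply Real.rpow_le_rpow (Nat.cast_nonneg _) (card_primeFactors_le_log hM) (by norm_num)
      _ = 2 ^ (1 / 6 : ℝ) * (Real.log M) ^ (1 / 6 : ℝ) := by
          rw [Real.mul_rpow (by norm_num) hlog]
      _ ≤ 2 * (Real.log M) ^ (1 / 6 : ℝ) := by
          apply mul_le_mul_of_nonneg_right _ (by positivity)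
          calc (2 : ℝ) ^ (1 / 6 : ℝ) ≤ 2 ^ (1 : ℝ) :=
                Real.rpow_le_rpow_of_exponent_le (by norm_num) (by norm_num)
            _ = 2 := by norm_num
  linarith

end Pool.Agent.Lib_helper91
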