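import Mathlib

set_option autoImplicit false

/-!
Generic facts about words acting on a finite set of states: a label argument that bounds from
below the length of words merging two / three states, and the pair-merging criterion for
synchronizability.
-/

namespace Pool.Agent.Lib_helper91.Rdv

/-- Apply the letters of a word from left to right. -/
def run {Q A : Type*} (δ : A → Q → Q) (w : List A) (p : Q) : Q := w.foldl (fun s x => δ x s) p

variable {Q A : Type*} (δ : A → Q → Q)

@[simp] theorem run_nil (p : Q) : run δ [] p = p := rfl

@[simp] theorem run_cons (x : A) (w : List A) (p : Q) : run δ (x :: w) p = run δ w (δ x p) := rfl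

theorem run_append (w w' : List A) (p : Q) : run δ (w ++ w') p = run δ w' (run δ w p) := by
  simp [run, List.foldl_append]

theorem foldr_comp_eq (w : List A) (p : Q) :
    ((w.map δ).foldr (· ∘ ·) (id : Q → Q)) p = run δ w.reverse p := by
  induction w generalizing p with
  | nil => rfl
  | cons x w ih =>
    rw [List.map_cons, List.foldr_cons, Function.comp_apply, ih, List.reverse_cons, run_append]
    rfl

/-- Label argument for pairs. -/
theorem label_le_length (L : Q → Q → ℕ)
    (h1 : ∀ x u v, u ≠ v → δ x u = δ x v → L u v ≤ 1)
    (h2 : ∀ x u v, u ≠ v → δ x u ≠ δ x v → L u v ≤ L (δ x u) (δ x v) + 1)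
    (w : List A) (u v : Q) (huv : u ≠ v) (h : run δ w u = run δ w v) : L u v ≤ w.length := by
  induction w generalizing u v with
  | nil => exact absurd h huv
  | cons x w ih =>
    rw [run_cons, run_cons] at h
    rw [List.length_cons]
    by_cases hx : δ x u = δ x v
    · exact (h1 x u v huv hx).trans (by omega)
    · exact (h2 x u v huv hx).trans (Nat.succ_le_succ (ih _ _ hx h))

/-- Label argument for triples: no word of length `< N` maps three distinct states to one. -/
theorem triple_length (L : Q → Q → ℕ) (N : ℕ)
    (h1 : ∀ x u v, u ≠ v → δ x u = δ x v → L u v ≤ 1)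
    (h2 : ∀ x u v, u ≠ v → δ x u ≠ δ x v → L u v ≤ L (δ x u) (δ x v) + 1)
    (h3 : ∀ x u v t, u ≠ v → δ x u = δ x v → t ≠ u → t ≠ v →
      δ x u ≠ δ x t ∧ N ≤ L (δ x u) (δ x t) + 1)
    (w : List A) (a b d : Q) (hab : a ≠ b) (had : a ≠ d) (hbd : b ≠ d)
    (h : run δ w a = run δ w b) (h' : run δ w a = run δ w d) : N ≤ w.length := by
  induction w generalizing a b d with
  | nil => exact absurd h hab
  | cons x w ih =>
    rw [run_cons, run_cons] at h h'
    rw [List.length_cons]
    by_cases h12 : δ x a = δ x b
    · obtain ⟨hne, hN⟩ := h3 x a b d hab h12 had.symm hbd.symm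
      exact hN.trans (Nat.succ_le_succ (label_le_length δ L h1 h2 w _ _ hne h'))
    · by_cases h13 : δ x a = δ x d
      · obtain ⟨hne, hN⟩ := h3 x a d b had h13 hab.symm hbd
        exact hN.trans (Nat.succ_le_succ (label_le_length δ L h1 h2 w _ _ hne h))
      · by_cases h23 : δ x b = δ x d
        · obtain ⟨hne, hN⟩ := h3 x b d a hbd h23 hab had
          exact hN.trans (Nat.succ_le_succ
            (label_le_length δ L h1 h2 w _ _ hne h.symm))
        · exact (ih _ _ _ h12 h13 h23 h h').trans (Nat.le_succ _)

/-- Two states can be merged by some word. -/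
def Merge (u v : Q) : Prop := ∃ w : List A, run δ w u = run δ w v

theorem Merge.refl (u : Q) : Merge δ u u := ⟨[], rfl⟩

variable {δ}

theorem Merge.symm {u v : Q} (h : Merge δ u v) : Merge δ v u := by
  obtain ⟨w, hw⟩ := h
  exact ⟨w, hw.symm⟩

theorem Merge.of_letter {u v : Q} (x : A) (h : Merge δ (δ x u) (δ x v)) : Merge δ u v := by
  obtain ⟨w, hw⟩ := h
  exact ⟨x :: w, hw⟩

variable (δ)

/-- If every two states can be merged, some word maps all states to one. -/
theorem exists_reset [Fintype Q] [Nonempty Q] [DecidableEq Q] (h : ∀ u v, Merge δ u v) :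
    ∃ (w : List A) (q : Q), ∀ p, run δ w p = q := by
  have key : ∀ n : ℕ, ∀ S : Finset Q, S.card ≤ n → S.Nonempty →
      ∃ (w : List A) (q : Q), ∀ p ∈ S, run δ w p = q := by
    intro n
    induction n with
    | zero =>
      intro S hS hne
      exact absurd (Finset.card_pos.mpr hne) (by omega)
    | succ n ih =>
      intro S hS hne
      by_cases hcard : S.card ≤ n
      · exact ih S hcard hne
      · by_cases h1 : S.card ≤ 1
        · obtain ⟨q, hq⟩ := hne
          refine ⟨[], q, fun p hp => ?_⟩
          exact Finset.card_le_one.mp h1 p hp q hq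
        · obtain ⟨u, hu, v, hv, huv⟩ := Finset.one_lt_card.mp (by omega : 1 < S.card)
          obtain ⟨w, hw⟩ := h u v
          have hlt : (S.image (run δ w)).card < S.card := by
            refine lt_of_le_of_ne Finset.card_image_le ?_
            intro heq
            have hinj := Finset.card_image_iff.mp heq
            exact huv (hinj hu hv hw)
          obtain ⟨w', q, hq⟩ := ih (S.image (run δ w)) (by omega) (hne.image _)
          refine ⟨w ++ w', q, fun p hp => ?_⟩
          rw [run_append]
          exact hq _ (Finset.mem_image_of_mem _ hp)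
  obtain ⟨w, q, hq⟩ := key _ Finset.univ le_rfl Finset.univ_nonempty
  exact ⟨w, q, fun p => hq p (Finset.mem_univ p)⟩

end Pool.Agent.Lib_helper91.Rdv
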