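import Pool.Agent.Lib_helper91.RdvMain
set_option autoImplicit false

/-!
A bound for strongly connected automata in terms of the defect of the letters and of the orbits of
the permutation letters that contain no state with two preimages under a letter.
-/

namespace Pool.Agent.Lib_helper91.Rdv

open Finset

universe u v

variable {Q : Type u} {A : Type v}

/-- A state with two preimages under some letter. -/
def Dbl (δ : A → Q → Q) (t : Q) : Prop := ∃ a p p', p ≠ p' ∧ δ a p = t ∧ δ a p' = t

open Classical in
/-- Number of letters of `w` that are not permutations. -/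
noncomputable def np (δ : A → Q → Q) (w : List A) : ℕ :=
  w.countP (fun a => decide (¬ Function.Bijective (δ a)))

theorem np_append (δ : A → Q → Q) (w w' : List A) : np δ (w ++ w') = np δ w + np δ w' := by
  unfold np
  rw [List.countP_append]

theorem np_perm {δ : A → Q → Q} {w : List A} (h : ∀ a ∈ w, Function.Bijective (δ a)) :
    np δ w = 0 := by
  unfold np
  rw [List.countP_eq_zero]
  intro a ha
  simpa using h a ha

theorem np_single_le (δ : A → Q → Q) (a : A) : np δ [a] ≤ 1 := by
  unfold np
  exact List.countP_le_length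

theorem np_single {δ : A → Q → Q} {a : A} (h : ¬ Function.Bijective (δ a)) : np δ [a] = 1 := by
  unfold np
  simp [h]

theorem np_sublist {δ : A → Q → Q} {w w' : List A} (h : w.Sublist w') : np δ w ≤ np δ w' := by
  unfold np
  exact h.countP_le

theorem miss_cons [Fintype Q] [DecidableEq Q] (δ : A → Q → Q) (a : A) (w : List A) :
    (miss δ (a :: w)).card ≤ (miss δ [a]).card + (miss δ w).card := by
  have : miss δ (a :: w) ⊆ (miss δ [a]).image (run δ w) ∪ miss δ w := by
    intro y hy
    rw [mem_miss] at hy
    by_cases h : y ∈ miss δ w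
    · exact mem_union_right _ h
    · rw [mem_miss] at h
      push Not at h
      obtain ⟨z, hz⟩ := h
      apply mem_union_left
      rw [mem_image]
      refine ⟨z, ?_, hz⟩
      rw [mem_miss]
      intro p hp
      rw [run_cons, run_nil] at hp
      apply hy p
      rw [run_cons, hp, hz]
  calc (miss δ (a :: w)).card ≤ _ := Finset.card_le_card this
    _ ≤ _ := Finset.card_union_le _ _
    _ ≤ (miss δ [a]).card + (miss δ w).card := by
      have := Finset.card_image_le (s := miss δ [a]) (f := run δ w)
      omega

theorem miss_bij [Fintype Q] [DecidableEq Q] {δ : A → Q → Q} {a : A}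
    (h : Function.Bijective (δ a)) : (miss δ [a]).card = 0 := by
  rw [Finset.card_eq_zero, Finset.eq_empty_iff_forall_notMem]
  intro y hy
  rw [mem_miss] at hy
  obtain ⟨p, hp⟩ := h.2 y
  exact hy p hp

theorem miss_le_np [Fintype Q] [DecidableEq Q] {δ : A → Q → Q} {d : ℕ}
    (hd : ∀ a, (miss δ [a]).card ≤ d) (w : List A) : (miss δ w).card ≤ d * np δ w := by
  induction w with
  | nil =>
    have : miss δ ([] : List A) = ∅ := by
      rw [Finset.eq_empty_iff_forall_notMem]
      intro y hy
      rw [mem_miss] at hy
      exact hy y rfl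
    simp [this]
  | cons a w ih =>
    have h1 := miss_cons δ a w
    have h2 : np δ (a :: w) = np δ [a] + np δ w := np_append δ [a] w
    rw [h2, mul_add]
    by_cases hb : Function.Bijective (δ a)
    · have := miss_bij hb
      omega
    · have h3 : np δ [a] = 1 := by
        exact np_single hb
      have := hd a
      rw [h3]
      omega

/-- States reached from a doubled state with at most `j` letters that are not permutations. -/
def ZZ (δ : A → Q → Q) (j : ℕ) (x : Q) : Prop :=
  ∃ t w, Dbl δ t ∧ run δ w t = x ∧ np δ w ≤ j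

theorem ZZ.mono {δ : A → Q → Q} {i j : ℕ} (h : i ≤ j) {x : Q} (hx : ZZ δ i x) : ZZ δ j x := by
  obtain ⟨t, w, h1, h2, h3⟩ := hx
  exact ⟨t, w, h1, h2, h3.trans h⟩

theorem ZZ.perm {δ : A → Q → Q} {j : ℕ} {w : List A} (h : ∀ a ∈ w, Function.Bijective (δ a))
    {x : Q} (hx : ZZ δ j x) : ZZ δ j (run δ w x) := by
  obtain ⟨t, w', h1, h2, h3⟩ := hx
  refine ⟨t, w' ++ w, h1, by rw [run_append, h2], ?_⟩
  rw [np_append, np_perm h]
  omega

theorem run_perm_inj {δ : A → Q → Q} {w : List A} (h : ∀ a ∈ w, Function.Bijective (δ a)) :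
    Function.Injective (run δ w) := by
  induction w with
  | nil => intro a b hab; exact hab
  | cons a w ih =>
    intro p q hpq
    rw [run_cons, run_cons] at hpq
    exact (h a (by simp)).1 (ih (fun b hb => h b (by simp [hb])) hpq)

theorem ZZ.perm_back [Fintype Q] {δ : A → Q → Q} {j : ℕ} {w : List A}
    (h : ∀ a ∈ w, Function.Bijective (δ a)) {x : Q} (hx : ZZ δ j (run δ w x)) : ZZ δ j x := by
  classical
  have hinj := run_perm_inj h
  have hsub : (univ.filter fun x => ZZ δ j x).image (run δ w) ⊆ univ.filter fun x => ZZ δ j x := by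
    intro y hy
    obtain ⟨z, hz, rfl⟩ := mem_image.mp hy
    simp only [mem_filter, mem_univ, true_and] at hz ⊢
    exact hz.perm h
  have heq := Finset.eq_of_subset_of_card_le hsub (by rw [Finset.card_image_of_injective _ hinj])
  have hmem : run δ w x ∈ univ.filter fun x => ZZ δ j x := by simpa using hx
  rw [← heq, mem_image] at hmem
  obtain ⟨z, hz, hzx⟩ := hmem
  simp only [mem_filter, mem_univ, true_and] at hz
  rwa [← hinj hzx]

theorem ZZ_all [Fintype Q] {δ : A → Q → Q} (hconn : ∀ x y, ∃ w, run δ w x = y)
    (hdbl : ∃ t, Dbl δ t) (T : Finset Q) (k : ℕ) (hT : T.card ≤ k)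
    (hcov : ∀ x, ∃ t w, (∀ a ∈ w, Function.Bijective (δ a)) ∧ run δ w t = x ∧
      (t ∈ T ∨ Dbl δ t)) (x : Q) : ZZ δ k x := by
  classical
  have key : ∀ j, (∀ x, ZZ δ j x) ∨ (T.filter fun t => ¬ ZZ δ j t).card + j ≤ T.card := by
    intro j
    induction j with
    | zero =>
      right
      rw [add_zero]
      exact Finset.card_filter_le _ _
    | succ j ih =>
      rcases ih with ih | ih
      · left
        intro x
        exact (ih x).mono (Nat.le_succ j)
      · by_cases hall : ∀ x, ZZ δ j x
        · left
          intro x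
          exact (hall x).mono (Nat.le_succ j)
        right
        have hex : ∃ x, ZZ δ (j + 1) x ∧ ¬ ZZ δ j x := by
          by_contra hcon
          push Not at hcon
          apply hall
          intro y
          obtain ⟨t, ht⟩ := hdbl
          obtain ⟨w, hw⟩ := hconn t y
          have hstep : ∀ (w : List A) (z : Q), ZZ δ j z → ZZ δ j (run δ w z) := by
            intro w
            induction w with
            | nil => intro z hz; exact hz
            | cons a w ih =>
              intro z hz
              rw [run_cons]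
              apply ih
              apply hcon
              obtain ⟨t', w', h1, h2, h3⟩ := hz
              refine ⟨t', w' ++ [a], h1, by rw [run_append, h2]; rfl, ?_⟩
              rw [np_append]
              have := np_single_le δ a
              omega
          rw [← hw]
          exact hstep w t ⟨t, [], ht, rfl, by rw [np_perm (by simp)]; omega⟩
        obtain ⟨x, hx1, hx2⟩ := hex
        obtain ⟨t, w, hw, hwx, ht⟩ := hcov x
        have htj1 : ZZ δ (j + 1) t := by
          rw [← hwx] at hx1
          exact hx1.perm_back hw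
        have htj : ¬ ZZ δ j t := by
          intro h
          apply hx2
          rw [← hwx]
          exact h.perm hw
        have htT : t ∈ T := by
          rcases ht with ht | ht
          · exact ht
          · exact absurd ⟨t, [], ht, rfl, by rw [np_perm (by simp)]; omega⟩ htj
        have hlt : (T.filter fun t => ¬ ZZ δ (j + 1) t).card < (T.filter fun t => ¬ ZZ δ j t).card := by
          apply Finset.card_lt_card
          rw [Finset.ssubset_iff_of_subset]
          · exact ⟨t, by simp [htT, htj], by simp [htj1]⟩
          · intro s hs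
            simp only [mem_filter] at hs ⊢
            exact ⟨hs.1, fun h => hs.2 (h.mono (Nat.le_succ j))⟩
        omega
  rcases key k with h | h
  · exact h x
  · have h0 : (T.filter fun t => ¬ ZZ δ k t).card = 0 := by omega
    rw [Finset.card_eq_zero, Finset.filter_eq_empty_iff] at h0
    obtain ⟨t, w, hw, hwx, ht⟩ := hcov x
    rw [← hwx]
    apply ZZ.perm hw
    rcases ht with ht | ht
    · simpa using h0 ht
    · exact ⟨t, [], ht, rfl, by rw [np_perm (by simp)]; omega⟩

/-- The bound in terms of the defect `d`, the number `k` of orbits without doubled states, and the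
number `b` of states in them. -/
theorem class_bound [Fintype Q] [DecidableEq Q] {δ : A → Q → Q}
    (hconn : ∀ x y, ∃ w, run δ w x = y) {r : List A} {q : Q} (hr : ∀ p, run δ r p = q)
    (hn : 3 ≤ Fintype.card Q) {d k b : ℕ} (hd : ∀ a, (miss δ [a]).card ≤ d) (T B : Finset Q)
    (hT : T.card ≤ k) (hB : B.card ≤ b)
    (h1 : ∀ x ∈ B, ∃ t ∈ T, ∃ w, (∀ a ∈ w, Function.Bijective (δ a)) ∧ run δ w t = x)
    (h2 : ∀ x, x ∉ B → ∃ t, Dbl δ t ∧ ∃ w, (∀ a ∈ w, Function.Bijective (δ a)) ∧ run δ w t = x) :
    ∃ w, Tri δ w ∧ 2 * w.length ≤ 2 * Fintype.card Q + 2 + d * (Fintype.card Q + k * b) := by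
  classical
  obtain ⟨a0, p0, p0', hne0, hpp0⟩ := exists_noninj hr (by omega)
  have hdbl : ∃ t, Dbl δ t := ⟨δ a0 p0, a0, p0, p0', hne0, rfl, hpp0.symm⟩
  have hZ : ∀ x, ZZ δ k x := ZZ_all hconn hdbl T k hT (by
    intro x
    by_cases hx : x ∈ B
    · obtain ⟨t, ht, w, hw, hwx⟩ := h1 x hx
      exact ⟨t, w, hw, hwx, Or.inl ht⟩
    · obtain ⟨t, ht, w, hw, hwx⟩ := h2 x hx
      exact ⟨t, w, hw, hwx, Or.inr ht⟩)
  have hdoub : ∀ j x, ZZ δ j x → ∃ v : List A, v.length ≤ Fintype.card Q ∧
      (miss δ v).card ≤ d * (j + 1) ∧ ∃ p p', p ≠ p' ∧ run δ v p = x ∧ run δ v p' = x := by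
    rintro j x ⟨t, w, ⟨a, p, p', hne, hp, hp'⟩, hwx, hnp⟩
    obtain ⟨w', hs, hr', hl⟩ := exists_short δ w t
    refine ⟨a :: w', by simpa using hl, ?_, p, p', hne, ?_, ?_⟩
    · refine (miss_le_np hd _).trans ?_
      apply Nat.mul_le_mul_left
      have h3 : np δ (a :: w') = np δ [a] + np δ w' := np_append δ [a] w'
      have h4 := np_single_le δ a
      have h5 := np_sublist (δ := δ) hs
      omega
    · rw [run_cons, hp, hr', hwx]
    · rw [run_cons, hp', hr', hwx]
  obtain ⟨w, hw, hwl⟩ := geodesic_count' (exists_tri hr hn) (Fintype.card Q)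
    (fun x => if x ∈ B then d * (k + 1) else d) (by
      intro x
      by_cases hx : x ∈ B
      · simp only [hx, if_true]
        exact hdoub k x (hZ x)
      · simp only [hx, if_false]
        obtain ⟨t, ht, w, hw, hwx⟩ := h2 x hx
        have := hdoub 0 x ⟨t, w, ht, hwx, by rw [np_perm hw]⟩
        simpa using this)
  refine ⟨w, hw, hwl.trans ?_⟩
  have hsum : ∑ x, (if x ∈ B then d * (k + 1) else d) = d * (Fintype.card Q + k * B.card) := by
    have : ∀ x ∈ (univ : Finset Q), (if x ∈ B then d * (k + 1) else d) =
        d + (if x ∈ B then d * k else 0) := by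
      intro x _
      split_ifs
      · ring
      · ring
    rw [Finset.sum_congr rfl this, Finset.sum_add_distrib, Finset.sum_ite_mem]
    simp
    ring
  rw [hsum]
  have := Nat.mul_le_mul_left k hB
  have := Nat.mul_le_mul_left d (Nat.add_le_add_left this (Fintype.card Q))
  omega

end Pool.Agent.Lib_helper91.Rdv
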