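import Pool.Agent.Lib_helper91.RdvBasic
set_option autoImplicit false
namespace Pool.Agent.Lib_helper91.Rdv

def piN (c s : ℕ) : ℕ :=
  if s + 1 = 2 * c then 0 else if s + 1 = 3 * c then 2 * c else if s < 3 * c then s + 1 else s

def aN (c k s : ℕ) : ℕ :=
  if s = 0 then c + 1
  else if s = 1 then 2 * c + 1
  else if s = c ∨ s = 2 * c then (if k = 0 then 2 else 3 * c)
  else if s = 2 * c + 1 then 1
  else if 3 * c ≤ s then (if s + 1 = 3 * c + k then 2 else s + 1)
  else if s + 1 = 2 * c then 0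
  else if s + 1 = 3 * c then 2 * c
  else s + 1

theorem pi_spec {c s : ℕ} (hc : 2 ≤ c) : (s + 1 = 2 * c ∧ piN c s = 0) ∨ (s + 1 = 3 * c ∧ piN c s = 2 * c) ∨
      (3 * c ≤ s ∧ piN c s = s) ∨ (s + 1 < 2 * c ∧ piN c s = s + 1) ∨
      (2 * c ≤ s ∧ s + 1 < 3 * c ∧ piN c s = s + 1) := by
  obtain ⟨r, hr⟩ : ∃ r, piN c s = r := ⟨_, rfl⟩
  rw [hr]
  unfold piN at hr
  split_ifs at hr <;> omega

theorem aN_q {c k s : ℕ} (hc : 2 ≤ c) (h : s = c ∨ s = 2 * c) :
    aN c k s = if k = 0 then 2 else 3 * c := by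
  have h0 : s ≠ 0 := by omega
  have h1 : s ≠ 1 := by omega
  simp only [aN, h0, h1, h, if_true, if_false]

theorem aN_y1 {c k : ℕ} (hc : 2 ≤ c) : aN c k (2 * c + 1) = 1 := by
  have h0 : ¬ (2 * c + 1 = 0) := by omega
  have h1 : ¬ (2 * c + 1 = 1) := by omega
  have h2 : ¬ (2 * c + 1 = c ∨ 2 * c + 1 = 2 * c) := by omega
  simp only [aN, h0, h1, h2, if_true, if_false]

theorem aN_z {c k s : ℕ} (hc : 2 ≤ c) (h : 3 * c ≤ s) :
    aN c k s = if s + 1 = 3 * c + k then 2 else s + 1 := by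
  have h0 : ¬ (s = 0) := by omega
  have h1 : ¬ (s = 1) := by omega
  have h2 : ¬ (s = c ∨ s = 2 * c) := by omega
  have h3 : ¬ (s = 2 * c + 1) := by omega
  simp only [aN, h0, h1, h2, h3, h, if_true, if_false]

theorem aN_n {c k s : ℕ} (h0 : s ≠ 0) (h1 : s ≠ 1) (h2 : s ≠ c) (h3 : s ≠ 2 * c)
    (h4 : s ≠ 2 * c + 1) (h5 : s < 3 * c) : aN c k s = piN c s := by
  have h2' : ¬ (s = c ∨ s = 2 * c) := by omega
  have h5' : ¬ (3 * c ≤ s) := by omega
  simp only [aN, piN, h0, h1, h2', h4, h5', h5, if_true, if_false]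

/-- Case distinction for the letter `a`. -/
theorem aN_spec {c k s : ℕ} (hc : 2 ≤ c) :
    (s = 0 ∧ aN c k s = c + 1) ∨ (s = 1 ∧ aN c k s = 2 * c + 1) ∨
    ((s = c ∨ s = 2 * c) ∧ k = 0 ∧ aN c k s = 2) ∨
    ((s = c ∨ s = 2 * c) ∧ 0 < k ∧ aN c k s = 3 * c) ∨
    (s = 2 * c + 1 ∧ aN c k s = 1) ∨
    (3 * c ≤ s ∧ s + 1 = 3 * c + k ∧ aN c k s = 2) ∨
    (3 * c ≤ s ∧ s + 1 ≠ 3 * c + k ∧ aN c k s = s + 1) ∨
    (2 ≤ s ∧ s ≠ c ∧ s + 1 = 2 * c ∧ aN c k s = 0) ∨
    (2 * c + 2 ≤ s ∧ s + 1 = 3 * c ∧ aN c k s = 2 * c) ∨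
    (2 ≤ s ∧ s ≠ c ∧ s + 1 < 2 * c ∧ aN c k s = s + 1) ∨
    (2 * c + 2 ≤ s ∧ s + 1 < 3 * c ∧ aN c k s = s + 1) := by
  by_cases h0 : s = 0
  · subst h0; exact Or.inl ⟨rfl, rfl⟩
  by_cases h1 : s = 1
  · subst h1; exact Or.inr (Or.inl ⟨rfl, rfl⟩)
  by_cases h2 : s = c ∨ s = 2 * c
  · have := aN_q (k := k) hc h2
    by_cases hk : k = 0
    · rw [if_pos hk] at this
      exact Or.inr (Or.inr (Or.inl ⟨h2, hk, this⟩))
    · rw [if_neg hk] at this
      exact Or.inr (Or.inr (Or.inr (Or.inl ⟨h2, Nat.pos_of_ne_zero hk, this⟩)))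
  by_cases h3 : s = 2 * c + 1
  · subst h3
    exact Or.inr (Or.inr (Or.inr (Or.inr (Or.inl ⟨rfl, aN_y1 hc⟩))))
  by_cases h4 : 3 * c ≤ s
  · have := aN_z (k := k) hc h4
    by_cases hk : s + 1 = 3 * c + k
    · rw [if_pos hk] at this
      exact Or.inr (Or.inr (Or.inr (Or.inr (Or.inr (Or.inl ⟨h4, hk, this⟩)))))
    · rw [if_neg hk] at this
      exact Or.inr (Or.inr (Or.inr (Or.inr (Or.inr (Or.inr (Or.inl ⟨h4, hk, this⟩))))))
  have h5 := aN_n (k := k) h0 h1 (by omega : s ≠ c) (by omega) h3 (by omega)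
  rw [h5]
  iterate 7 right
  rcases pi_spec (s := s) hc with h6 | h6 | h6 | h6 | h6
  · exact Or.inl ⟨by omega, by omega, h6.1, h6.2⟩
  · exact Or.inr (Or.inl ⟨by omega, h6.1, h6.2⟩)
  · exact absurd h6.1 h4
  · exact Or.inr (Or.inr (Or.inl ⟨by omega, by omega, h6.1, h6.2⟩))
  · exact Or.inr (Or.inr (Or.inr ⟨by omega, h6.2.1, h6.2.2⟩))

theorem piN_lt {c k s : ℕ} (hc : 2 ≤ c) (hs : s < 3 * c + k) : piN c s < 3 * c + k := by
  rcases pi_spec (s := s) hc with h | h | h | h | h <;> omega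

theorem aN_lt {c k s : ℕ} (hc : 2 ≤ c) (hs : s < 3 * c + k) : aN c k s < 3 * c + k := by
  rcases aN_spec (k := k) (s := s) hc with h | h | h | h | h | h | h | h | h | h | h <;> omega

theorem piN_inj {c u v : ℕ} (hc : 2 ≤ c) (h : u ≠ v) : piN c u ≠ piN c v := by
  rcases pi_spec (s := u) hc with h1 | h1 | h1 | h1 | h1 <;>
  rcases pi_spec (s := v) hc with h2 | h2 | h2 | h2 | h2 <;> omega

theorem aN_merge {c k u v : ℕ} (hc : 2 ≤ c) (hu : u < 3 * c + k) (hv : v < 3 * c + k)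
    (huv : u ≠ v) (h : aN c k u = aN c k v) : (u = c ∧ v = 2 * c) ∨ (u = 2 * c ∧ v = c) := by
  rcases aN_spec (k := k) (s := u) hc with h1 | h1 | h1 | h1 | h1 | h1 | h1 | h1 | h1 | h1 | h1 <;>
  rcases aN_spec (k := k) (s := v) hc with h2 | h2 | h2 | h2 | h2 | h2 | h2 | h2 | h2 | h2 | h2 <;>
  omega


def mu (c s : ℕ) : ℕ := if s < 2 then 2 * c + 1 - s else 4 * c + 1 - s

def lam (c s : ℕ) : ℕ := if s ≤ c then c + 1 - s else 3 * c + 1 - s

def zt (c k s : ℕ) : ℕ := 7 * c + k - 1 - s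

/-- Lower bound for the merging time of two states. -/
def Lab (c k u v : ℕ) : ℕ :=
  if 3 * c ≤ u then (if 3 * c ≤ v then max (zt c k u) (zt c k v) else zt c k u)
  else if 3 * c ≤ v then zt c k v
  else if u < 2 * c then
    (if v < 2 * c then max (mu c u) (mu c v)
      else (if v = 2 * c + u ∨ v + c = 2 * c + u then lam c u else mu c u))
  else if v < 2 * c then
    (if u = 2 * c + v ∨ u + c = 2 * c + v then lam c v else mu c v)
  else 2 * c

theorem mu_cases (c s : ℕ) : (s < 2 ∧ mu c s = 2 * c + 1 - s) ∨ (2 ≤ s ∧ mu c s = 4 * c + 1 - s) := by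
  unfold mu
  by_cases h : s < 2
  · rw [if_pos h]; exact Or.inl ⟨h, rfl⟩
  · rw [if_neg h]; exact Or.inr ⟨by omega, rfl⟩

theorem lam_cases (c s : ℕ) :
    (s ≤ c ∧ lam c s = c + 1 - s) ∨ (c < s ∧ lam c s = 3 * c + 1 - s) := by
  unfold lam
  by_cases h : s ≤ c
  · rw [if_pos h]; exact Or.inl ⟨h, rfl⟩
  · rw [if_neg h]; exact Or.inr ⟨by omega, rfl⟩

theorem lab_cases (c k u v : ℕ) :
    (u < 2 * c ∧ v < 2 * c ∧ Lab c k u v = max (mu c u) (mu c v)) ∨
    (u < 2 * c ∧ 2 * c ≤ v ∧ v < 3 * c ∧ (v = 2 * c + u ∨ v + c = 2 * c + u) ∧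
      Lab c k u v = lam c u) ∨
    (u < 2 * c ∧ 2 * c ≤ v ∧ v < 3 * c ∧ v ≠ 2 * c + u ∧ v + c ≠ 2 * c + u ∧
      Lab c k u v = mu c u) ∨
    (v < 2 * c ∧ 2 * c ≤ u ∧ u < 3 * c ∧ (u = 2 * c + v ∨ u + c = 2 * c + v) ∧
      Lab c k u v = lam c v) ∨
    (v < 2 * c ∧ 2 * c ≤ u ∧ u < 3 * c ∧ u ≠ 2 * c + v ∧ u + c ≠ 2 * c + v ∧
      Lab c k u v = mu c v) ∨
    (2 * c ≤ u ∧ u < 3 * c ∧ 2 * c ≤ v ∧ v < 3 * c ∧ Lab c k u v = 2 * c) ∨
    (3 * c ≤ u ∧ 3 * c ≤ v ∧ Lab c k u v = max (zt c k u) (zt c k v)) ∨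
    (3 * c ≤ u ∧ v < 3 * c ∧ Lab c k u v = zt c k u) ∨
    (u < 3 * c ∧ 3 * c ≤ v ∧ Lab c k u v = zt c k v) := by
  by_cases h1 : 3 * c ≤ u
  · by_cases h2 : 3 * c ≤ v
    · have : Lab c k u v = max (zt c k u) (zt c k v) := by
        simp only [Lab, h1, h2, if_true]
      iterate 6 right
      exact Or.inl ⟨h1, h2, this⟩
    · have : Lab c k u v = zt c k u := by
        simp only [Lab, h1, h2, if_true, if_false]
      iterate 7 right
      exact Or.inl ⟨h1, by omega, this⟩
  · by_cases h2 : 3 * c ≤ v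
    · have : Lab c k u v = zt c k v := by
        simp only [Lab, h1, h2, if_true, if_false]
      iterate 8 right
      exact ⟨by omega, h2, this⟩
    · by_cases h3 : u < 2 * c
      · by_cases h4 : v < 2 * c
        · have : Lab c k u v = max (mu c u) (mu c v) := by
            simp only [Lab, h1, h2, h3, h4, if_true, if_false]
          exact Or.inl ⟨h3, h4, this⟩
        · by_cases h5 : v = 2 * c + u ∨ v + c = 2 * c + u
          · have : Lab c k u v = lam c u := by
              simp only [Lab, h1, h2, h3, h4, h5, if_true, if_false]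
            exact Or.inr (Or.inl ⟨h3, by omega, by omega, h5, this⟩)
          · have : Lab c k u v = mu c u := by
              simp only [Lab, h1, h2, h3, h4, h5, if_true, if_false]
            exact Or.inr (Or.inr (Or.inl ⟨h3, by omega, by omega, by omega, by omega, this⟩))
      · by_cases h4 : v < 2 * c
        · by_cases h5 : u = 2 * c + v ∨ u + c = 2 * c + v
          · have : Lab c k u v = lam c v := by
              simp only [Lab, h1, h2, h3, h4, h5, if_true, if_false]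
            iterate 3 right
            exact Or.inl ⟨h4, by omega, by omega, h5, this⟩
          · have : Lab c k u v = mu c v := by
              simp only [Lab, h1, h2, h3, h4, h5, if_true, if_false]
            iterate 4 right
            exact Or.inl ⟨h4, by omega, by omega, by omega, by omega, this⟩
        · have : Lab c k u v = 2 * c := by
            simp only [Lab, h1, h2, h3, h4, if_false]
          iterate 5 right
          exact Or.inl ⟨by omega, by omega, by omega, by omega, this⟩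

theorem lab_comm (c k u v : ℕ) : Lab c k u v = Lab c k v u := by
  rcases lab_cases c k u v with h | h | h | h | h | h | h | h | h <;>
  rcases lab_cases c k v u with h' | h' | h' | h' | h' | h' | h' | h' | h' <;>
  first
    | (exfalso; omega)
    | omega

/-- Bundle of numeric information about `mu` and `lam`. -/
theorem mu_bd (c s : ℕ) (hs : s < 2 * c) : 2 * c ≤ mu c s ∧ mu c s + 1 ≤ 4 * c := by
  rcases mu_cases c s with h | h <;> omega


/-- The part of the label that comes from a single state. -/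
def mm (c k s : ℕ) : ℕ := if s < 2 * c then mu c s else if s < 3 * c then 0 else zt c k s

theorem mm_cases {c k s : ℕ} (hc : 2 ≤ c) (hs : s < 3 * c + k) :
    (s < 2 ∧ mm c k s = 2 * c + 1 - s) ∨ (2 ≤ s ∧ s < 2 * c ∧ mm c k s = 4 * c + 1 - s) ∨
    (2 * c ≤ s ∧ s < 3 * c ∧ mm c k s = 0) ∨
    (3 * c ≤ s ∧ mm c k s = 7 * c + k - 1 - s) := by
  by_cases h : s < 2 * c
  · have : mm c k s = mu c s := by simp only [mm, h, if_true]
    rw [this]
    rcases mu_cases c s with h' | h'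
    · exact Or.inl h'
    · exact Or.inr (Or.inl ⟨h'.1, h, h'.2⟩)
  · by_cases h' : s < 3 * c
    · have : mm c k s = 0 := by simp only [mm, h, h', if_true, if_false]
      exact Or.inr (Or.inr (Or.inl ⟨by omega, h', this⟩))
    · have : mm c k s = zt c k s := by simp only [mm, h, h', if_false]
      rw [this]
      exact Or.inr (Or.inr (Or.inr ⟨by omega, rfl⟩))

/-- Values of the label. -/
theorem lab_val {c k u v : ℕ} (hc : 2 ≤ c) (hu : u < 3 * c + k) (hv : v < 3 * c + k) :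
    (u < 2 * c ∧ 2 * c ≤ v ∧ v < 3 * c ∧ (v = 2 * c + u ∨ v + c = 2 * c + u) ∧
      ((u ≤ c ∧ Lab c k u v = c + 1 - u) ∨ (c < u ∧ Lab c k u v = 3 * c + 1 - u))) ∨
    (v < 2 * c ∧ 2 * c ≤ u ∧ u < 3 * c ∧ (u = 2 * c + v ∨ u + c = 2 * c + v) ∧
      ((v ≤ c ∧ Lab c k u v = c + 1 - v) ∨ (c < v ∧ Lab c k u v = 3 * c + 1 - v))) ∨
    (2 * c ≤ u ∧ u < 3 * c ∧ 2 * c ≤ v ∧ v < 3 * c ∧ Lab c k u v = 2 * c) ∨
    (¬ (u < 2 * c ∧ 2 * c ≤ v ∧ v < 3 * c ∧ (v = 2 * c + u ∨ v + c = 2 * c + u)) ∧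
     ¬ (v < 2 * c ∧ 2 * c ≤ u ∧ u < 3 * c ∧ (u = 2 * c + v ∨ u + c = 2 * c + v)) ∧
     ¬ (2 * c ≤ u ∧ u < 3 * c ∧ 2 * c ≤ v ∧ v < 3 * c) ∧
      Lab c k u v = max (mm c k u) (mm c k v)) := by
  have l1 := lam_cases c u
  have l2 := lam_cases c v
  rcases lab_cases c k u v with g | g | g | g | g | g | g | g | g
  · right; right; right
    refine ⟨by omega, by omega, by omega, ?_⟩
    simp only [mm, g.1, g.2.1, if_true, g.2.2]
  · left; exact ⟨g.1, g.2.1, g.2.2.1, g.2.2.2.1, by omega⟩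
  · right; right; right
    refine ⟨by omega, by omega, by omega, ?_⟩
    have hv' : ¬ v < 2 * c := by omega
    simp only [mm, g.1, hv', g.2.2.1, if_true, if_false, g.2.2.2.2.2]
    omega
  · right; left; exact ⟨g.1, g.2.1, g.2.2.1, g.2.2.2.1, by omega⟩
  · right; right; right
    refine ⟨by omega, by omega, by omega, ?_⟩
    have hv' : ¬ u < 2 * c := by omega
    simp only [mm, g.1, hv', g.2.2.1, if_true, if_false, g.2.2.2.2.2]
    omega
  · right; right; left; exact g
  · right; right; right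
    refine ⟨by omega, by omega, by omega, ?_⟩
    have h1 : ¬ u < 2 * c := by omega
    have h2 : ¬ u < 3 * c := by omega
    have h3 : ¬ v < 2 * c := by omega
    have h4 : ¬ v < 3 * c := by omega
    simp only [mm, h1, h2, h3, h4, if_false, g.2.2]
  · right; right; right
    refine ⟨by omega, by omega, by omega, ?_⟩
    have h1 : ¬ u < 2 * c := by omega
    have h2 : ¬ u < 3 * c := by omega
    have e1 : mm c k u = zt c k u := by simp only [mm, h1, h2, if_false]
    rw [g.2.2, e1]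
    have := mm_cases (k := k) hc hv
    have e2 : zt c k u = 7 * c + k - 1 - u := rfl
    omega
  · right; right; right
    refine ⟨by omega, by omega, by omega, ?_⟩
    have h1 : ¬ v < 2 * c := by omega
    have h2 : ¬ v < 3 * c := by omega
    have e1 : mm c k v = zt c k v := by simp only [mm, h1, h2, if_false]
    rw [g.2.2, e1]
    have := mm_cases (k := k) hc hu
    have e2 : zt c k v = 7 * c + k - 1 - v := rfl
    omega


theorem Lab_xx {c k u v : ℕ} (h : u < 2 * c) (h' : v < 2 * c) :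
    Lab c k u v = max (mu c u) (mu c v) := by
  rcases lab_cases c k u v with g | g | g | g | g | g | g | g | g <;>
    first | exact g.2.2 | (exfalso; omega)

theorem Lab_xy_m {c k u v : ℕ} (h : u < 2 * c) (h1 : 2 * c ≤ v) (h2 : v < 3 * c)
    (h3 : v = 2 * c + u ∨ v + c = 2 * c + u) : Lab c k u v = lam c u := by
  rcases lab_cases c k u v with g | g | g | g | g | g | g | g | g <;>
    first | exact g.2.2.2.2 | (exfalso; omega)

theorem Lab_xy_n {c k u v : ℕ} (h : u < 2 * c) (h1 : 2 * c ≤ v) (h2 : v < 3 * c)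
    (h3 : v ≠ 2 * c + u) (h4 : v + c ≠ 2 * c + u) : Lab c k u v = mu c u := by
  rcases lab_cases c k u v with g | g | g | g | g | g | g | g | g <;>
    first | exact g.2.2.2.2.2 | (exfalso; omega)

theorem Lab_yy {c k u v : ℕ} (h : 2 * c ≤ u) (h0 : u < 3 * c) (h1 : 2 * c ≤ v) (h2 : v < 3 * c) :
    Lab c k u v = 2 * c := by
  rcases lab_cases c k u v with g | g | g | g | g | g | g | g | g <;>
    first | exact g.2.2.2.2 | (exfalso; omega)

theorem Lab_zl {c k u v : ℕ} (h : 3 * c ≤ u) : zt c k u ≤ Lab c k u v := by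
  rcases lab_cases c k u v with g | g | g | g | g | g | g | g | g <;>
    first | (exfalso; omega) | (rw [g.2.2]; exact le_max_left _ _) | (rw [g.2.2])

theorem Lab_zr {c k u v : ℕ} (h : 3 * c ≤ v) : zt c k v ≤ Lab c k u v := by
  rw [lab_comm]; exact Lab_zl h

/-- Without `z`-states the label is at most `4c - 1`. -/
theorem Lab_le {c k u v : ℕ} (hc : 2 ≤ c) (hu : u < 3 * c) (hv : v < 3 * c) :
    Lab c k u v + 1 ≤ 4 * c := by
  rcases lab_cases c k u v with g | g | g | g | g | g | g | g | g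
  · have h1 := mu_bd c u g.1
    have h2 := mu_bd c v g.2.1
    rw [g.2.2]; omega
  · rw [g.2.2.2.2]
    rcases lam_cases c u with h | h <;> omega
  · rw [g.2.2.2.2.2]; exact (mu_bd c u g.1).2
  · rw [g.2.2.2.2]
    rcases lam_cases c v with h | h <;> omega
  · rw [g.2.2.2.2.2]; exact (mu_bd c v g.1).2
  · rw [g.2.2.2.2]; omega
  · omega
  · omega
  · omega

/-- In general the label is at most the larger of `4c - 1` and the `z`-labels. -/
theorem Lab_le' {c k u v : ℕ} (hc : 2 ≤ c) {B : ℕ} (hB : 4 * c ≤ B + 1)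
    (hu : 3 * c ≤ u → zt c k u ≤ B) (hv : 3 * c ≤ v → zt c k v ≤ B) :
    Lab c k u v ≤ B := by
  by_cases h1 : 3 * c ≤ u
  · by_cases h2 : 3 * c ≤ v
    · have := hu h1
      have := hv h2
      rcases lab_cases c k u v with g | g | g | g | g | g | g | g | g <;> first | (exfalso; omega) | skip
      rw [g.2.2]; omega
    · have := hu h1
      rcases lab_cases c k u v with g | g | g | g | g | g | g | g | g <;> first | (exfalso; omega) | skip
      rw [g.2.2]; omega
  · by_cases h2 : 3 * c ≤ v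
    · have := hv h2
      rcases lab_cases c k u v with g | g | g | g | g | g | g | g | g <;> first | (exfalso; omega) | skip
      rw [g.2.2]; omega
    · have := Lab_le (k := k) (u := u) (v := v) hc (by omega) (by omega)
      omega

/-- States in the image of `a` are not matched with `x_2`. -/
theorem Lab_two {c k v : ℕ} (hc : 2 ≤ c) (hv : v < 3 * c + k)
    (h : ¬ (2 * c ≤ v ∧ v < 3 * c ∧ (v = 2 * c + 2 ∨ v + c = 2 * c + 2))) :
    4 * c ≤ Lab c k 2 v + 1 := by
  have h2 : mu c 2 = 4 * c - 1 := by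
    rcases mu_cases c 2 with h | h <;> omega
  by_cases h1 : v < 2 * c
  · rw [Lab_xx (by omega) h1]; omega
  · by_cases h3 : v < 3 * c
    · rw [Lab_xy_n (by omega) (by omega) h3 (by omega) (by omega)]; omega
    · have := Lab_zr (c := c) (k := k) (u := 2) (v := v) (by omega)
      unfold zt at this
      omega

theorem aN_avoid {c k v : ℕ} (hc : 2 ≤ c) :
    ¬ (2 * c ≤ aN c k v ∧ aN c k v < 3 * c ∧
      (aN c k v = 2 * c + 2 ∨ aN c k v + c = 2 * c + 2)) := by
  rcases aN_spec (k := k) (s := v) hc with h | h | h | h | h | h | h | h | h | h | h <;> omega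

/-- The label of the merged state with any other image state. -/
theorem Lab_q {c k v : ℕ} (hc : 2 ≤ c) (hv : v < 3 * c + k) :
    4 * c + k ≤ Lab c k (if k = 0 then 2 else 3 * c) (aN c k v) + 1 := by
  by_cases hk : k = 0
  · rw [if_pos hk]
    have := Lab_two (k := k) hc (aN_lt hc hv) (aN_avoid hc)
    omega
  · rw [if_neg hk]
    have := Lab_zl (c := c) (k := k) (u := 3 * c) (v := aN c k v) le_rfl
    unfold zt at this
    omega

theorem mu_pi {c u : ℕ} (hc : 2 ≤ c) (hu : u < 2 * c) : mu c u ≤ mu c (piN c u) + 1 := by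
  rcases pi_spec (s := u) hc with h | h | h | h | h <;>
  rcases mu_cases c u with h1 | h1 <;>
  rcases mu_cases c (piN c u) with h2 | h2 <;> omega

theorem lam_pi {c u : ℕ} (hc : 2 ≤ c) (hu : u < 2 * c) : lam c u ≤ lam c (piN c u) + 1 := by
  rcases pi_spec (s := u) hc with h | h | h | h | h <;>
  rcases lam_cases c u with h1 | h1 <;>
  rcases lam_cases c (piN c u) with h2 | h2 <;> omega

theorem pi_x {c u : ℕ} (hc : 2 ≤ c) (hu : u < 2 * c) : piN c u < 2 * c := by
  rcases pi_spec (s := u) hc with h | h | h | h | h <;> omega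

theorem pi_y {c u : ℕ} (hc : 2 ≤ c) (hu : 2 * c ≤ u) (hu' : u < 3 * c) :
    2 * c ≤ piN c u ∧ piN c u < 3 * c := by
  rcases pi_spec (s := u) hc with h | h | h | h | h <;> omega

theorem pi_z {c u : ℕ} (hc : 2 ≤ c) (hu : 3 * c ≤ u) : piN c u = u := by
  rcases pi_spec (s := u) hc with h | h | h | h | h <;> omega

theorem lab_pi {c k u v : ℕ} (hc : 2 ≤ c) (hu : u < 3 * c + k) (hv : v < 3 * c + k) :
    Lab c k u v ≤ Lab c k (piN c u) (piN c v) + 1 := by
  have key : ∀ u v, u < 3 * c + k → v < 3 * c + k → u < 2 * c → 2 * c ≤ v → v < 3 * c →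
      Lab c k u v ≤ Lab c k (piN c u) (piN c v) + 1 := by
    intro u v _ _ h1 h2 h3
    obtain ⟨h4, h5⟩ := pi_y hc h2 h3
    by_cases hm : v = 2 * c + u ∨ v + c = 2 * c + u
    · rw [Lab_xy_m h1 h2 h3 hm, Lab_xy_m (pi_x hc h1) h4 h5]
      · exact lam_pi hc h1
      · rcases pi_spec (s := u) hc with g | g | g | g | g <;>
        rcases pi_spec (s := v) hc with g' | g' | g' | g' | g' <;> omega
    · rw [Lab_xy_n h1 h2 h3 (by omega) (by omega), Lab_xy_n (pi_x hc h1) h4 h5]
      · exact mu_pi hc h1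
      · rcases pi_spec (s := u) hc with g | g | g | g | g <;>
        rcases pi_spec (s := v) hc with g' | g' | g' | g' | g' <;> omega
      · rcases pi_spec (s := u) hc with g | g | g | g | g <;>
        rcases pi_spec (s := v) hc with g' | g' | g' | g' | g' <;> omega
  by_cases h1 : u < 2 * c
  · by_cases h2 : v < 2 * c
    · rw [Lab_xx h1 h2, Lab_xx (pi_x hc h1) (pi_x hc h2)]
      have := mu_pi hc h1
      have := mu_pi hc h2
      omega
    · by_cases h3 : v < 3 * c
      · exact key u v hu hv h1 (by omega) h3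
      · have e := pi_z hc (by omega : 3 * c ≤ v)
        have e1 := Lab_zr (c := c) (k := k) (u := piN c u) (v := v) (by omega)
        rw [e]
        refine (Lab_le' (B := zt c k v) hc ?_ (fun h => by omega) (fun _ => le_rfl)).trans
          (e1.trans (Nat.le_succ _))
        unfold zt; omega
  · by_cases h3 : u < 3 * c
    · by_cases h2 : v < 2 * c
      · rw [lab_comm c k u v, lab_comm c k (piN c u)]
        exact key v u hv hu h2 (by omega) h3
      · by_cases h4 : v < 3 * c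
        · obtain ⟨a1, a2⟩ := pi_y hc (by omega : 2 * c ≤ u) h3
          obtain ⟨b1, b2⟩ := pi_y hc (by omega : 2 * c ≤ v) h4
          rw [Lab_yy (by omega) h3 (by omega) h4, Lab_yy a1 a2 b1 b2]
          omega
        · have e := pi_z hc (by omega : 3 * c ≤ v)
          have e1 := Lab_zr (c := c) (k := k) (u := piN c u) (v := v) (by omega)
          rw [e]
          refine (Lab_le' (B := zt c k v) hc ?_ (fun h => by omega) (fun _ => le_rfl)).trans
            (e1.trans (Nat.le_succ _))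
          unfold zt; omega
    · have e := pi_z hc (by omega : 3 * c ≤ u)
      by_cases h4 : v < 3 * c
      · have e1 := Lab_zl (c := c) (k := k) (u := u) (v := piN c v) (by omega)
        rw [e]
        refine (Lab_le' (B := zt c k u) hc ?_ (fun _ => le_rfl) (fun h => by omega)).trans
          (e1.trans (Nat.le_succ _))
        unfold zt; omega
      · have e' := pi_z hc (by omega : 3 * c ≤ v)
        rw [e, e']
        exact Nat.le_succ _

theorem mu_ge {c u : ℕ} (hu : u < 2 * c) : 2 * c ≤ mu c u := (mu_bd c u hu).1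

theorem lab_a_z {c k u v : ℕ} (hc : 2 ≤ c) (hu : u < 3 * c + k) (hv : v < 3 * c + k)
    (h : 3 * c ≤ u) : zt c k u ≤ Lab c k (aN c k u) (aN c k v) + 1 ∧
      4 * c ≤ Lab c k (aN c k u) (aN c k v) + 1 := by
  rw [aN_z (k := k) hc h]
  by_cases h1 : u + 1 = 3 * c + k
  · rw [if_pos h1]
    have := Lab_two (k := k) hc (aN_lt hc hv) (aN_avoid hc)
    unfold zt
    omega
  · rw [if_neg h1]
    have := Lab_zl (c := c) (k := k) (u := u + 1) (v := aN c k v) (by omega)
    unfold zt at *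
    omega

theorem aN_X {c k v : ℕ} (hc : 2 ≤ c) (h0 : 2 ≤ v) (h1 : v ≠ c) (h2 : v < 2 * c) :
    aN c k v = piN c v ∧ ((v + 1 = 2 * c ∧ piN c v = 0) ∨ (v + 1 < 2 * c ∧ piN c v = v + 1)) := by
  refine ⟨aN_n (by omega) (by omega) h1 (by omega) (by omega) (by omega), ?_⟩
  rcases pi_spec (s := v) hc with g | g | g | g | g <;> omega

theorem aN_Y {c k v : ℕ} (hc : 2 ≤ c) (h0 : 2 * c + 2 ≤ v) (h2 : v < 3 * c) :
    aN c k v = piN c v ∧ ((v + 1 = 3 * c ∧ piN c v = 2 * c) ∨
      (v + 1 < 3 * c ∧ piN c v = v + 1)) := by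
  refine ⟨aN_n (by omega) (by omega) (by omega) (by omega) (by omega) (by omega), ?_⟩
  rcases pi_spec (s := v) hc with g | g | g | g | g <;> omega

theorem mu_low {c : ℕ} {s : ℕ} (h : s < 2) : mu c s = 2 * c + 1 - s := by
  rcases mu_cases c s with g | g <;> omega

theorem mu_high {c : ℕ} {s : ℕ} (h : 2 ≤ s) : mu c s = 4 * c + 1 - s := by
  rcases mu_cases c s with g | g <;> omega

theorem lam_low {c : ℕ} {s : ℕ} (h : s ≤ c) : lam c s = c + 1 - s := by
  rcases lam_cases c s with g | g <;> omega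

theorem lam_high {c : ℕ} {s : ℕ} (h : c < s) : lam c s = 3 * c + 1 - s := by
  rcases lam_cases c s with g | g <;> omega

theorem aN_0 {c k : ℕ} : aN c k 0 = c + 1 := rfl

theorem aN_1 {c k : ℕ} : aN c k 1 = 2 * c + 1 := rfl

theorem lab_a_0 {c k v : ℕ} (hc : 2 ≤ c) (h0 : v ≠ 0) (h1 : v ≠ c) (h2 : v ≠ 2 * c)
    (h3 : v < 3 * c) : Lab c k 0 v ≤ Lab c k (c + 1) (aN c k v) + 1 := by
  by_cases e1 : v = 1
  · subst e1
    rw [aN_1, Lab_xx (by omega) (by omega), Lab_xy_m (by omega) (by omega) (by omega) (by omega),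
      mu_low (by omega), mu_low (by omega), lam_high (by omega)]
    omega
  by_cases e2 : v = 2 * c + 1
  · subst e2
    rw [aN_y1 hc, Lab_xy_n (by omega) (by omega) (by omega) (by omega) (by omega),
      Lab_xx (by omega) (by omega), mu_low (by omega), mu_high (by omega : 2 ≤ c + 1)]
    omega
  by_cases e3 : v < 2 * c
  · obtain ⟨g, g'⟩ := aN_X (k := k) (v := v) hc (by omega) h1 e3
    rw [g, Lab_xx (by omega) e3, Lab_xx (by omega) (pi_x hc e3), mu_low (by omega),
      mu_high (by omega : 2 ≤ c + 1)]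
    have := mu_pi hc e3
    omega
  · obtain ⟨g, g'⟩ := aN_Y (k := k) (v := v) hc (by omega) h3
    obtain ⟨a1, a2⟩ := pi_y hc (by omega : 2 * c ≤ v) h3
    rw [g, Lab_xy_n (by omega) (by omega) h3 (by omega) (by omega),
      Lab_xy_n (by omega) a1 a2 (by omega) (by omega), mu_low (by omega),
      mu_high (by omega : 2 ≤ c + 1)]
    omega

theorem lab_a_1 {c k v : ℕ} (hc : 2 ≤ c) (h0 : v ≠ 1) (h1 : v ≠ c) (h2 : v ≠ 2 * c)
    (h3 : v < 3 * c) : Lab c k 1 v ≤ Lab c k (2 * c + 1) (aN c k v) + 1 := by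
  rw [lab_comm c k (2 * c + 1)]
  by_cases e1 : v = 0
  · subst e1
    rw [aN_0, Lab_xx (by omega) (by omega), Lab_xy_m (by omega) (by omega) (by omega) (by omega),
      mu_low (by omega), mu_low (by omega), lam_high (by omega)]
    omega
  by_cases e2 : v = 2 * c + 1
  · subst e2
    rw [aN_y1 hc]
    omega
  by_cases e3 : v < 2 * c
  · obtain ⟨g, g'⟩ := aN_X (k := k) (v := v) hc (by omega) h1 e3
    rw [g, Lab_xx (by omega) e3, Lab_xy_n (pi_x hc e3) (by omega) (by omega) (by omega) (by omega),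
      mu_low (by omega)]
    have := mu_pi hc e3
    have := mu_ge (pi_x hc e3)
    omega
  · obtain ⟨g, g'⟩ := aN_Y (k := k) (v := v) hc (by omega) h3
    obtain ⟨a1, a2⟩ := pi_y hc (by omega : 2 * c ≤ v) h3
    rw [g, Lab_xy_n (by omega) (by omega) h3 (by omega) (by omega),
      Lab_yy a1 a2 (by omega) (by omega), mu_low (by omega)]
    omega

theorem lab_a_y {c k v : ℕ} (hc : 2 ≤ c) (h0 : v ≠ 2 * c + 1) (h1 : v ≠ c) (h2 : v ≠ 2 * c)
    (h3 : v < 3 * c) : Lab c k (2 * c + 1) v ≤ Lab c k 1 (aN c k v) + 1 := by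
  rw [lab_comm c k (2 * c + 1)]
  by_cases e1 : v = 0
  · subst e1
    rw [aN_0, Lab_xy_n (by omega) (by omega) (by omega) (by omega) (by omega),
      Lab_xx (by omega) (by omega), mu_low (by omega), mu_high (by omega : 2 ≤ c + 1)]
    omega
  by_cases e2 : v = 1
  · subst e2
    rw [aN_1]
    omega
  by_cases e3 : v < 2 * c
  · obtain ⟨g, g'⟩ := aN_X (k := k) (v := v) hc (by omega) h1 e3
    have m1 := mu_pi hc e3
    have m2 := mu_ge (pi_x hc e3)
    rw [g, Lab_xx (by omega : 1 < 2 * c) (pi_x hc e3)]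
    by_cases e4 : v = c + 1
    · rw [Lab_xy_m e3 (by omega) (by omega) (by omega), lam_high (by omega)]
      omega
    · rw [Lab_xy_n e3 (by omega) (by omega) (by omega) (by omega)]
      omega
  · obtain ⟨g, g'⟩ := aN_Y (k := k) (v := v) hc (by omega) h3
    obtain ⟨a1, a2⟩ := pi_y hc (by omega : 2 * c ≤ v) h3
    rw [g, Lab_yy (by omega) h3 (by omega) (by omega),
      Lab_xy_n (by omega : 1 < 2 * c) a1 a2 (by omega) (by omega), mu_low (by omega)]
    omega

theorem lab_a {c k u v : ℕ} (hc : 2 ≤ c) (hu : u < 3 * c + k) (hv : v < 3 * c + k)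
    (huv : u ≠ v) : Lab c k u v ≤ Lab c k (aN c k u) (aN c k v) + 1 := by
  by_cases zu : 3 * c ≤ u
  · obtain ⟨h1, h2⟩ := lab_a_z hc hu hv zu
    refine Lab_le' hc (by omega) (fun _ => h1) (fun h => ?_)
    obtain ⟨h3, h4⟩ := lab_a_z hc hv hu h
    rw [lab_comm c k (aN c k u)]
    exact h3
  by_cases zv : 3 * c ≤ v
  · obtain ⟨h1, h2⟩ := lab_a_z hc hv hu zv
    rw [lab_comm c k (aN c k v)] at h1 h2
    exact Lab_le' hc (by omega) (fun h => absurd h zu) (fun _ => h1)
  have L0 := Lab_le (k := k) (u := u) (v := v) hc (by omega) (by omega)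
  by_cases qu : u = c ∨ u = 2 * c
  · rw [aN_q (k := k) hc qu]
    have := Lab_q (k := k) (v := v) hc hv
    omega
  by_cases qv : v = c ∨ v = 2 * c
  · rw [aN_q (k := k) hc qv, lab_comm c k (aN c k u)]
    have := Lab_q (k := k) (v := u) hc hu
    omega
  by_cases s0 : u = 0
  · subst s0
    rw [aN_0]
    exact lab_a_0 hc (by omega) (by omega) (by omega) (by omega)
  by_cases s1 : u = 1
  · subst s1
    rw [aN_1]
    exact lab_a_1 hc (by omega) (by omega) (by omega) (by omega)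
  by_cases s2 : u = 2 * c + 1
  · subst s2
    rw [aN_y1 hc]
    exact lab_a_y hc (by omega) (by omega) (by omega) (by omega)
  by_cases t0 : v = 0
  · subst t0
    rw [aN_0, lab_comm c k u, lab_comm c k (aN c k u)]
    exact lab_a_0 hc (by omega) (by omega) (by omega) (by omega)
  by_cases t1 : v = 1
  · subst t1
    rw [aN_1, lab_comm c k u, lab_comm c k (aN c k u)]
    exact lab_a_1 hc (by omega) (by omega) (by omega) (by omega)
  by_cases t2 : v = 2 * c + 1
  · subst t2
    rw [aN_y1 hc, lab_comm c k u, lab_comm c k (aN c k u)]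
    exact lab_a_y hc (by omega) (by omega) (by omega) (by omega)
  rw [aN_n (k := k) s0 s1 (by omega) (by omega) s2 (by omega),
    aN_n (k := k) t0 t1 (by omega) (by omega) t2 (by omega)]
  exact lab_pi hc hu hv

theorem Lab_merge {c k : ℕ} (hc : 2 ≤ c) : Lab c k c (2 * c) ≤ 1 ∧ Lab c k (2 * c) c ≤ 1 := by
  rw [lab_comm c k (2 * c)]
  have : Lab c k c (2 * c) = 1 := by
    rw [Lab_xy_m (by omega) (by omega) (by omega) (by omega), lam_low le_rfl]
    omega
  omega

end Pool.Agent.Lib_helper91.Rdv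

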