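import Pool.Agent.Lib_helper91.RdvSync
set_option autoImplicit false
namespace Pool.Agent.Lib_helper91.Rdv

/-- The automaton on `3c + k` states. -/
def fam (c k : ℕ) (hc : 2 ≤ c) (x : Fin 2) (p : Fin (3 * c + k)) : Fin (3 * c + k) :=
  ⟨stp c k x p.1, by
    unfold stp
    split
    · exact piN_lt hc p.2
    · exact aN_lt hc p.2⟩

theorem run_fam (c k : ℕ) (hc : 2 ≤ c) (w : List (Fin 2)) (p : Fin (3 * c + k)) :
    (run (fam c k hc) w p).1 = run (stp c k) w p.1 := by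
  induction w generalizing p with
  | nil => rfl
  | cons x w ih => rw [run_cons, run_cons, ih]; rfl

theorem fam_reset (c k : ℕ) (hc : 2 ≤ c) (hk : k ≤ 2) :
    ∃ (w : List (Fin 2)) (q : Fin (3 * c + k)), ∀ p, run (fam c k hc) w p = q := by
  have : Nonempty (Fin (3 * c + k)) := ⟨⟨0, by omega⟩⟩
  refine exists_reset _ ?_
  intro u v
  obtain ⟨w, hw⟩ := M_all (k := k) hc hk u.2 v.2
  exact ⟨w, Fin.ext (by rw [run_fam, run_fam, hw])⟩

theorem fam_triple (c k : ℕ) (hc : 2 ≤ c) (w : List (Fin 2)) (a b d : Fin (3 * c + k))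
    (hab : a ≠ b) (had : a ≠ d) (hbd : b ≠ d)
    (h : run (fam c k hc) w a = run (fam c k hc) w b)
    (h' : run (fam c k hc) w a = run (fam c k hc) w d) : 4 * c + k ≤ w.length := by
  have hval : ∀ x (u : Fin (3 * c + k)), (fam c k hc x u).1 = if x = 0 then piN c u.1 else aN c k u.1 :=
    fun _ _ => rfl
  refine triple_length (fam c k hc) (fun u v => Lab c k u.1 v.1) (4 * c + k) ?_ ?_ ?_
    w a b d hab had hbd h h'
  · intro x u v huv he
    have huv' : u.1 ≠ v.1 := fun h => huv (Fin.ext h)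
    have he' := congrArg Fin.val he
    rw [hval, hval] at he'
    by_cases hx : x = 0
    · rw [if_pos hx, if_pos hx] at he'
      exact absurd he' (piN_inj hc huv')
    · rw [if_neg hx, if_neg hx] at he'
      rcases aN_merge hc u.2 v.2 huv' he' with ⟨h1, h2⟩ | ⟨h1, h2⟩
      · show Lab c k u.1 v.1 ≤ 1
        rw [h1, h2]; exact (Lab_merge hc).1
      · show Lab c k u.1 v.1 ≤ 1
        rw [h1, h2]; exact (Lab_merge hc).2
  · intro x u v huv _
    have huv' : u.1 ≠ v.1 := fun h => huv (Fin.ext h)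
    show Lab c k u.1 v.1 ≤ Lab c k (fam c k hc x u).1 (fam c k hc x v).1 + 1
    rw [hval, hval]
    by_cases hx : x = 0
    · rw [if_pos hx, if_pos hx]
      exact lab_pi hc u.2 v.2
    · rw [if_neg hx, if_neg hx]
      exact lab_a hc u.2 v.2 huv'
  · intro x u v t huv he htu htv
    have huv' : u.1 ≠ v.1 := fun h => huv (Fin.ext h)
    have htu' : t.1 ≠ u.1 := fun h => htu (Fin.ext h)
    have htv' : t.1 ≠ v.1 := fun h => htv (Fin.ext h)
    have he' := congrArg Fin.val he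
    rw [hval, hval] at he'
    by_cases hx : x = 0
    · rw [if_pos hx, if_pos hx] at he'
      exact absurd he' (piN_inj hc huv')
    · rw [if_neg hx, if_neg hx] at he'
      have hm := aN_merge hc u.2 v.2 huv' he'
      constructor
      · intro h3
        have h3' := congrArg Fin.val h3
        rw [hval, hval, if_neg hx, if_neg hx] at h3'
        have := aN_merge hc u.2 t.2 htu'.symm h3'
        omega
      · show 4 * c + k ≤ Lab c k (fam c k hc x u).1 (fam c k hc x t).1 + 1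
        rw [hval, hval, if_neg hx, if_neg hx, aN_q hc (by omega)]
        exact Lab_q hc t.2

/-! Small cases. -/

def d3 : Fin 2 → Fin 3 → Fin 3 := ![![0, 1, 0], ![1, 2, 0]]
def L3 : Fin 3 → Fin 3 → ℕ := ![![0, 3, 1], ![3, 0, 2], ![1, 2, 0]]
def d4 : Fin 2 → Fin 4 → Fin 4 := ![![0, 0, 2, 3], ![3, 0, 1, 2]]
def L4 : Fin 4 → Fin 4 → ℕ := ![![0, 1, 6, 4], ![1, 0, 2, 5], ![6, 2, 0, 3], ![4, 5, 3, 0]]
def d5 : Fin 2 → Fin 5 → Fin 5 := ![![0, 0, 2, 4, 3], ![3, 2, 0, 1, 4]]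
def L5 : Fin 5 → Fin 5 → ℕ :=
  ![![0, 1, 8, 7, 6], ![1, 0, 9, 7, 4], ![8, 9, 0, 2, 3], ![7, 7, 2, 0, 5], ![6, 4, 3, 5, 0]]

theorem small3 : (∃ (w : List (Fin 2)) (q : Fin 3), ∀ p, run d3 w p = q) ∧
    ∀ (w : List (Fin 2)) (a b d : Fin 3), a ≠ b → a ≠ d → b ≠ d → run d3 w a = run d3 w b →
      run d3 w a = run d3 w d → 4 ≤ w.length := by
  refine ⟨⟨[0, 1, 1, 0], 0, by decide⟩, ?_⟩
  intro w a b d h1 h2 h3 h4 h5
  exact triple_length d3 L3 4 (by decide) (by decide) (by decide) w a b d h1 h2 h3 h4 h5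

theorem small4 : (∃ (w : List (Fin 2)) (q : Fin 4), ∀ p, run d4 w p = q) ∧
    ∀ (w : List (Fin 2)) (a b d : Fin 4), a ≠ b → a ≠ d → b ≠ d → run d4 w a = run d4 w b →
      run d4 w a = run d4 w d → 5 ≤ w.length := by
  refine ⟨⟨[0, 1, 1, 1, 0, 1, 1, 1, 0], 0, by decide⟩, ?_⟩
  intro w a b d h1 h2 h3 h4 h5
  exact triple_length d4 L4 5 (by decide) (by decide) (by decide) w a b d h1 h2 h3 h4 h5

theorem small5 : (∃ (w : List (Fin 2)) (q : Fin 5), ∀ p, run d5 w p = q) ∧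
    ∀ (w : List (Fin 2)) (a b d : Fin 5), a ≠ b → a ≠ d → b ≠ d → run d5 w a = run d5 w b →
      run d5 w a = run d5 w d → 7 ≤ w.length := by
  refine ⟨⟨[0, 1, 1, 1, 0, 1, 0, 1, 1, 1, 0, 1, 0], 0, by decide⟩, ?_⟩
  intro w a b d h1 h2 h3 h4 h5
  exact triple_length d5 L5 7 (by decide) (by decide) (by decide) w a b d h1 h2 h3 h4 h5

/-- For every `n ≥ 3` there is a synchronizing two-letter automaton on `n` states in which no
word of length less than `⌊4n/3⌋` maps three distinct states to one. -/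
theorem exists_auto (n : ℕ) (hn : 3 ≤ n) : ∃ δ : Fin 2 → Fin n → Fin n,
    (∃ (w : List (Fin 2)) (q : Fin n), ∀ p, run δ w p = q) ∧
    ∀ (w : List (Fin 2)) (a b d : Fin n), a ≠ b → a ≠ d → b ≠ d → run δ w a = run δ w b →
      run δ w a = run δ w d → 4 * n / 3 ≤ w.length := by
  by_cases h6 : 6 ≤ n
  · obtain ⟨c, k, hc, hk, hn'⟩ : ∃ c k, 2 ≤ c ∧ k ≤ 2 ∧ n = 3 * c + k :=
      ⟨n / 3, n % 3, by omega, by omega, by omega⟩
    subst hn'
    refine ⟨fam c k hc, fam_reset c k hc hk, ?_⟩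
    intro w a b d h1 h2 h3 h4 h5
    have := fam_triple c k hc w a b d h1 h2 h3 h4 h5
    omega
  · have h : n = 3 ∨ n = 4 ∨ n = 5 := by omega
    rcases h with rfl | rfl | rfl
    · exact ⟨d3, small3.1, small3.2⟩
    · exact ⟨d4, small4.1, small4.2⟩
    · exact ⟨d5, small5.1, fun w a b d h1 h2 h3 h4 h5 =>
        le_trans (by norm_num) (small5.2 w a b d h1 h2 h3 h4 h5)⟩

end Pool.Agent.Lib_helper91.Rdv
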