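import Pool.Agent.Lib_helper91.RdvBasic
set_option autoImplicit false

/-!
Shortest words that map three distinct states to one: the geodesic of pairs and the counting
argument that bounds its length when every state can be doubled by a short word missing few states.
-/

namespace Pool.Agent.Lib_helper91.Rdv

variable {Q A : Type*} (δ : A → Q → Q)

/-- `w` maps three distinct states to one. -/
def Tri (w : List A) : Prop :=
  ∃ a b d : Q, a ≠ b ∧ a ≠ d ∧ b ≠ d ∧ run δ w a = run δ w b ∧ run δ w a = run δ w d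

/-- `v` maps three distinct states into `{x, y}`. -/
def Into (v : List A) (x y : Q) : Prop :=
  ∃ a b d : Q, a ≠ b ∧ a ≠ d ∧ b ≠ d ∧ (run δ v a = x ∨ run δ v a = y) ∧
    (run δ v b = x ∨ run δ v b = y) ∧ (run δ v d = x ∨ run δ v d = y)

variable {δ}

theorem Into.symm {v : List A} {x y : Q} (h : Into δ v x y) : Into δ v y x := by
  obtain ⟨a, b, d, h1, h2, h3, h4, h5, h6⟩ := h
  exact ⟨a, b, d, h1, h2, h3, h4.symm, h5.symm, h6.symm⟩

theorem Into.tri {v u : List A} {x y : Q} (h : Into δ v x y) (hu : run δ u x = run δ u y) :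
    Tri δ (v ++ u) := by
  obtain ⟨a, b, d, h1, h2, h3, h4, h5, h6⟩ := h
  refine ⟨a, b, d, h1, h2, h3, ?_, ?_⟩
  · rw [run_append, run_append]
    rcases h4 with h4 | h4 <;> rcases h5 with h5 | h5 <;> rw [h4, h5] <;> simp [hu]
  · rw [run_append, run_append]
    rcases h4 with h4 | h4 <;> rcases h6 with h6 | h6 <;> rw [h4, h6] <;> simp [hu]

/-- Data of a geodesic: `N` is the least length of a word merging three states; for `1 ≤ i < N`
there is a pair `x i ≠ y i` reached from three states in `i` steps but not faster, and merged by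
`N - i` further letters. -/
theorem exists_geodesic (h : ∃ w, Tri δ w) : ∃ (N : ℕ) (x y : ℕ → Q),
    (∃ w, Tri δ w ∧ w.length = N) ∧ (∀ w, Tri δ w → N ≤ w.length) ∧
    (∀ i, 1 ≤ i → i < N → x i ≠ y i ∧ (∃ u : List A, u.length = i ∧ Into δ u (x i) (y i)) ∧
      (∃ v : List A, v.length = N - i ∧ run δ v (x i) = run δ v (y i))) := by
  classical
  have hex : ∃ l, ∃ w, Tri δ w ∧ w.length = l := by
    obtain ⟨w, hw⟩ := h
    exact ⟨_, w, hw, rfl⟩
  obtain ⟨w, hw, hwl⟩ := Nat.find_spec hex
  have hmin : ∀ w', Tri δ w' → Nat.find hex ≤ w'.length := fun w' hw' =>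
    Nat.find_min' hex ⟨w', hw', rfl⟩
  set N := Nat.find hex with hN
  have key : ∀ i, ∃ p : Q × Q, 1 ≤ i → i < N → p.1 ≠ p.2 ∧
      (∃ u : List A, u.length = i ∧ Into δ u p.1 p.2) ∧
      (∃ v : List A, v.length = N - i ∧ run δ v p.1 = run δ v p.2) := by
    intro i
    obtain ⟨a, b, d, h1, h2, h3, h4, h5⟩ := hw
    by_cases hi : 1 ≤ i ∧ i < N
    swap
    · exact ⟨(a, b), fun h1 h2 => absurd ⟨h1, h2⟩ hi⟩
    obtain ⟨hi1, hi2⟩ := hi
    have hsplit : w.take i ++ w.drop i = w := List.take_append_drop i w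
    have hlen : (w.take i).length = i := by rw [List.length_take]; omega
    have hlen' : (w.drop i).length = N - i := by rw [List.length_drop]; omega
    rw [← hsplit, run_append, run_append] at h4 h5
    by_cases hab : run δ (w.take i) a = run δ (w.take i) b
    · by_cases had : run δ (w.take i) a = run δ (w.take i) d
      · exfalso
        have := hmin _ ⟨a, b, d, h1, h2, h3, hab, had⟩
        omega
      · exact ⟨(run δ (w.take i) a, run δ (w.take i) d), fun _ _ => ⟨had,
          ⟨w.take i, hlen, a, b, d, h1, h2, h3, Or.inl rfl, Or.inl hab.symm, Or.inr rfl⟩,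
          ⟨w.drop i, hlen', h5⟩⟩⟩
    · by_cases had : run δ (w.take i) a = run δ (w.take i) d
      · exact ⟨(run δ (w.take i) a, run δ (w.take i) b), fun _ _ => ⟨hab,
          ⟨w.take i, hlen, a, b, d, h1, h2, h3, Or.inl rfl, Or.inr rfl, Or.inl had.symm⟩,
          ⟨w.drop i, hlen', h4⟩⟩⟩
      · by_cases hbd : run δ (w.take i) b = run δ (w.take i) d
        · exact ⟨(run δ (w.take i) a, run δ (w.take i) b), fun _ _ => ⟨hab,
            ⟨w.take i, hlen, a, b, d, h1, h2, h3, Or.inl rfl, Or.inr rfl, Or.inr hbd.symm⟩,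
            ⟨w.drop i, hlen', h4⟩⟩⟩
        · exfalso
          have := hmin (w.drop i) ⟨_, _, _, hab, had, hbd, h4, h5⟩
          omega
  choose p hp using key
  exact ⟨N, fun i => (p i).1, fun i => (p i).2, ⟨w, hw, hwl⟩, hmin, hp⟩

/-- The set of states missed by a word. -/
def miss [Fintype Q] [DecidableEq Q] (δ : A → Q → Q) (w : List A) : Finset Q :=
  Finset.univ \ Finset.univ.image (run δ w)

theorem mem_miss [Fintype Q] [DecidableEq Q] {w : List A} {y : Q} :
    y ∈ miss δ w ↔ ∀ p, run δ w p ≠ y := by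
  simp [miss]

/-- Counting: if every state `x` has two preimages under a word of length at most `l` that misses
at most `s x` states, then the shortest word merging three states has length at most
`l + 1 + (∑ x, s x) / 2`. -/
theorem geodesic_count' [Fintype Q] [DecidableEq Q] (h : ∃ w, Tri δ w) (l : ℕ) (s : Q → ℕ)
    (hd : ∀ x : Q, ∃ v : List A, v.length ≤ l ∧ (miss δ v).card ≤ s x ∧
      ∃ p p', p ≠ p' ∧ run δ v p = x ∧ run δ v p' = x) :
    ∃ w, Tri δ w ∧ 2 * w.length ≤ 2 * l + 2 + ∑ x, s x := by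
  classical
  obtain ⟨N, x, y, ⟨w, hw, hwl⟩, hmin, hg⟩ := exists_geodesic h
  refine ⟨w, hw, ?_⟩
  rw [hwl]
  choose v hvl hvm p p' hpp hp hp' using hd
  by_contra hcon
  -- the pairs with index in `(l, N)`
  have hsep : ∀ i j, 1 ≤ i → i < j → j < N →
      ¬ ((x i = x j ∧ y i = y j) ∨ (x i = y j ∧ y i = x j)) := by
    intro i j hi hij hj hc
    obtain ⟨-, ⟨u, hul, hu⟩, -⟩ := hg i hi (by omega)
    obtain ⟨-, -, ⟨v', hvl', hv'⟩⟩ := hg j (by omega) hj
    have hT : Tri δ (u ++ v') := by
      rcases hc with ⟨h1, h2⟩ | ⟨h1, h2⟩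
      · rw [h1, h2] at hu
        exact hu.tri hv'
      · rw [h1, h2] at hu
        exact hu.symm.tri hv'
    have := hmin _ hT
    rw [List.length_append, hul, hvl'] at this
    omega
  have hmiss : ∀ i, 1 ≤ i → l < i → i < N → ∀ a b : Q, a ≠ b →
      ((a = x i ∧ b = y i) ∨ (a = y i ∧ b = x i)) → b ∈ miss δ (v a) := by
    intro i hi1 hi hiN a b hab hc
    rw [mem_miss]
    intro r hr
    have hin : Into δ (v a) a b := by
      refine ⟨p a, p' a, r, hpp a, ?_, ?_, Or.inl (hp a), Or.inl (hp' a), Or.inr hr⟩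
      · rintro rfl
        exact hab ((hp a).symm.trans hr)
      · rintro rfl
        exact hab ((hp' a).symm.trans hr)
    obtain ⟨-, -, ⟨v', hvl', hv'⟩⟩ := hg i hi1 hiN
    have hT : Tri δ (v a ++ v') := by
      rcases hc with ⟨h1, h2⟩ | ⟨h1, h2⟩
      · rw [h1] at hin ⊢
        rw [h2] at hin
        exact hin.tri hv'
      · rw [h1] at hin ⊢
        rw [h2] at hin
        exact hin.tri hv'.symm
    have h1 := hmin _ hT
    have h2 := hvl a
    rw [List.length_append, hvl'] at h1
    omega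
  -- injection of `(Ioo l N) × Bool` into the sigma type
  let I : Finset (ℕ × Bool) := Finset.Ioo l N ×ˢ Finset.univ
  let f : ℕ × Bool → (_ : Q) × Q := fun z => if z.2 then ⟨x z.1, y z.1⟩ else ⟨y z.1, x z.1⟩
  let S : Finset ((_ : Q) × Q) := Finset.univ.sigma (fun a => miss δ (v a))
  have hIS : ∀ z ∈ I, f z ∈ S := by
    rintro ⟨i, c⟩ hz
    have hz' : l < i ∧ i < N := by simpa [I] using hz
    have hi1 : 1 ≤ i := by omega
    have hne := (hg i hi1 hz'.2).1
    cases c with
    | true =>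
      simp only [f, S, if_true, Finset.mem_sigma, Finset.mem_univ, true_and]
      exact hmiss i hi1 hz'.1 hz'.2 _ _ hne (Or.inl ⟨rfl, rfl⟩)
    | false =>
      simp only [f, S, Finset.mem_sigma, Finset.mem_univ, true_and]
      exact hmiss i hi1 hz'.1 hz'.2 _ _ hne.symm (Or.inr ⟨rfl, rfl⟩)
  have hinj : Set.InjOn f (I : Set (ℕ × Bool)) := by
    rintro ⟨i, c⟩ hz ⟨j, c'⟩ hz' heq
    have hz1 : l < i ∧ i < N := by simpa [I] using hz
    have hz2 : l < j ∧ j < N := by simpa [I] using hz'
    have hcases : (x i = x j ∧ y i = y j) ∨ (x i = y j ∧ y i = x j) := by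
      cases c <;> cases c' <;> simp [f] at heq <;> tauto
    have hij : i = j := by
      by_contra hne
      rcases Nat.lt_or_gt_of_ne hne with hlt | hlt
      · exact hsep i j (by omega) hlt hz2.2 hcases
      · refine hsep j i (by omega) hlt hz1.2 ?_
        rcases hcases with ⟨h1, h2⟩ | ⟨h1, h2⟩
        · exact Or.inl ⟨h1.symm, h2.symm⟩
        · exact Or.inr ⟨h2.symm, h1.symm⟩
    subst hij
    have hne := (hg i (by omega) hz1.2).1
    cases c <;> cases c' <;> simp [f] at heq ⊢
    · exact hne heq.1.symm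
    · exact hne heq.1
  have hcard := Finset.card_le_card_of_injOn f hIS hinj
  have hI : I.card = (N - l - 1) * 2 := by
    simp [I, Finset.card_product]
  have hS : S.card ≤ ∑ x, s x := by
    rw [Finset.card_sigma]
    exact Finset.sum_le_sum (fun a _ => hvm a)
  omega

/-- The same with a uniform bound. -/
theorem geodesic_count [Fintype Q] [DecidableEq Q] (h : ∃ w, Tri δ w) (l s : ℕ)
    (hd : ∀ x : Q, ∃ v : List A, v.length ≤ l ∧ (miss δ v).card ≤ s ∧
      ∃ p p', p ≠ p' ∧ run δ v p = x ∧ run δ v p' = x) :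
    ∃ w, Tri δ w ∧ 2 * w.length ≤ 2 * l + 2 + Fintype.card Q * s := by
  obtain ⟨w, hw, hwl⟩ := geodesic_count' h l (fun _ => s) hd
  refine ⟨w, hw, ?_⟩
  simpa using hwl

end Pool.Agent.Lib_helper91.Rdv
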