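import Mathlib
set_option autoImplicit false

/-!
Weights with values in `{0,1,2}` and sum at most `2` on the pairs of a symmetric relation: the span
of those of maximal total has dimension at most half the defect of the total plus one.
-/

namespace Pool.Agent.Lib_helper91.Rdv

open Finset

universe u

variable {Q : Type u} [Fintype Q] [DecidableEq Q]

theorem swap_le {E : Q → Q → Prop} {g0 : Q → ℕ} (hle : ∀ x, g0 x ≤ 2)
    (hmax : ∀ g : Q → ℕ, (∀ x, g x ≤ 2) → (∀ x y, E x y → g x + g y ≤ 2) → ∑ x, g x ≤ ∑ x, g0 x)
    (Y N : Finset Q) (hY : ∀ y ∈ Y, g0 y ≤ 1) (hN : ∀ y ∈ N, 1 ≤ g0 y)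
    (hE : ∀ u v, E u v → (g0 u + (if u ∈ Y then 1 else 0) - (if u ∈ N then 1 else 0)) +
      (g0 v + (if v ∈ Y then 1 else 0) - (if v ∈ N then 1 else 0)) ≤ 2) :
    Y.card ≤ N.card := by
  have h := hmax (fun u => g0 u + (if u ∈ Y then 1 else 0) - (if u ∈ N then 1 else 0)) ?_ hE
  · have h2 : ∑ u, (g0 u + (if u ∈ Y then 1 else 0) - (if u ∈ N then 1 else 0)) +
        ∑ u, (if u ∈ N then 1 else 0) = ∑ u, g0 u + ∑ u, (if u ∈ Y then 1 else 0) := by
      rw [← Finset.sum_add_distrib, ← Finset.sum_add_distrib]
      apply Finset.sum_congr rfl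
      intro u _
      have := hN u
      by_cases h1 : u ∈ N
      · have := this h1
        simp only [h1, if_true]
        omega
      · simp [h1]
    rw [Finset.sum_ite_mem, Finset.sum_ite_mem] at h2
    simp at h2
    omega
  · intro x
    have h1 := hle x
    have h2 := hY x
    by_cases h3 : x ∈ Y
    · have := h2 h3
      simp only [h3, if_true]
      split_ifs <;> omega
    · simp only [h3, if_false]
      split_ifs <;> omega

theorem exists_arcs {E : Q → Q → Prop} (hsymm : ∀ x y, E x y → E y x) {g0 : Q → ℕ}
    (hle : ∀ x, g0 x ≤ 2) (hpair : ∀ x y, E x y → g0 x + g0 y ≤ 2)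
    (hmax : ∀ g : Q → ℕ, (∀ x, g x ≤ 2) → (∀ x y, E x y → g x + g y ≤ 2) →
      ∑ x, g x ≤ ∑ x, g0 x) :
    ∃ (I : Type u) (_ : Fintype I) (s t : I → Q), Function.Injective s ∧ Function.Injective t ∧
      (∀ i, E (s i) (t i)) ∧ Fintype.card I + ∑ x, g0 x = 2 * Fintype.card Q := by
  classical
  -- first Hall
  obtain ⟨f, hf, hf'⟩ := (Finset.all_card_le_biUnion_card_iff_exists_injective
    (fun x : {x : Q // g0 x = 0} => univ.filter fun y => E x y ∧ g0 y = 2)).mp (by
      intro X
      rw [← Finset.card_map (Function.Embedding.subtype _)]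
      apply swap_le hle hmax
      · intro y hy
        obtain ⟨x, -, rfl⟩ := Finset.mem_map.mp hy
        have := x.2
        simp only [Function.Embedding.subtype_apply]
        omega
      · intro y hy
        simp only [mem_biUnion, mem_filter, mem_univ, true_and] at hy
        obtain ⟨x, -, -, h⟩ := hy
        omega
      · intro u v huv
        have h0 := hpair u v huv
        set Y := X.map (Function.Embedding.subtype fun x => g0 x = 0) with hYdef
        set N := X.biUnion (fun x : {x : Q // g0 x = 0} => univ.filter fun y => E x y ∧ g0 y = 2)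
          with hNdef
        have hY0 : ∀ z, z ∈ Y → g0 z = 0 := by
          intro z hz
          obtain ⟨x, -, rfl⟩ := Finset.mem_map.mp hz
          exact x.2
        have hYN : ∀ a b, E a b → a ∈ Y → g0 b = 2 → b ∈ N := by
          intro a b hab ha hb
          obtain ⟨x, hx, rfl⟩ := Finset.mem_map.mp ha
          simp only [hNdef, mem_biUnion, mem_filter, mem_univ, true_and]
          exact ⟨x, hx, hab, hb⟩
        have h1 := hYN u v huv
        have h2 := hYN v u (hsymm _ _ huv)
        have h3 := hY0 u
        have h4 := hY0 v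
        by_cases hu : u ∈ Y <;> by_cases hv : v ∈ Y <;> by_cases hu' : u ∈ N <;>
          by_cases hv' : v ∈ N <;> simp [hu, hv, hu', hv'] at h1 h2 h3 h4 ⊢ <;> omega)
  -- second Hall
  obtain ⟨g, hg, hg'⟩ := (Finset.all_card_le_biUnion_card_iff_exists_injective
    (fun x : {x : Q // g0 x ≤ 1} => univ.filter fun y => E x y ∧ 1 ≤ g0 y)).mp (by
      intro X
      rw [← Finset.card_map (Function.Embedding.subtype _)]
      apply swap_le hle hmax
      · intro y hy
        obtain ⟨x, -, rfl⟩ := Finset.mem_map.mp hy
        exact x.2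
      · intro y hy
        simp only [mem_biUnion, mem_filter, mem_univ, true_and] at hy
        obtain ⟨x, -, -, h⟩ := hy
        exact h
      · intro u v huv
        have h0 := hpair u v huv
        set Y := X.map (Function.Embedding.subtype fun x => g0 x ≤ 1) with hYdef
        set N := X.biUnion (fun x : {x : Q // g0 x ≤ 1} => univ.filter fun y => E x y ∧ 1 ≤ g0 y)
          with hNdef
        have hY0 : ∀ z, z ∈ Y → g0 z ≤ 1 := by
          intro z hz
          obtain ⟨x, -, rfl⟩ := Finset.mem_map.mp hz
          exact x.2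
        have hN0 : ∀ z, z ∈ N → 1 ≤ g0 z := by
          intro z hz
          simp only [hNdef, mem_biUnion, mem_filter, mem_univ, true_and] at hz
          obtain ⟨x, -, -, h⟩ := hz
          exact h
        have hYN : ∀ a b, E a b → a ∈ Y → 1 ≤ g0 b → b ∈ N := by
          intro a b hab ha hb
          obtain ⟨x, hx, rfl⟩ := Finset.mem_map.mp ha
          simp only [hNdef, mem_biUnion, mem_filter, mem_univ, true_and]
          exact ⟨x, hx, hab, hb⟩
        have h1 := hYN u v huv
        have h2 := hYN v u (hsymm _ _ huv)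
        have h3 := hY0 u
        have h4 := hY0 v
        have h5 := hN0 u
        have h6 := hN0 v
        by_cases hu : u ∈ Y <;> by_cases hv : v ∈ Y <;> by_cases hu' : u ∈ N <;>
          by_cases hv' : v ∈ N <;> simp [hu, hv, hu', hv'] at h1 h2 h3 h4 h5 h6 ⊢ <;> omega)
  refine ⟨{x : Q // g0 x = 0} ⊕ {x : Q // g0 x ≤ 1}, inferInstance,
    Sum.elim (fun x => x.1) g, Sum.elim f (fun x => x.1), ?_, ?_, ?_, ?_⟩
  · rintro (a | a) (b | b) hab
    · simpa using Subtype.ext hab
    · exfalso
      simp only [Sum.elim_inl, Sum.elim_inr] at hab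
      have h1 := a.2
      have h2 := hg' b
      simp only [mem_filter, mem_univ, true_and] at h2
      rw [← hab] at h2
      omega
    · exfalso
      simp only [Sum.elim_inl, Sum.elim_inr] at hab
      have h1 := b.2
      have h2 := hg' a
      simp only [mem_filter, mem_univ, true_and] at h2
      rw [hab] at h2
      omega
    · simpa using hg hab
  · rintro (a | a) (b | b) hab
    · simpa using hf hab
    · exfalso
      simp only [Sum.elim_inl, Sum.elim_inr] at hab
      have h1 := b.2
      have h2 := hf' a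
      simp only [mem_filter, mem_univ, true_and] at h2
      rw [hab] at h2
      omega
    · exfalso
      simp only [Sum.elim_inl, Sum.elim_inr] at hab
      have h1 := a.2
      have h2 := hf' b
      simp only [mem_filter, mem_univ, true_and] at h2
      rw [← hab] at h2
      omega
    · simpa using Subtype.ext hab
  · rintro (a | a)
    · have := hf' a
      simp only [mem_filter, mem_univ, true_and] at this
      exact this.1
    · have := hg' a
      simp only [mem_filter, mem_univ, true_and] at this
      exact hsymm _ _ this.1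
  · rw [Fintype.card_sum, Fintype.card_subtype, Fintype.card_subtype, Finset.card_filter,
      Finset.card_filter, ← Finset.sum_add_distrib, ← Finset.sum_add_distrib]
    have : ∀ x ∈ (univ : Finset Q), ((if g0 x = 0 then 1 else 0) + (if g0 x ≤ 1 then 1 else 0)) +
        g0 x = 2 := by
      intro x _
      have := hle x
      split_ifs <;> omega
    rw [Finset.sum_congr rfl this]
    simp [mul_comm]

/-- Every weight of maximal total is tight on the arcs. -/
theorem arcs_tight {E : Q → Q → Prop} {g : Q → ℕ} (hle : ∀ x, g x ≤ 2)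
    (hpair : ∀ x y, E x y → g x + g y ≤ 2) {I : Type u} [Fintype I] {s t : I → Q}
    (hs : Function.Injective s) (ht : Function.Injective t) (hst : ∀ i, E (s i) (t i))
    (hcard : Fintype.card I + ∑ x, g x = 2 * Fintype.card Q) :
    (∀ i, g (s i) + g (t i) = 2) ∧ (∀ x, (∀ i, s i ≠ x) → g x = 2) := by
  classical
  have h1 : ∑ x ∈ univ.image s, g x = ∑ i, g (s i) := Finset.sum_image fun a _ b _ h => hs h
  have h2 : ∑ x ∈ univ.image t, g x = ∑ i, g (t i) := Finset.sum_image fun a _ b _ h => ht h
  have h3 := Finset.sum_add_sum_compl (univ.image s) g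
  have h4 := Finset.sum_add_sum_compl (univ.image t) g
  have c1 : (univ.image s).card = Fintype.card I := by
    rw [Finset.card_image_of_injective _ hs, Finset.card_univ]
  have c2 : (univ.image t).card = Fintype.card I := by
    rw [Finset.card_image_of_injective _ ht, Finset.card_univ]
  have c3 := Finset.card_add_card_compl (univ.image s)
  have c4 := Finset.card_add_card_compl (univ.image t)
  have b1 : ∑ i, (g (s i) + g (t i)) ≤ ∑ _i : I, 2 := Finset.sum_le_sum fun i _ =>
    hpair _ _ (hst i)
  have b2 : ∑ x ∈ (univ.image s)ᶜ, g x ≤ ∑ _x ∈ (univ.image s)ᶜ, 2 :=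
    Finset.sum_le_sum fun x _ => hle x
  have b3 : ∑ x ∈ (univ.image t)ᶜ, g x ≤ ∑ _x ∈ (univ.image t)ᶜ, 2 :=
    Finset.sum_le_sum fun x _ => hle x
  have e1 : ∑ _i : I, 2 = 2 * Fintype.card I := by simp [mul_comm]
  have e2 : ∑ _x ∈ (univ.image s)ᶜ, 2 = 2 * (univ.image s)ᶜ.card := by simp [mul_comm]
  have e3 : ∑ _x ∈ (univ.image t)ᶜ, 2 = 2 * (univ.image t)ᶜ.card := by simp [mul_comm]
  rw [e1] at b1
  rw [e2] at b2
  rw [e3] at b3
  rw [Finset.sum_add_distrib] at b1
  constructor
  · intro i
    by_contra hne
    have hlt : g (s i) + g (t i) < 2 := lt_of_le_of_ne (hpair _ _ (hst i)) hne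
    have : ∑ i, (g (s i) + g (t i)) < ∑ _i : I, 2 :=
      Finset.sum_lt_sum (fun i _ => hpair _ _ (hst i)) ⟨i, mem_univ _, hlt⟩
    rw [e1, Finset.sum_add_distrib] at this
    omega
  · intro x hx
    by_contra hne
    have hlt : g x < 2 := lt_of_le_of_ne (hle x) hne
    have hxm : x ∈ (univ.image s)ᶜ := by
      simpa using hx
    have : ∑ x ∈ (univ.image s)ᶜ, g x < ∑ _x ∈ (univ.image s)ᶜ, 2 :=
      Finset.sum_lt_sum (fun x _ => hle x) ⟨x, hxm, hlt⟩
    rw [e2] at this
    omega

end Pool.Agent.Lib_helper91.Rdv
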