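import Pool.Agent.Lib_helper91.RdvGeo
set_option autoImplicit false

/-!
Levels `E k` of pairs, weights with values in `{0,1,2}` that are at most `2` on every pair of the
level, and how words push such weights forward.
-/

namespace Pool.Agent.Lib_helper91.Rdv

open Finset

variable {Q A : Type*}

/-- Pairs into which no word with fewer than `k` letters maps three distinct states. -/
def EE (δ : A → Q → Q) (k : ℕ) (x y : Q) : Prop :=
  x ≠ y ∧ ∀ u : List A, u.length < k → ¬ Into δ u x y

theorem EE.symm {δ : A → Q → Q} {k : ℕ} {x y : Q} (h : EE δ k x y) : EE δ k y x :=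
  ⟨h.1.symm, fun u hu hI => h.2 u hu hI.symm⟩

theorem EE.mono {δ : A → Q → Q} {k l : ℕ} (hkl : k ≤ l) {x y : Q} (h : EE δ l x y) :
    EE δ k x y := ⟨h.1, fun u hu => h.2 u (lt_of_lt_of_le hu hkl)⟩

/-- Weights with values at most `2` whose sum on every pair of level `k` is at most `2`. -/
structure GG (δ : A → Q → Q) (k : ℕ) (g : Q → ℕ) : Prop where
  le : ∀ x, g x ≤ 2
  pair : ∀ x y, EE δ k x y → g x + g y ≤ 2

theorem GG.mono {δ : A → Q → Q} {k l : ℕ} (hkl : k ≤ l) {g : Q → ℕ} (h : GG δ k g) :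
    GG δ l g := ⟨h.le, fun x y hxy => h.pair x y (hxy.mono hkl)⟩

theorem GG.one (δ : A → Q → Q) (k : ℕ) : GG δ k (fun _ => 1) :=
  ⟨fun _ => by norm_num, fun _ _ _ => by norm_num⟩

theorem sum_le_two {F : Finset Q} {g : Q → ℕ}
    (hc : ∀ a ∈ F, ∀ b ∈ F, ∀ c ∈ F, a ≠ b → a ≠ c → b ≠ c → False)
    (h1 : ∀ p ∈ F, g p ≤ 2) (h2 : ∀ p ∈ F, ∀ q ∈ F, p ≠ q → g p + g q ≤ 2) :
    ∑ p ∈ F, g p ≤ 2 := by
  classical
  have hcard : F.card ≤ 2 := by
    by_contra h
    obtain ⟨a, ha, b, hb, c, hc', hab, hac, hbc⟩ := Finset.two_lt_card.mp (by omega : 2 < F.card)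
    exact hc a ha b hb c hc' hab hac hbc
  have h3 : F.card = 0 ∨ F.card = 1 ∨ F.card = 2 := by omega
  rcases h3 with h3 | h3 | h3
  · rw [Finset.card_eq_zero] at h3
    subst h3
    simp
  · obtain ⟨a, rfl⟩ := Finset.card_eq_one.mp h3
    simpa using h1
  · obtain ⟨a, b, hab, rfl⟩ := Finset.card_eq_two.mp h3
    rw [Finset.sum_pair hab]
    exact h2 a (by simp) b (by simp) hab

variable [Fintype Q] [DecidableEq Q]

/-- Push a weight forward along a word. -/
def pushN (δ : A → Q → Q) (v : List A) (g : Q → ℕ) (y : Q) : ℕ := ∑ x with run δ v x = y, g x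

theorem sum_pushN (δ : A → Q → Q) (v : List A) (g : Q → ℕ) :
    ∑ y, pushN δ v g y = ∑ x, g x := by
  unfold pushN
  exact Finset.sum_fiberwise _ _ _

variable {δ : A → Q → Q}

/-- Pushing forward along a word of length `l` maps weights of level `k` to level `k + l`, as long
as `k + l` is at most the least length of a word merging three states. -/
theorem GG.push {N : ℕ} (hN : ∀ w, Tri δ w → N ≤ w.length) {k : ℕ} (hk : 1 ≤ k) (v : List A)
    (hkl : k + v.length ≤ N) {g : Q → ℕ} (h : GG δ k g) : GG δ (k + v.length) (pushN δ v g) := by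
  constructor
  · intro y
    apply sum_le_two
    · intro a ha b hb c hc hab hac hbc
      simp only [mem_filter, mem_univ, true_and] at ha hb hc
      have := hN v ⟨a, b, c, hab, hac, hbc, ha.trans hb.symm, ha.trans hc.symm⟩
      omega
    · intro p _
      exact h.le p
    · intro p hp q hq hpq
      simp only [mem_filter, mem_univ, true_and] at hp hq
      refine h.pair p q ⟨hpq, fun u hu hI => ?_⟩
      have := hN _ (hI.tri (hp.trans hq.symm))
      rw [List.length_append] at this
      omega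
  · intro y z hyz
    have hdisj : Disjoint (univ.filter fun x => run δ v x = y) (univ.filter fun x => run δ v x = z) := by
      rw [Finset.disjoint_filter]
      intro x _ hx hx'
      exact hyz.1 (hx.symm.trans hx')
    have hsum : pushN δ v g y + pushN δ v g z =
        ∑ x ∈ (univ.filter fun x => run δ v x = y) ∪ (univ.filter fun x => run δ v x = z), g x := by
      rw [Finset.sum_union hdisj]
      rfl
    rw [hsum]
    apply sum_le_two
    · intro a ha b hb c hc hab hac hbc
      simp only [mem_union, mem_filter, mem_univ, true_and] at ha hb hc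
      exact hyz.2 v (by omega) ⟨a, b, c, hab, hac, hbc, ha, hb, hc⟩
    · intro p _
      exact h.le p
    · intro p hp q hq hpq
      simp only [mem_union, mem_filter, mem_univ, true_and] at hp hq
      refine h.pair p q ⟨hpq, fun u hu hI => ?_⟩
      refine hyz.2 (u ++ v) (by rw [List.length_append]; omega) ?_
      obtain ⟨a, b, d, h1, h2, h3, h4, h5, h6⟩ := hI
      refine ⟨a, b, d, h1, h2, h3, ?_, ?_, ?_⟩
      · rw [run_append]
        rcases h4 with h4 | h4 <;> rw [h4] <;> assumption
      · rw [run_append]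
        rcases h5 with h5 | h5 <;> rw [h5] <;> assumption
      · rw [run_append]
        rcases h6 with h6 | h6 <;> rw [h6] <;> assumption

omit [DecidableEq Q] in
theorem GG.total_le {k : ℕ} {g : Q → ℕ} (h : GG δ k g) : ∑ x, g x ≤ 2 * Fintype.card Q := by
  calc ∑ x, g x ≤ ∑ _x : Q, 2 := Finset.sum_le_sum fun x _ => h.le x
    _ = 2 * Fintype.card Q := by simp [mul_comm]

/-- A word of length `l` that misses `d` states bounds the total of weights of level `k`,
`k + l ≤ N`. -/
theorem GG.total_le_miss {N : ℕ} (hN : ∀ w, Tri δ w → N ≤ w.length) {k : ℕ} (hk : 1 ≤ k)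
    (v : List A) (hkl : k + v.length ≤ N) {g : Q → ℕ} (h : GG δ k g) :
    ∑ x, g x + 2 * (miss δ v).card ≤ 2 * Fintype.card Q := by
  rw [← sum_pushN δ v g]
  have h' := h.push hN hk v hkl
  have h0 : ∀ y ∈ miss δ v, pushN δ v g y = 0 := by
    intro y hy
    rw [mem_miss] at hy
    unfold pushN
    apply Finset.sum_eq_zero
    intro x hx
    simp only [mem_filter, mem_univ, true_and] at hx
    exact absurd hx (hy x)
  have hsplit := Finset.sum_add_sum_compl (miss δ v) (pushN δ v g)
  rw [Finset.sum_eq_zero h0, zero_add] at hsplit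
  have hle : ∑ y ∈ (miss δ v)ᶜ, pushN δ v g y ≤ (miss δ v)ᶜ.card * 2 := by
    calc ∑ y ∈ (miss δ v)ᶜ, pushN δ v g y ≤ ∑ _y ∈ (miss δ v)ᶜ, 2 :=
          Finset.sum_le_sum fun y _ => h'.le y
      _ = (miss δ v)ᶜ.card * 2 := by simp
  have hc := Finset.card_add_card_compl (miss δ v)
  omega

/-- The maximal total of weights of level `k`. -/
theorem exists_maxTotal (δ : A → Q → Q) (k : ℕ) : ∃ m : ℕ, (∃ g, GG δ k g ∧ ∑ x, g x = m) ∧
    ∀ g, GG δ k g → ∑ x, g x ≤ m := by
  classical
  let P : ℕ → Prop := fun s => ∃ g, GG δ k g ∧ ∑ x, g x = s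
  have h1 : P (Fintype.card Q) := ⟨_, GG.one δ k, by simp⟩
  have hb : Fintype.card Q ≤ 2 * Fintype.card Q := by omega
  refine ⟨Nat.findGreatest P (2 * Fintype.card Q), Nat.findGreatest_spec hb h1, fun g hg => ?_⟩
  exact Nat.le_findGreatest hg.total_le ⟨g, hg, rfl⟩

end Pool.Agent.Lib_helper91.Rdv
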