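import Pool.Agent.Lib_helper91.RdvUpper
set_option autoImplicit false

/-!
Short paths, doubling words, the strongly connected case of the upper bound, and the reduction to
the sink component.
-/

namespace Pool.Agent.Lib_helper91.Rdv

open Finset

universe u v

variable {Q : Type u} {A : Type v}

/-- Shortening a word to fewer letters than there are states, keeping the end state. -/
theorem exists_short [Fintype Q] (δ : A → Q → Q) (w : List A) (x : Q) :
    ∃ w' : List A, w'.Sublist w ∧ run δ w' x = run δ w x ∧ w'.length + 1 ≤ Fintype.card Q := by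
  classical
  induction h : w.length using Nat.strong_induction_on generalizing w with
  | _ l ih =>
    by_cases hl : w.length + 1 ≤ Fintype.card Q
    · exact ⟨w, List.Sublist.refl w, rfl, hl⟩
    · have hni : ¬ Function.Injective (fun i : Fin (w.length + 1) => run δ (w.take i) x) := by
        intro hinj
        have := Fintype.card_le_of_injective _ hinj
        rw [Fintype.card_fin] at this
        exact hl this
      have hex : ∃ i j : ℕ, i < j ∧ j ≤ w.length ∧ run δ (w.take i) x = run δ (w.take j) x := by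
        rw [Function.Injective] at hni
        push Not at hni
        obtain ⟨i, j, hij, hne⟩ := hni
        rcases lt_or_gt_of_ne hne with hlt | hlt
        · exact ⟨i, j, hlt, by omega, hij⟩
        · exact ⟨j, i, hlt, by omega, hij.symm⟩
      obtain ⟨i, j, hij, hjl, hrun⟩ := hex
      have hlen : (w.take i ++ w.drop j).length < l := by
        rw [List.length_append, List.length_take, List.length_drop]
        omega
      obtain ⟨w', h1, h2, h3⟩ := ih _ hlen (w.take i ++ w.drop j) rfl
      refine ⟨w', h1.trans ?_, ?_, h3⟩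
      · conv_rhs => rw [← List.take_append_drop j w]
        apply List.Sublist.append_right
        exact (List.take_prefix_take_left (by omega)).sublist
      · rw [h2, run_append, hrun, ← run_append, List.take_append_drop]

theorem exists_noninj [Fintype Q] {δ : A → Q → Q} {r : List A} {q : Q}
    (hr : ∀ p, run δ r p = q) (hn : 2 ≤ Fintype.card Q) :
    ∃ (a : A) (p p' : Q), p ≠ p' ∧ δ a p = δ a p' := by
  classical
  by_contra hcon
  push Not at hcon
  have hinj : ∀ w : List A, ∀ p p', p ≠ p' → run δ w p ≠ run δ w p' := by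
    intro w
    induction w with
    | nil => intro p p' h; exact h
    | cons a w ih => intro p p' h; exact ih _ _ (hcon a p p' h)
  obtain ⟨p, p', hpp⟩ := Fintype.one_lt_card_iff.mp (by omega : 1 < Fintype.card Q)
  exact hinj r p p' hpp (by rw [hr, hr])

theorem exists_tri [Fintype Q] {δ : A → Q → Q} {r : List A} {q : Q}
    (hr : ∀ p, run δ r p = q) (hn : 3 ≤ Fintype.card Q) : ∃ w, Tri δ w := by
  classical
  obtain ⟨a, b, c, hab, hac, hbc⟩ := Fintype.two_lt_card_iff.mp (by omega : 2 < Fintype.card Q)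
  exact ⟨r, a, b, c, hab, hac, hbc, by rw [hr, hr], by rw [hr, hr]⟩

theorem exists_doubling [Fintype Q] {δ : A → Q → Q} (hconn : ∀ x y, ∃ w, run δ w x = y)
    {r : List A} {q : Q} (hr : ∀ p, run δ r p = q) (hn : 2 ≤ Fintype.card Q) (x : Q) :
    ∃ v : List A, v.length ≤ Fintype.card Q ∧ ∃ p p', p ≠ p' ∧ run δ v p = x ∧
      run δ v p' = x := by
  obtain ⟨a, p, p', hne, hpp⟩ := exists_noninj hr hn
  obtain ⟨w, hw⟩ := hconn (δ a p) x
  obtain ⟨w', -, h2, h3⟩ := exists_short δ w (δ a p)
  refine ⟨a :: w', by simpa using h3, p, p', hne, ?_, ?_⟩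
  · rw [run_cons, h2, hw]
  · rw [run_cons, ← hpp, h2, hw]

theorem exists_defect [Fintype Q] [DecidableEq Q] (δ : A → Q → Q) (l : ℕ) :
    ∃ v : List A, v.length ≤ l ∧ ∀ v' : List A, v'.length ≤ l → (miss δ v').card ≤ (miss δ v).card := by
  classical
  let P : ℕ → Prop := fun s => ∃ v : List A, v.length ≤ l ∧ (miss δ v).card = s
  have h1 : P (miss δ ([] : List A)).card := ⟨[], by simp, rfl⟩
  have hb : ∀ v, (miss δ v).card ≤ Fintype.card Q := fun v => Finset.card_le_univ _
  obtain ⟨v, hv, hvs⟩ := Nat.findGreatest_spec (P := P) (hb []) h1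
  refine ⟨v, hv, fun v' hv' => ?_⟩
  rw [hvs]
  exact Nat.le_findGreatest (hb v') ⟨v', hv', rfl⟩

/-- The bound. -/
noncomputable def BB (n : ℕ) : ℝ := (√5 - 1) / 8 * (n : ℝ) ^ 2 + (3 + √5) / 4 * n + 1

theorem sqrt5_facts : √5 ^ 2 = 5 ∧ 2 < √5 ∧ √5 < 3 := by
  refine ⟨Real.sq_sqrt (by norm_num), ?_, ?_⟩
  · rw [show (2 : ℝ) = √4 by rw [show (4 : ℝ) = 2 ^ 2 by norm_num]; simp]
    exact Real.sqrt_lt_sqrt (by norm_num) (by norm_num)
  · rw [Real.sqrt_lt' (by norm_num)]
    norm_num

theorem BB_mono {m n : ℕ} (h : m ≤ n) : BB m ≤ BB n := by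
  obtain ⟨-, h1, -⟩ := sqrt5_facts
  have hc : (m : ℝ) ≤ n := by exact_mod_cast h
  have h0 : (0 : ℝ) ≤ m := Nat.cast_nonneg m
  unfold BB
  have h2 : (m : ℝ) ^ 2 ≤ (n : ℝ) ^ 2 := pow_le_pow_left₀ h0 hc 2
  have h3 : (√5 - 1) / 8 * (m : ℝ) ^ 2 ≤ (√5 - 1) / 8 * (n : ℝ) ^ 2 :=
    mul_le_mul_of_nonneg_left h2 (by linarith)
  have h4 : (3 + √5) / 4 * (m : ℝ) ≤ (3 + √5) / 4 * n :=
    mul_le_mul_of_nonneg_left hc (by linarith)
  linarith

theorem le_BB (n : ℕ) : (n : ℝ) ≤ BB n := by
  obtain ⟨-, h1, -⟩ := sqrt5_facts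
  have h0 : (0 : ℝ) ≤ n := Nat.cast_nonneg n
  unfold BB
  have h3 : 0 ≤ (√5 - 1) / 8 * (n : ℝ) ^ 2 := mul_nonneg (by linarith) (by positivity)
  nlinarith

theorem arith_final {n N D : ℕ} (h1 : 2 * N ≤ 2 * n + 2 + n * D)
    (h2 : 4 * N + 4 * D ^ 2 + 4 * D ≤ (n + 2) ^ 2 + 4 * n) : (N : ℝ) ≤ BB n := by
  obtain ⟨hs, hs2, hs3⟩ := sqrt5_facts
  have h1' : (2 : ℝ) * N ≤ 2 * n + 2 + n * D := by exact_mod_cast h1
  have h2' : (4 : ℝ) * N + 4 * D ^ 2 + 4 * D ≤ (n + 2) ^ 2 + 4 * n := by exact_mod_cast h2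
  have hn0 : (0 : ℝ) ≤ n := Nat.cast_nonneg n
  unfold BB
  set s := √5
  rcases le_total (D : ℝ) ((s - 1) / 4 * (n + 2)) with hD | hD
  · have := mul_le_mul_of_nonneg_left hD hn0
    nlinarith
  · have hpos : 0 ≤ (s - 1) / 4 * ((n : ℝ) + 2) := mul_nonneg (by linarith) (by linarith)
    have hsq : ((s - 1) / 4 * ((n : ℝ) + 2)) ^ 2 ≤ (D : ℝ) ^ 2 := pow_le_pow_left₀ hpos hD 2
    have hexp : ((s - 1) / 4 * ((n : ℝ) + 2)) ^ 2 = (6 - 2 * s) / 16 * ((n : ℝ) + 2) ^ 2 := by
      rw [mul_pow]
      congr 1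
      rw [div_pow, show (s - 1) ^ 2 = s ^ 2 - 2 * s + 1 by ring, hs]
      ring
    rw [hexp] at hsq
    nlinarith

/-- The strongly connected case. -/
theorem upper_connected [Fintype Q] {δ : A → Q → Q} (hconn : ∀ x y, ∃ w, run δ w x = y)
    {r : List A} {q : Q} (hr : ∀ p, run δ r p = q) (hn : 3 ≤ Fintype.card Q) :
    ∃ w, Tri δ w ∧ (w.length : ℝ) ≤ BB (Fintype.card Q) := by
  classical
  have htri := exists_tri hr hn
  obtain ⟨N, x, y, ⟨w, hw, hwl⟩, hmin, -⟩ := exists_geodesic htri
  refine ⟨w, hw, ?_⟩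
  rw [hwl]
  obtain ⟨v, hv, hvmax⟩ := exists_defect δ (Fintype.card Q)
  obtain ⟨w', hw', hw'l⟩ := geodesic_count htri (Fintype.card Q) (miss δ v).card (by
    intro x
    obtain ⟨v', h1, h2⟩ := exists_doubling hconn hr (by omega) x
    exact ⟨v', h1, hvmax v' h1, h2⟩)
  have h1 := hmin w' hw'
  by_cases hvN : v.length < N
  · have h2 := level_bound hconn hr hn hmin v hvN
    exact arith_final (D := (miss δ v).card) (by omega) (by omega)
  · have : (N : ℝ) ≤ Fintype.card Q := by
      have : N ≤ Fintype.card Q := by omega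
      exact_mod_cast this
    exact this.trans (le_BB _)

/-- The states reachable from `q`. -/
abbrev Sink (δ : A → Q → Q) (q : Q) : Type u := {x : Q // ∃ w, run δ w q = x}

/-- The automaton restricted to the states reachable from `q`. -/
def sub (δ : A → Q → Q) (q : Q) (a : A) (x : Sink δ q) : Sink δ q :=
  ⟨δ a x.1, by
    obtain ⟨w, hw⟩ := x.2
    exact ⟨w ++ [a], by rw [run_append, hw]; rfl⟩⟩

theorem run_sub (δ : A → Q → Q) (q : Q) (w : List A) (x : Sink δ q) :
    (run (sub δ q) w x).1 = run δ w x.1 := by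
  induction w generalizing x with
  | nil => rfl
  | cons a w ih => rw [run_cons, run_cons, ih]; rfl

theorem Tri.of_sub {δ : A → Q → Q} {q : Q} {w : List A} (h : Tri (sub δ q) w) : Tri δ w := by
  obtain ⟨a, b, d, h1, h2, h3, h4, h5⟩ := h
  refine ⟨a.1, b.1, d.1, fun h => h1 (Subtype.ext h), fun h => h2 (Subtype.ext h),
    fun h => h3 (Subtype.ext h), ?_, ?_⟩
  · rw [← run_sub, ← run_sub, h4]
  · rw [← run_sub, ← run_sub, h5]

theorem conn_sub {δ : A → Q → Q} {q : Q} {r : List A} (hr : ∀ p, run δ r p = q)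
    (x y : Sink δ q) : ∃ w, run (sub δ q) w x = y := by
  obtain ⟨w, hw⟩ := y.2
  refine ⟨r ++ w, Subtype.ext ?_⟩
  rw [run_sub, run_append, hr, hw]

theorem reset_sub {δ : A → Q → Q} {q : Q} {r : List A} (hr : ∀ p, run δ r p = q)
    (p : Sink δ q) : run (sub δ q) r p = ⟨q, [], rfl⟩ := by
  apply Subtype.ext
  rw [run_sub, hr]

theorem sink_cases [Fintype Q] {δ : A → Q → Q} {r : List A} {q : Q}
    (hr : ∀ p, run δ r p = q) (hn : 3 ≤ Fintype.card Q) :
    (∃ w, Tri δ w ∧ w.length ≤ Fintype.card Q) ∨ 3 ≤ Nat.card (Sink δ q) := by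
  classical
  by_cases hc : 3 ≤ Nat.card (Sink δ q)
  · exact Or.inr hc
  left
  rw [Nat.card_eq_fintype_card] at hc
  -- a state outside the sink that enters it by one letter
  have hclosed : ∀ a x, (∃ w, run δ w q = x) → ∃ w, run δ w q = δ a x := by
    rintro a x ⟨w, hw⟩
    exact ⟨w ++ [a], by rw [run_append, hw]; rfl⟩
  have hout : ∃ y0 : Q, ¬ ∃ w, run δ w q = y0 := by
    by_contra hcon
    push Not at hcon
    have : Fintype.card (Sink δ q) = Fintype.card Q :=
      Fintype.card_congr (Equiv.subtypeUnivEquiv hcon)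
    omega
  have henter : ∀ (w : List A) (y : Q), (¬ ∃ u, run δ u q = y) → (∃ u, run δ u q = run δ w y) →
      ∃ (b : A) (y' : Q), (¬ ∃ u, run δ u q = y') ∧ ∃ u, run δ u q = δ b y' := by
    intro w
    induction w with
    | nil => intro y h1 h2; exact absurd h2 h1
    | cons a w ih =>
      intro y h1 h2
      by_cases h : ∃ u, run δ u q = δ a y
      · exact ⟨a, y, h1, h⟩
      · exact ih (δ a y) h h2
  obtain ⟨y0, hy0⟩ := hout
  obtain ⟨b, y, hy, hby⟩ := henter r y0 hy0 ⟨[], (hr y0).symm⟩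
  have hq : ∃ u, run δ u q = q := ⟨[], rfl⟩
  have hyq : y ≠ q := fun h => hy (h ▸ hq)
  by_cases hone : ∀ x, (∃ w, run δ w q = x) → x = q
  · -- one state in the sink
    have hex : ∃ t : Q, t ≠ q ∧ t ≠ y := by
      by_contra hcon
      push Not at hcon
      have : (univ : Finset Q) ⊆ {q, y} := by
        intro t _
        by_cases ht : t = q
        · simp [ht]
        · simp [hcon t ht]
      have h1 := Finset.card_le_card this
      have h2 := Finset.card_le_two (a := q) (b := y)
      rw [Finset.card_univ] at h1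
      omega
    obtain ⟨t, htq, hty⟩ := hex
    obtain ⟨w', -, h2, h3⟩ := exists_short δ r (δ b t)
    rw [hr] at h2
    have hfix : ∀ w : List A, run δ w q = q := fun w => hone _ ⟨w, rfl⟩
    refine ⟨b :: w', ⟨q, y, t, hyq.symm, htq.symm, hty.symm, ?_, ?_⟩, by simpa using h3⟩
    · rw [hfix, run_cons, hone _ hby, hfix]
    · rw [hfix, run_cons, h2]
  · -- two states in the sink
    push Not at hone
    obtain ⟨q', hq', hqq⟩ := hone
    have htwo : ∀ x, (∃ w, run δ w q = x) → x = q ∨ x = q' := by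
      intro x hx
      by_contra hcon
      push Not at hcon
      apply hc
      have : ({⟨q, hq⟩, ⟨q', hq'⟩, ⟨x, hx⟩} : Finset (Sink δ q)).card = 3 := by
        rw [Finset.card_eq_three]
        refine ⟨_, _, _, ?_, ?_, ?_, rfl⟩
        · intro h
          exact hqq (congrArg Subtype.val h).symm
        · intro h
          exact hcon.1 (congrArg Subtype.val h).symm
        · intro h
          exact hcon.2 (congrArg Subtype.val h).symm
      rw [← this]
      exact Finset.card_le_univ _
    have hmerge : ∃ a : A, δ a q = δ a q' := by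
      by_contra hcon
      push Not at hcon
      have : ∀ w : List A, ∀ x x', (∃ u, run δ u q = x) → (∃ u, run δ u q = x') → x ≠ x' →
          run δ w x ≠ run δ w x' := by
        intro w
        induction w with
        | nil => intro x x' _ _ h; exact h
        | cons a w ih =>
          intro x x' hx hx' hne
          apply ih _ _ (hclosed a x hx) (hclosed a x' hx')
          rcases htwo x hx with h1 | h1 <;> rcases htwo x' hx' with h2 | h2
          · exact absurd (h1.trans h2.symm) hne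
          · rw [h1, h2]; exact hcon a
          · rw [h1, h2]; exact (hcon a).symm
          · exact absurd (h1.trans h2.symm) hne
      exact this r q q' hq hq' hqq.symm (by rw [hr, hr])
    obtain ⟨a, ha⟩ := hmerge
    have hall : ∀ x, (∃ u, run δ u q = x) → δ a x = δ a q := by
      intro x hx
      rcases htwo x hx with h | h
      · rw [h]
      · rw [h, ha]
    refine ⟨[b, a], ⟨q, q', y, hqq.symm, hyq.symm, ?_, ?_, ?_⟩, by simp; omega⟩
    · rintro rfl
      exact hy hq'
    · simp only [run_cons, run_nil]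
      rw [hall _ (hclosed b q hq), hall _ (hclosed b q' hq')]
    · simp only [run_cons, run_nil]
      rw [hall _ (hclosed b q hq), hall _ hby]

/-- The upper bound for all synchronizing automata. -/
theorem upper_all [Fintype Q] {δ : A → Q → Q} {r : List A} {q : Q}
    (hr : ∀ p, run δ r p = q) (hn : 3 ≤ Fintype.card Q) :
    ∃ w, Tri δ w ∧ (w.length : ℝ) ≤ BB (Fintype.card Q) := by
  classical
  rcases sink_cases hr hn with ⟨w, hw, hwl⟩ | hc
  · refine ⟨w, hw, ?_⟩
    have : (w.length : ℝ) ≤ Fintype.card Q := by exact_mod_cast hwl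
    exact this.trans (le_BB _)
  · rw [Nat.card_eq_fintype_card] at hc
    obtain ⟨w, hw, hwl⟩ := upper_connected (conn_sub hr) (reset_sub hr) hc
    exact ⟨w, hw.of_sub, hwl.trans (BB_mono (Fintype.card_subtype_le _))⟩

end Pool.Agent.Lib_helper91.Rdv
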