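import Pool.Agent.Lib_helper91.RdvHall
set_option autoImplicit false

/-!
Dimension of the span of the weights of maximal total.
-/

namespace Pool.Agent.Lib_helper91.Rdv

open Finset

universe u

variable {Q : Type u} [Fintype Q] [DecidableEq Q]

/-- Span of the weights of total `m`. -/
def spanE (E : Q → Q → Prop) (m : ℕ) : Submodule ℚ (Q → ℚ) :=
  Submodule.span ℚ {f | ∃ g : Q → ℕ, (∀ x, g x ≤ 2) ∧ (∀ x y, E x y → g x + g y ≤ 2) ∧
    ∑ x, g x = m ∧ f = fun x => (g x : ℚ)}

theorem finrank_spanE_le {E : Q → Q → Prop} (hsymm : ∀ x y, E x y → E y x)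
    (hirr : ∀ x y, E x y → x ≠ y) {g0 : Q → ℕ}
    (hle : ∀ x, g0 x ≤ 2) (hpair : ∀ x y, E x y → g0 x + g0 y ≤ 2)
    (hmax : ∀ g : Q → ℕ, (∀ x, g x ≤ 2) → (∀ x y, E x y → g x + g y ≤ 2) →
      ∑ x, g x ≤ ∑ x, g0 x) {m : ℕ} (hm : ∑ x, g0 x = m) (hpos : 0 < m) :
    2 * Module.finrank ℚ (spanE E m) + m ≤ 2 * Fintype.card Q + 2 := by
  classical
  obtain ⟨I, _, s, t, hs, ht, hst, hcard⟩ := exists_arcs hsymm hle hpair hmax
  rw [hm] at hcard
  have hP : ∀ f ∈ spanE E m, ∃ c : ℚ, ∑ x, f x = c * m ∧ (∀ i, f (s i) + f (t i) = 2 * c) ∧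
      ∀ x, (∀ i, s i ≠ x) → f x = 2 * c := by
    intro f hf
    unfold spanE at hf
    induction hf using Submodule.span_induction with
    | mem f hf =>
      obtain ⟨g, h1, h2, h3, rfl⟩ := hf
      obtain ⟨h4, h5⟩ := arcs_tight h1 h2 hs ht hst (by rw [h3]; exact hcard)
      refine ⟨1, ?_, ?_, ?_⟩
      · rw [one_mul, ← h3]
        push_cast
        rfl
      · intro i
        have := h4 i
        have h6 : ((g (s i) + g (t i) : ℕ) : ℚ) = 2 := by rw [this]; norm_num
        push_cast at h6
        linarith
      · intro x hx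
        have := h5 x hx
        simp [this]
    | zero => exact ⟨0, by simp, by simp, by simp⟩
    | add f g _ _ hf hg =>
      obtain ⟨c, h1, h2, h3⟩ := hf
      obtain ⟨d, h4, h5, h6⟩ := hg
      refine ⟨c + d, ?_, ?_, ?_⟩
      · simp only [Pi.add_apply, Finset.sum_add_distrib, h1, h4]
        ring
      · intro i
        simp only [Pi.add_apply]
        linarith [h2 i, h5 i]
      · intro x hx
        simp only [Pi.add_apply]
        linarith [h3 x hx, h6 x hx]
    | smul r f _ hf =>
      obtain ⟨c, h1, h2, h3⟩ := hf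
      refine ⟨r * c, ?_, ?_, ?_⟩
      · simp only [Pi.smul_apply, smul_eq_mul, ← Finset.mul_sum, h1]
        ring
      · intro i
        simp only [Pi.smul_apply, smul_eq_mul]
        rw [← mul_add, h2 i]
        ring
      · intro x hx
        simp only [Pi.smul_apply, smul_eq_mul]
        rw [h3 x hx]
        ring
  -- bound through a set of arcs that determines everything
  have key : ∀ J : Finset I,
      (∀ f ∈ spanE E m, ∑ x, f x = 0 → (∀ j ∈ J, f (s j) = 0) → f = 0) →
      Module.finrank ℚ (spanE E m) ≤ J.card + 1 := by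
    intro J hJ
    let φ : (Q → ℚ) →ₗ[ℚ] (J → ℚ) × ℚ :=
      { toFun := fun f => (fun j => f (s j), ∑ x, f x)
        map_add' := by
          intro f g
          simp only [Pi.add_apply, Finset.sum_add_distrib]
          rfl
        map_smul' := by
          intro r f
          simp only [Pi.smul_apply, smul_eq_mul, ← Finset.mul_sum]
          rfl }
    have hinj : Function.Injective (φ.comp (spanE E m).subtype) := by
      rw [← LinearMap.ker_eq_bot, LinearMap.ker_eq_bot']
      rintro ⟨f, hf⟩ h
      have h' : (fun j : J => f (s j), ∑ x, f x) = ((0 : J → ℚ), (0 : ℚ)) := h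
      rw [Prod.mk.injEq] at h'
      have := hJ f hf h'.2 (fun j hj => congrFun h'.1 ⟨j, hj⟩)
      exact Subtype.ext this
    have := LinearMap.finrank_le_finrank_of_injective hinj
    rw [Module.finrank_prod, Module.finrank_fintype_fun_eq_card, Module.finrank_self,
      Fintype.card_coe] at this
    exact this
  let r : Q → ℕ := fun x => (Fintype.equivFin Q x : ℕ)
  have hr : Function.Injective r := by
    intro a b h
    exact (Fintype.equivFin Q).injective (Fin.ext h)
  have hzero : ∀ f ∈ spanE E m, ∑ x, f x = 0 → (∀ i, f (s i) + f (t i) = 0) ∧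
      ∀ x, f x ≠ 0 → ∃ i, s i = x := by
    intro f hf h0
    obtain ⟨c, h1, h2, h3⟩ := hP f hf
    have hc : c = 0 := by
      rw [h0] at h1
      have : (m : ℚ) ≠ 0 := by
        have := hpos.ne'
        exact_mod_cast this
      rcases mul_eq_zero.mp h1.symm with h | h
      · exact h
      · exact absurd h this
    subst hc
    refine ⟨fun i => by rw [h2 i]; ring, fun x hx => ?_⟩
    by_contra hcon
    push Not at hcon
    exact hx (by rw [h3 x hcon]; ring)
  have hA := key (univ.filter fun i => r (t i) < r (s i)) (by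
    intro f hf h0 hJ
    obtain ⟨h1, h2⟩ := hzero f hf h0
    by_contra hne
    have hex : (univ.filter fun x => f x ≠ 0).Nonempty := by
      by_contra hempty
      rw [Finset.not_nonempty_iff_eq_empty, Finset.filter_eq_empty_iff] at hempty
      apply hne
      funext x
      simpa using hempty (mem_univ x)
    obtain ⟨u, hu, hmaxu⟩ := Finset.exists_max_image _ r hex
    simp only [mem_filter, mem_univ, true_and] at hu hmaxu
    obtain ⟨i, rfl⟩ := h2 u hu
    have hlt : ¬ r (t i) < r (s i) := fun hlt => hu (hJ i (by simpa using hlt))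
    have hti : f (t i) ≠ 0 := by
      intro h
      have := h1 i
      rw [h, add_zero] at this
      exact hu this
    have := hmaxu _ hti
    exact hirr _ _ (hst i) (hr (by omega)))
  have hB := key (univ.filter fun i => ¬ r (t i) < r (s i)) (by
    intro f hf h0 hJ
    obtain ⟨h1, h2⟩ := hzero f hf h0
    by_contra hne
    have hex : (univ.filter fun x => f x ≠ 0).Nonempty := by
      by_contra hempty
      rw [Finset.not_nonempty_iff_eq_empty, Finset.filter_eq_empty_iff] at hempty
      apply hne
      funext x
      simpa using hempty (mem_univ x)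
    obtain ⟨u, hu, hminu⟩ := Finset.exists_min_image _ r hex
    simp only [mem_filter, mem_univ, true_and] at hu hminu
    obtain ⟨i, rfl⟩ := h2 u hu
    have hlt : r (t i) < r (s i) := by
      by_contra hlt
      exact hu (hJ i (by simpa using hlt))
    have hti : f (t i) ≠ 0 := by
      intro h
      have := h1 i
      rw [h, add_zero] at this
      exact hu this
    have := hminu _ hti
    omega)
  have hAB := Finset.card_filter_add_card_filter_not (s := (univ : Finset I))
    (fun i => r (t i) < r (s i))
  rw [Finset.card_univ] at hAB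
  omega

end Pool.Agent.Lib_helper91.Rdv
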