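import Pool.Agent.Lib_helper91.RdvFam
set_option autoImplicit false
namespace Pool.Agent.Lib_helper91.Rdv

/-- The two letters acting on natural numbers. -/
def stp (c k : ℕ) (x : Fin 2) (s : ℕ) : ℕ := if x = 0 then piN c s else aN c k s

theorem M_pi {c k u v : ℕ} (h : Merge (stp c k) (piN c u) (piN c v)) : Merge (stp c k) u v :=
  Merge.of_letter (δ := stp c k) 0 h

theorem M_a {c k u v : ℕ} (h : Merge (stp c k) (aN c k u) (aN c k v)) : Merge (stp c k) u v :=
  Merge.of_letter (δ := stp c k) 1 h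

theorem rotX {c k : ℕ} (hc : 2 ≤ c) (t : ℕ) (ht : t < 2 * c) (C : ℕ → ℕ → Prop)
    (hC : ∀ u v, C u v → u < 2 * c ∧ C (piN c u) (piN c v))
    (hb : ∀ v, C t v → Merge (stp c k) t v) : ∀ u v, C u v → Merge (stp c k) u v := by
  have key : ∀ d u v, C u v → (u + d = t ∨ u + d = t + 2 * c) → d < 2 * c →
      Merge (stp c k) u v := by
    intro d
    induction d with
    | zero =>
      intro u v huv h _
      have h1 := (hC u v huv).1
      have h2 : u = t := by omega
      subst h2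
      exact hb v huv
    | succ d ih =>
      intro u v huv h hd
      obtain ⟨h1, h2⟩ := hC u v huv
      refine M_pi (ih _ _ h2 ?_ (by omega))
      rcases pi_spec (s := u) hc with g | g | g | g | g <;> omega
  intro u v huv
  have h1 := (hC u v huv).1
  by_cases h : u ≤ t
  · exact key (t - u) u v huv (by omega) (by omega)
  · exact key (t + 2 * c - u) u v huv (by omega) (by omega)

theorem rotY {c k : ℕ} (hc : 2 ≤ c) (t : ℕ) (ht : 2 * c ≤ t) (ht' : t < 3 * c)
    (C : ℕ → ℕ → Prop)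
    (hC : ∀ u v, C u v → 2 * c ≤ u ∧ u < 3 * c ∧ C (piN c u) (piN c v))
    (hb : ∀ v, C t v → Merge (stp c k) t v) : ∀ u v, C u v → Merge (stp c k) u v := by
  have key : ∀ d u v, C u v → (u + d = t ∨ u + d = t + c) → d < c →
      Merge (stp c k) u v := by
    intro d
    induction d with
    | zero =>
      intro u v huv h _
      have h1 := hC u v huv
      have h2 : u = t := by omega
      subst h2
      exact hb v huv
    | succ d ih =>
      intro u v huv h hd
      obtain ⟨h1, h1', h2⟩ := hC u v huv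
      refine M_pi (ih _ _ h2 ?_ (by omega))
      rcases pi_spec (s := u) hc with g | g | g | g | g <;> omega
  intro u v huv
  have h1 := hC u v huv
  by_cases h : u ≤ t
  · exact key (t - u) u v huv (by omega) (by omega)
  · exact key (t + c - u) u v huv (by omega) (by omega)

/-- Matched pairs merge. -/
theorem M_matched {c k : ℕ} (hc : 2 ≤ c) : ∀ u v, (u < 2 * c ∧ 2 * c ≤ v ∧ v < 3 * c ∧
    (v = 2 * c + u ∨ v + c = 2 * c + u)) → Merge (stp c k) u v := by
  refine rotX hc c (by omega) _ ?_ ?_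
  · rintro u v ⟨h1, h2, h3, h4⟩
    refine ⟨h1, ?_⟩
    rcases pi_spec (s := u) hc with g | g | g | g | g <;>
    rcases pi_spec (s := v) hc with g' | g' | g' | g' | g' <;> omega
  · rintro v ⟨h1, h2, h3, h4⟩
    have hv : v = 2 * c := by omega
    subst hv
    refine M_a ?_
    rw [aN_q hc (Or.inl rfl), aN_q hc (Or.inr rfl)]
    exact Merge.refl _ _

/-- Adjacent pairs on the long cycle merge. -/
theorem M_adj {c k : ℕ} (hc : 2 ≤ c) : ∀ u v, (u < 2 * c ∧ v < 2 * c ∧
    (v = u + 1 ∨ (u + 1 = 2 * c ∧ v = 0))) → Merge (stp c k) u v := by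
  refine rotX hc 0 (by omega) _ ?_ ?_
  · rintro u v ⟨h1, h2, h3⟩
    refine ⟨h1, ?_⟩
    rcases pi_spec (s := u) hc with g | g | g | g | g <;>
    rcases pi_spec (s := v) hc with g' | g' | g' | g' | g' <;> omega
  · rintro v ⟨h1, h2, h3⟩
    have hv : v = 1 := by omega
    subst hv
    refine M_a ?_
    rw [aN_0, aN_1]
    exact M_matched hc _ _ ⟨by omega, by omega, by omega, by omega⟩

theorem M_adj' {c k u v : ℕ} (hc : 2 ≤ c) (hu : u < 2 * c) (hv : v < 2 * c)
    (h : v = u + 1 ∨ u = v + 1 ∨ (u + 1 = 2 * c ∧ v = 0) ∨ (v + 1 = 2 * c ∧ u = 0)) :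
    Merge (stp c k) u v := by
  by_cases h' : v = u + 1 ∨ (u + 1 = 2 * c ∧ v = 0)
  · exact M_adj hc u v ⟨hu, hv, h'⟩
  · exact (M_adj hc v u ⟨hv, hu, by omega⟩).symm

/-- The last `z`-state merges with all `x` and `y` states. -/
theorem M_zlast {c k : ℕ} (hc : 2 ≤ c) (hk : 0 < k) : ∀ v, v < 3 * c →
    Merge (stp c k) (3 * c + k - 1) v := by
  have hz : aN c k (3 * c + k - 1) = 2 := by
    rw [aN_z hc (by omega), if_pos (by omega)]
  have hp : piN c (3 * c + k - 1) = 3 * c + k - 1 := pi_z hc (by omega)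
  intro v hv
  by_cases hx : v < 2 * c
  · -- rotate `v` to `x_2` or `x_0`
    have : ∃ t, t < 2 * c ∧ Merge (stp c k) t (3 * c + k - 1) := by
      by_cases hc3 : 3 ≤ c
      · refine ⟨2, by omega, M_a ?_⟩
        rw [hz]
        have g := (aN_X (k := k) (v := 2) hc le_rfl (by omega) (by omega))
        refine M_adj' hc ?_ ?_ ?_ <;> omega
      · refine ⟨0, by omega, M_a ?_⟩
        rw [hz, aN_0]
        refine M_adj' hc ?_ ?_ ?_ <;> omega
    obtain ⟨t, ht, hM⟩ := this
    refine (rotX hc t ht (fun u w => u < 2 * c ∧ w = 3 * c + k - 1) ?_ ?_ v _ ⟨hx, rfl⟩).symm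
    · rintro u w ⟨h1, rfl⟩
      exact ⟨h1, pi_x hc h1, hp⟩
    · rintro w ⟨h1, rfl⟩
      exact hM
  · refine (rotY hc (2 * c + 1) (by omega) (by omega)
      (fun u w => 2 * c ≤ u ∧ u < 3 * c ∧ w = 3 * c + k - 1) ?_ ?_ v _ ⟨by omega, hv, rfl⟩).symm
    · rintro u w ⟨h1, h2, rfl⟩
      exact ⟨h1, h2, (pi_y hc h1 h2).1, (pi_y hc h1 h2).2, hp⟩
    · rintro w ⟨h1, h2, rfl⟩
      refine M_a ?_
      rw [hz, aN_y1 hc]
      refine M_adj' hc ?_ ?_ ?_ <;> omega

/-- All pairs that contain a `z`-state merge (`k ≤ 2`). -/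
theorem M_z {c k : ℕ} (hc : 2 ≤ c) (hk2 : k ≤ 2) {u v : ℕ} (hu : 3 * c ≤ u)
    (hu' : u < 3 * c + k) (hv : v < 3 * c + k) : Merge (stp c k) u v := by
  have key : ∀ v, v < 3 * c → Merge (stp c k) u v := by
    intro v hv
    by_cases h : u = 3 * c + k - 1
    · subst h
      exact M_zlast hc (by omega) v hv
    · have hu0 : u = 3 * c := by omega
      have hk : k = 2 := by omega
      subst hu0
      subst hk
      have ha : aN c 2 (3 * c) = 3 * c + 2 - 1 := by
        rw [aN_z hc le_rfl, if_neg (by omega)]; omega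
      have hp : piN c (3 * c) = 3 * c := pi_z hc le_rfl
      by_cases hx : v < 2 * c
      · refine (rotX hc 0 (by omega) (fun u w => u < 2 * c ∧ w = 3 * c) ?_ ?_ v _ ⟨hx, rfl⟩).symm
        · rintro u w ⟨h1, rfl⟩
          exact ⟨h1, pi_x hc h1, hp⟩
        · rintro w ⟨h1, rfl⟩
          refine M_a ?_
          rw [ha, aN_0]
          exact (M_zlast hc (by omega) _ (by omega)).symm
      · refine (rotY hc (2 * c + 1) (by omega) (by omega)
          (fun u w => 2 * c ≤ u ∧ u < 3 * c ∧ w = 3 * c) ?_ ?_ v _ ⟨by omega, by omega, rfl⟩).symm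
        · rintro u w ⟨h1, h2, rfl⟩
          exact ⟨h1, h2, (pi_y hc h1 h2).1, (pi_y hc h1 h2).2, hp⟩
        · rintro w ⟨h1, h2, rfl⟩
          refine M_a ?_
          rw [ha, aN_y1 hc]
          exact (M_zlast hc (by omega) _ (by omega)).symm
  by_cases hvz : v < 3 * c
  · exact key v hvz
  · by_cases huv : u = v
    · subst huv; exact Merge.refl _ _
    · have hk : k = 2 := by omega
      subst hk
      have ha : aN c 2 (3 * c) = 3 * c + 2 - 1 := by
        rw [aN_z hc le_rfl, if_neg (by omega)]; omega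
      have hb : aN c 2 (3 * c + 1) = 2 := by
        rw [aN_z hc (by omega), if_pos (by omega)]
      by_cases h1 : u = 3 * c
      · have h2 : v = 3 * c + 1 := by omega
        subst h1; subst h2
        refine M_a ?_
        rw [ha, hb]
        exact M_zlast hc (by omega) _ (by omega)
      · have h2 : v = 3 * c := by omega
        have h1 : u = 3 * c + 1 := by omega
        subst h1; subst h2
        refine M_a ?_
        rw [ha, hb]
        exact (M_zlast hc (by omega) _ (by omega)).symm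

/-- Pairs `(x, y)` merge, by induction on the offset `j`. -/
theorem M_xy_aux {c k : ℕ} (hc : 2 ≤ c) (hk2 : k ≤ 2) (j : ℕ) : j < c → ∀ u v,
    (u < 2 * c ∧ 2 * c ≤ v ∧ v < 3 * c ∧
      (v = 2 * c + u + j ∨ v + c = 2 * c + u + j ∨ v + 2 * c = 2 * c + u + j)) →
    Merge (stp c k) u v := by
  induction j with
  | zero =>
    intro _ u v h
    exact M_matched hc u v ⟨h.1, h.2.1, h.2.2.1, by omega⟩
  | succ j ih =>
    intro hj
    refine rotX hc c (by omega) _ ?_ ?_
    · rintro u v ⟨h1, h2, h3, h4⟩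
      refine ⟨h1, ?_⟩
      rcases pi_spec (s := u) hc with g | g | g | g | g <;>
      rcases pi_spec (s := v) hc with g' | g' | g' | g' | g' <;> omega
    · rintro v ⟨h1, h2, h3, h4⟩
      have hv : v = 2 * c + (j + 1) := by omega
      refine M_a ?_
      rw [aN_q hc (Or.inl rfl)]
      by_cases hk : k = 0
      · rw [if_pos hk]
        by_cases hj0 : j = 0
        · rw [hv, hj0, show 2 * c + (0 + 1) = 2 * c + 1 from rfl, aN_y1 hc]
          refine M_adj' hc ?_ ?_ ?_ <;> omega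
        · obtain ⟨g, g'⟩ := aN_Y (k := k) (v := v) hc (by omega) h3
          rw [g]
          refine ih (by omega) _ _ ⟨by omega, ?_⟩
          rcases g' with g' | g' <;> omega
      · rw [if_neg hk]
        exact M_z hc hk2 le_rfl (by omega) (aN_lt hc (by omega))

theorem M_xy {c k : ℕ} (hc : 2 ≤ c) (hk2 : k ≤ 2) {u v : ℕ} (hu : u < 2 * c)
    (hv : 2 * c ≤ v) (hv' : v < 3 * c) : Merge (stp c k) u v := by
  obtain ⟨j, hj⟩ : ∃ j, j < c ∧ (v = 2 * c + u + j ∨ v + c = 2 * c + u + j ∨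
      v + 2 * c = 2 * c + u + j) := by
    by_cases h1 : 2 * c + u ≤ v
    · exact ⟨v - (2 * c + u), by omega, by omega⟩
    · by_cases h2 : 2 * c + u ≤ v + c
      · exact ⟨v + c - (2 * c + u), by omega, by omega⟩
      · exact ⟨v + 2 * c - (2 * c + u), by omega, by omega⟩
  exact M_xy_aux hc hk2 j hj.1 u v ⟨hu, hv, hv', hj.2⟩

/-- Pairs of `y`-states merge. -/
theorem M_yy {c k : ℕ} (hc : 2 ≤ c) (hk2 : k ≤ 2) : ∀ u v, (2 * c ≤ u ∧ u < 3 * c ∧
    2 * c ≤ v ∧ v < 3 * c) → Merge (stp c k) u v := by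
  refine rotY hc (2 * c + 1) (by omega) (by omega) _ ?_ ?_
  · rintro u v ⟨h1, h2, h3, h4⟩
    exact ⟨h1, h2, (pi_y hc h1 h2).1, (pi_y hc h1 h2).2, (pi_y hc h3 h4).1, (pi_y hc h3 h4).2⟩
  · rintro v ⟨h1, h2, h3, h4⟩
    by_cases e1 : v = 2 * c + 1
    · subst e1; exact Merge.refl _ _
    · refine M_a ?_
      rw [aN_y1 hc]
      by_cases e2 : v = 2 * c
      · rw [aN_q hc (Or.inr e2)]
        by_cases hk : k = 0
        · rw [if_pos hk]
          refine M_adj' hc ?_ ?_ ?_ <;> omega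
        · rw [if_neg hk]
          exact (M_z hc hk2 le_rfl (by omega) (by omega)).symm
      · obtain ⟨g, g'⟩ := aN_Y (k := k) (v := v) hc (by omega) h4
        rw [g]
        exact M_xy hc hk2 (by omega) (pi_y hc h3 h4).1 (pi_y hc h3 h4).2

/-- Pairs of `x`-states merge. -/
theorem M_xx {c k : ℕ} (hc : 2 ≤ c) (hk2 : k ≤ 2) : ∀ u v, (u < 2 * c ∧ v < 2 * c) →
    Merge (stp c k) u v := by
  refine rotX hc 1 (by omega) _ ?_ ?_
  · rintro u v ⟨h1, h2⟩
    exact ⟨h1, pi_x hc h1, pi_x hc h2⟩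
  · rintro v ⟨h1, h2⟩
    by_cases e1 : v = 1
    · subst e1; exact Merge.refl _ _
    by_cases e0 : v = 0 ∨ v = 2
    · refine M_adj' hc ?_ ?_ ?_ <;> omega
    refine M_a ?_
    rw [aN_1]
    by_cases e2 : v = c
    · rw [aN_q hc (Or.inl e2)]
      by_cases hk : k = 0
      · rw [if_pos hk]
        exact (M_xy hc hk2 (by omega) (by omega) (by omega)).symm
      · rw [if_neg hk]
        exact (M_z hc hk2 le_rfl (by omega) (by omega)).symm
    · obtain ⟨g, g'⟩ := aN_X (k := k) (v := v) hc (by omega) e2 h2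
      rw [g]
      exact (M_xy hc hk2 (pi_x hc h2) (by omega) (by omega)).symm

/-- Every two states merge. -/
theorem M_all {c k : ℕ} (hc : 2 ≤ c) (hk2 : k ≤ 2) {u v : ℕ} (hu : u < 3 * c + k)
    (hv : v < 3 * c + k) : Merge (stp c k) u v := by
  by_cases h1 : 3 * c ≤ u
  · exact M_z hc hk2 h1 hu hv
  by_cases h2 : 3 * c ≤ v
  · exact (M_z hc hk2 h2 hv hu).symm
  by_cases h3 : u < 2 * c
  · by_cases h4 : v < 2 * c
    · exact M_xx hc hk2 u v ⟨h3, h4⟩
    · exact M_xy hc hk2 h3 (by omega) (by omega)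
  · by_cases h4 : v < 2 * c
    · exact (M_xy hc hk2 h4 (by omega) (by omega)).symm
    · exact M_yy hc hk2 u v ⟨by omega, by omega, by omega, by omega⟩

end Pool.Agent.Lib_helper91.Rdv
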