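import Pool.Agent.Lib_helper91.RdvLevel
import Pool.Agent.Lib_helper91.RdvSpan
set_option autoImplicit false

/-!
The number of levels: with `N` the least length of a word merging three states, a word of length
`l` that misses `d` states gives `4 N + 4 d ^ 2 + 4 d ≤ (n + 2) ^ 2 + 4 l`.
-/

namespace Pool.Agent.Lib_helper91.Rdv

open Finset

universe u v

variable {Q : Type u} {A : Type v} [Fintype Q] [DecidableEq Q]

/-- Push a function forward along a word. -/
def pushQ (δ : A → Q → Q) (w : List A) : (Q → ℚ) →ₗ[ℚ] (Q → ℚ) where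
  toFun f y := ∑ x, if run δ w x = y then f x else 0
  map_add' := by
    intro f g
    funext y
    simp only [Pi.add_apply]
    rw [← Finset.sum_add_distrib]
    apply Finset.sum_congr rfl
    intro x _
    split_ifs <;> simp
  map_smul' := by
    intro r f
    funext y
    simp only [Pi.smul_apply, smul_eq_mul, RingHom.id_apply, Finset.mul_sum]
    apply Finset.sum_congr rfl
    intro x _
    split_ifs <;> simp

theorem pushQ_apply (δ : A → Q → Q) (w : List A) (f : Q → ℚ) (y : Q) :
    pushQ δ w f y = ∑ x, if run δ w x = y then f x else 0 := rfl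

theorem pushQ_nil (δ : A → Q → Q) (f : Q → ℚ) : pushQ δ [] f = f := by
  funext y
  rw [pushQ_apply, Finset.sum_eq_single y]
  · rw [if_pos (run_nil δ y)]
  · intro b _ hb
    rw [if_neg]
    rw [run_nil]
    exact hb
  · intro h
    exact absurd (mem_univ y) h

theorem pushQ_cons (δ : A → Q → Q) (a : A) (w : List A) (f : Q → ℚ) :
    pushQ δ (a :: w) f = pushQ δ w (pushQ δ [a] f) := by
  funext y
  rw [pushQ_apply, pushQ_apply]
  have : ∀ z : Q, (if run δ w z = y then pushQ δ [a] f z else 0) =
      ∑ x, if run δ [a] x = z then (if run δ w z = y then f x else 0) else 0 := by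
    intro z
    by_cases h : run δ w z = y
    · simp only [if_pos h]
      rfl
    · rw [if_neg h]
      symm
      apply Finset.sum_eq_zero
      intro x _
      rw [if_neg h]
      split_ifs <;> rfl
  rw [Finset.sum_congr rfl fun z _ => this z, Finset.sum_comm]
  apply Finset.sum_congr rfl
  intro x _
  rw [Finset.sum_eq_single (run δ [a] x)]
  · rw [if_pos rfl]
    rfl
  · intro b _ hb
    rw [if_neg (Ne.symm hb)]
  · intro h
    exact absurd (mem_univ _) h

theorem pushQ_cast (δ : A → Q → Q) (w : List A) (g : Q → ℕ) :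
    pushQ δ w (fun x => (g x : ℚ)) = fun y => (pushN δ w g y : ℚ) := by
  funext y
  rw [pushQ_apply, pushN, Finset.sum_filter]
  push_cast
  rfl

theorem pushQ_single (δ : A → Q → Q) (w : List A) (q : Q) (c : ℚ) :
    pushQ δ w (Pi.single q c) = Pi.single (run δ w q) c := by
  funext y
  rw [pushQ_apply]
  by_cases h : run δ w q = y
  · subst h
    rw [Pi.single_eq_same, Finset.sum_eq_single q]
    · simp
    · intro b _ hb
      rw [Pi.single_eq_of_ne hb]
      simp
    · simp
  · rw [Pi.single_eq_of_ne (Ne.symm h), Finset.sum_eq_zero]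
    intro x _
    by_cases hx : x = q
    · subst hx
      simp [h]
    · rw [Pi.single_eq_of_ne hx]
      simp

theorem pushQ_reset (δ : A → Q → Q) {w : List A} {q : Q} (hw : ∀ p, run δ w p = q) (f : Q → ℚ) :
    pushQ δ w f = Pi.single q (∑ x, f x) := by
  funext y
  rw [pushQ_apply]
  by_cases h : q = y
  · subst h
    simp [hw]
  · rw [Pi.single_eq_of_ne (Ne.symm h)]
    simp [hw, h]

/-- An invariant subspace with an element of nonzero total is everything. -/
theorem eq_top_of_invariant {δ : A → Q → Q} (hconn : ∀ x y, ∃ w, run δ w x = y)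
    {w : List A} {q : Q} (hw : ∀ p, run δ w p = q) (V : Submodule ℚ (Q → ℚ))
    (hV : ∀ a, ∀ f ∈ V, pushQ δ [a] f ∈ V) {f : Q → ℚ} (hf : f ∈ V) (h0 : ∑ x, f x ≠ 0) :
    V = ⊤ := by
  have hall : ∀ (w : List A) (f : Q → ℚ), f ∈ V → pushQ δ w f ∈ V := by
    intro w
    induction w with
    | nil => intro f hf; rwa [pushQ_nil]
    | cons a w ih => intro f hf; rw [pushQ_cons]; exact ih _ (hV a f hf)
  have h1 : ∀ x, Pi.single x (∑ x, f x) ∈ V := by
    intro x
    obtain ⟨w', hw'⟩ := hconn q x
    have := hall w' _ (hall w f hf)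
    rwa [pushQ_reset δ hw, pushQ_single, hw'] at this
  rw [eq_top_iff]
  intro g _
  have : g = ∑ x, (g x / ∑ x, f x) • (Pi.single x (∑ x, f x) : Q → ℚ) := by
    funext y
    rw [Finset.sum_apply, Finset.sum_eq_single y]
    · rw [Pi.smul_apply, Pi.single_eq_same, smul_eq_mul]
      field_simp
    · intro b _ hb
      rw [Pi.smul_apply, Pi.single_eq_of_ne (Ne.symm hb)]
      simp
    · simp
  rw [this]
  exact Submodule.sum_mem _ fun x _ => Submodule.smul_mem _ _ (h1 x)

/-- `0, 1, 2, 4, 6, 9, …` -/
def TT : ℕ → ℕ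
  | 0 => 0
  | a + 1 => TT a + a / 2 + 1

theorem TT_mono : Monotone TT := by
  apply monotone_nat_of_le_succ
  intro a
  rw [TT]
  omega

theorem TT_even (d : ℕ) : TT (2 * d) = d ^ 2 + d ∧ TT (2 * d + 1) = (d + 1) ^ 2 := by
  induction d with
  | zero => simp [TT]
  | succ d ih =>
    have h1 : TT (2 * (d + 1)) = (d + 1) ^ 2 + (d + 1) := by
      have : 2 * (d + 1) = (2 * d + 1) + 1 := by ring
      rw [this, TT, ih.2]
      have : (2 * d + 1) / 2 = d := by omega
      rw [this]
      ring
    refine ⟨h1, ?_⟩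
    rw [TT, h1]
    have : (2 * (d + 1)) / 2 = d + 1 := by omega
    rw [this]
    ring

theorem TT_le (a : ℕ) : 4 * TT a ≤ (a + 1) ^ 2 := by
  rcases Nat.even_or_odd' a with ⟨d, hd | hd⟩
  · rw [hd, (TT_even d).1]
    nlinarith
  · rw [hd, (TT_even d).2]
    nlinarith

/-- The counting of levels. -/
theorem level_bound {δ : A → Q → Q} (hconn : ∀ x y, ∃ w, run δ w x = y)
    {r : List A} {q : Q} (hr : ∀ p, run δ r p = q) (hn : 3 ≤ Fintype.card Q)
    {N : ℕ} (hN : ∀ w, Tri δ w → N ≤ w.length) (w : List A) (hwN : w.length < N) :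
    4 * N + 4 * (miss δ w).card ^ 2 + 4 * (miss δ w).card ≤
      (Fintype.card Q + 2) ^ 2 + 4 * w.length := by
  classical
  choose m hm hmmax using exists_maxTotal δ
  set n := Fintype.card Q with hnd
  have hmn : ∀ k, n ≤ m k := by
    intro k
    have := hmmax k _ (GG.one δ k)
    simpa using this
  have hm2 : ∀ k, m k ≤ 2 * n := by
    intro k
    obtain ⟨g, hg, hgm⟩ := hm k
    rw [← hgm]
    exact hg.total_le
  have hmono : ∀ k, m k ≤ m (k + 1) := by
    intro k
    obtain ⟨g, hg, hgm⟩ := hm k
    rw [← hgm]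
    exact hmmax _ g (hg.mono (Nat.le_succ k))
  -- dimension bound
  have hdim : ∀ k, 2 * Module.finrank ℚ (spanE (EE δ k) (m k)) + m k ≤ 2 * n + 2 := by
    intro k
    obtain ⟨g, hg, hgm⟩ := hm k
    refine finrank_spanE_le (fun x y h => h.symm) (fun x y h => h.1) hg.le hg.pair ?_ hgm ?_
    · intro g' h1 h2
      rw [hgm]
      exact hmmax k g' ⟨h1, h2⟩
    · have := hmn k
      omega
  have hmem : ∀ k, ∃ f ∈ spanE (EE δ k) (m k), ∑ x, f x ≠ 0 := by
    intro k
    obtain ⟨g, hg, hgm⟩ := hm k
    refine ⟨fun x => (g x : ℚ), Submodule.subset_span ⟨g, hg.le, hg.pair, hgm, rfl⟩, ?_⟩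
    have h1 : ∑ x, (g x : ℚ) = (m k : ℚ) := by
      rw [← hgm]
      push_cast
      rfl
    rw [h1]
    have := hmn k
    have h2 : m k ≠ 0 := by omega
    exact_mod_cast h2
  have hpos : ∀ k, 1 ≤ Module.finrank ℚ (spanE (EE δ k) (m k)) := by
    intro k
    obtain ⟨f, hf, h0⟩ := hmem k
    rw [Nat.one_le_iff_ne_zero]
    intro h
    rw [Submodule.finrank_eq_zero] at h
    rw [h, Submodule.mem_bot] at hf
    apply h0
    rw [hf]
    simp
  -- strict growth inside a phase
  have hstep : ∀ k, 1 ≤ k → k + 1 ≤ N → m k = m (k + 1) →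
      Module.finrank ℚ (spanE (EE δ k) (m k)) <
        Module.finrank ℚ (spanE (EE δ (k + 1)) (m (k + 1))) := by
    intro k hk hkN heq
    have hle : spanE (EE δ k) (m k) ≤ spanE (EE δ (k + 1)) (m (k + 1)) := by
      apply Submodule.span_mono
      rintro f ⟨g, h1, h2, h3, rfl⟩
      exact ⟨g, h1, fun x y hxy => h2 x y (hxy.mono (Nat.le_succ k)), h3.trans heq, rfl⟩
    refine lt_of_le_of_ne (Submodule.finrank_mono hle) ?_
    intro hfr
    have hV := Submodule.eq_of_le_of_finrank_eq hle hfr
    obtain ⟨f, hf, h0⟩ := hmem k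
    have htop := eq_top_of_invariant hconn hr (spanE (EE δ k) (m k)) (by
      intro a f hf
      rw [hV]
      unfold spanE at hf
      have : Submodule.span ℚ {f | ∃ g : Q → ℕ, (∀ x, g x ≤ 2) ∧
          (∀ x y, EE δ k x y → g x + g y ≤ 2) ∧ ∑ x, g x = m k ∧ f = fun x => (g x : ℚ)} ≤
          (spanE (EE δ (k + 1)) (m (k + 1))).comap (pushQ δ [a]) := by
        rw [Submodule.span_le]
        rintro f ⟨g, h1, h2, h3, rfl⟩
        rw [SetLike.mem_coe, Submodule.mem_comap, pushQ_cast]
        have hg : GG δ k g := ⟨h1, h2⟩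
        have hg' := hg.push hN hk [a] (by simpa using hkN)
        have hg'' : GG δ (k + 1) (pushN δ [a] g) := by simpa using hg'
        refine Submodule.subset_span ⟨_, hg''.le, hg''.pair, ?_, rfl⟩
        rw [sum_pushN, h3, heq]
      exact this hf) hf h0
    have := hdim k
    rw [htop, finrank_top, Module.finrank_fintype_fun_eq_card] at this
    have := hmn k
    omega
  -- potential
  have hpot : ∀ k, 1 ≤ k → k ≤ N →
      TT (2 * n - m k + 1) + k ≤ TT (n + 1) + Module.finrank ℚ (spanE (EE δ k) (m k)) := by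
    intro k hk
    induction k, hk using Nat.le_induction with
    | base =>
      intro _
      have h1 := hpos 1
      have h2 := hmn 1
      have h3 := TT_mono (by omega : 2 * n - m 1 + 1 ≤ n + 1)
      omega
    | succ k hk ih =>
      intro hkN
      have ih' := ih (by omega)
      rcases Nat.lt_or_ge (m k) (m (k + 1)) with hlt | hge
      · have h1 := hpos (k + 1)
        have h2 := hdim k
        have h3 := hmn k
        have h4 := hm2 (k + 1)
        have h5 := TT_mono (by omega : 2 * n - m (k + 1) + 1 ≤ 2 * n - m k)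
        have h6 : TT (2 * n - m k + 1) = TT (2 * n - m k) + (2 * n - m k) / 2 + 1 := rfl
        omega
      · have heq : m k = m (k + 1) := le_antisymm (hmono k) hge
        have := hstep k hk hkN heq
        rw [← heq] at this ⊢
        omega
  -- conclusion
  obtain ⟨g, hg, hgm⟩ := hm (N - w.length)
  have h1 := hpot (N - w.length) (by omega) (by omega)
  have h2 := hg.total_le_miss hN (by omega) w (by omega)
  rw [hgm] at h2
  have h3 := hdim (N - w.length)
  have h4 := hmn (N - w.length)
  have h6 : TT (2 * n - m (N - w.length) + 1) =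
    TT (2 * n - m (N - w.length)) + (2 * n - m (N - w.length)) / 2 + 1 := rfl
  have h7 := TT_mono (by omega : 2 * (miss δ w).card ≤ 2 * n - m (N - w.length))
  rw [(TT_even _).1] at h7
  have h8 := TT_le (n + 1)
  have h9 : n + 1 + 1 = n + 2 := rfl
  rw [h9] at h8
  omega

end Pool.Agent.Lib_helper91.Rdv
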