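import Mathlib

set_option autoImplicit false

namespace Pool.Agent.Lib_helper91

/-- The `n`-th triangular number. -/
def tri (n : ℕ) : ℕ := n * (n + 1) / 2

lemma two_mul_tri (n : ℕ) : 2 * tri n = n * (n + 1) := by
  unfold tri
  exact Nat.mul_div_cancel' (Nat.even_mul_succ_self n).two_dvd

lemma tri_strictMono : StrictMono tri := by
  apply strictMono_nat_of_lt_succ
  intro n
  have h1 := two_mul_tri n
  have h2 := two_mul_tri (n + 1)
  nlinarith

lemma tri_pos {n : ℕ} (hn : 1 ≤ n) : 1 ≤ tri n := by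
  have h1 := two_mul_tri n
  nlinarith

lemma tri_one : tri 1 = 1 := by
  have := two_mul_tri 1
  omega

/-- `k T(d) = T(n)` in terms of odd squares. -/
lemma tri_eq_iff_sq {k d n : ℕ} :
    tri n = k * tri d ↔ ((2 * (n : ℤ) + 1) ^ 2 - 1 = k * ((2 * (d : ℤ) + 1) ^ 2 - 1)) := by
  have h1 := two_mul_tri n
  have h2 := two_mul_tri d
  have h1' : 2 * (tri n : ℤ) = n * (n + 1) := by exact_mod_cast h1
  have h2' : 2 * (tri d : ℤ) = d * (d + 1) := by exact_mod_cast h2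
  constructor
  · intro h
    have h' : (tri n : ℤ) = k * tri d := by exact_mod_cast h
    nlinarith
  · intro h
    have : (tri n : ℤ) = k * tri d := by nlinarith
    exact_mod_cast this

lemma lt_of_tri_eq {k d n : ℕ} (hk : 2 ≤ k) (hd : 1 ≤ d) (h : tri n = k * tri d) : d < n := by
  rw [← tri_strictMono.lt_iff_lt, h]
  have := tri_pos hd
  nlinarith

/-- Solutions `d` of `k T(d) = T(n)` in the same divisor class are at least a factor `2` apart. -/
lemma class_gap {k d d' n n' u : ℕ} (hk : 2 ≤ k) (hd : 1 ≤ d) (hdd : d < d')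
    (hn : tri n = k * tri d) (hn' : tri n' = k * tri d')
    (hu : Nat.gcd (n - d) (k - 1) = u) (hu' : Nat.gcd (n' - d') (k - 1) = u) :
    2 * d ≤ d' := by
  by_contra hlt
  push Not at hlt
  have hd' : 1 ≤ d' := by omega
  have hdn : d < n := lt_of_tri_eq hk hd hn
  have hdn' : d' < n' := lt_of_tri_eq hk hd' hn'
  have hu0 : 0 < u := by
    rw [← hu]; exact Nat.gcd_pos_of_pos_right _ (by omega)
  -- divisibility facts
  have key : ∀ d n : ℕ, 1 ≤ d → d < n → tri n = k * tri d → Nat.gcd (n - d) (k - 1) = u →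
      u ∣ n - d ∧ ((k - 1) / u) ∣ n + d + 1 := by
    intro d n hd hdn hn hu
    refine ⟨hu ▸ Nat.gcd_dvd_left _ _, ?_⟩
    have h1 := two_mul_tri n
    have h2 := two_mul_tri d
    obtain ⟨m, rfl⟩ : ∃ m, k = m + 1 := ⟨k - 1, by omega⟩
    obtain ⟨e, rfl⟩ : ∃ e, n = d + e := ⟨n - d, by omega⟩
    simp only [Nat.add_sub_cancel, Nat.add_sub_cancel_left] at hu ⊢
    have hprod : e * (d + e + d + 1) = m * (d * (d + 1)) := by
      have : 2 * tri (d + e) = (m + 1) * (2 * tri d) := by rw [hn]; ring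
      rw [h1, h2] at this
      nlinarith
    have hcop : Nat.Coprime (m / u) (e / u) := by
      have := Nat.coprime_div_gcd_div_gcd (m := e) (n := m) (by rw [hu]; exact hu0)
      rw [hu] at this
      exact this.symm
    have hum : u ∣ m := hu ▸ Nat.gcd_dvd_right _ _
    have hue : u ∣ e := hu ▸ Nat.gcd_dvd_left _ _
    have : (m / u) ∣ (e / u) * (d + e + d + 1) := by
      obtain ⟨m', rfl⟩ := hum
      obtain ⟨e', rfl⟩ := hue
      rw [Nat.mul_div_cancel_left _ hu0, Nat.mul_div_cancel_left _ hu0]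
      refine ⟨d * (d + 1), ?_⟩
      have h3 : u * (e' * (d + u * e' + d + 1)) = u * (m' * (d * (d + 1))) := by
        rw [← mul_assoc, ← mul_assoc, hprod]
      exact Nat.eq_of_mul_eq_mul_left hu0 h3
    have h4 := hcop.dvd_of_dvd_mul_left this
    have h5 : d + e + d + 1 = d + e + d + 1 := rfl
    simpa using h4
  obtain ⟨ha, hb⟩ := key d n hd hdn hn hu
  obtain ⟨ha', hb'⟩ := key d' n' hd' hdn' hn' hu'
  have humk : u ∣ k - 1 := hu ▸ Nat.gcd_dvd_right _ _
  obtain ⟨v, hv⟩ := humk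
  rw [hv, Nat.mul_div_cancel_left _ hu0] at hb hb'
  have hv0 : 0 < v := by
    rcases Nat.eq_zero_or_pos v with h | h
    · subst h; omega
    · exact h
  -- pass to integers
  have hkZ : (k : ℤ) = u * v + 1 := by
    have : k = u * v + 1 := by omega
    exact_mod_cast this
  have hsq := tri_eq_iff_sq.mp hn
  have hsq' := tri_eq_iff_sq.mp hn'
  set N : ℤ := 2 * (n : ℤ) + 1 with hN
  set X : ℤ := 2 * (d : ℤ) + 1 with hX
  set N' : ℤ := 2 * (n' : ℤ) + 1 with hN'
  set X' : ℤ := 2 * (d' : ℤ) + 1 with hX'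
  have hX3 : 3 ≤ X := by rw [hX]; push_cast; linarith [show (1:ℤ) ≤ d by exact_mod_cast hd]
  have hXX : X < X' := by
    rw [hX, hX']; have : (d : ℤ) < d' := by exact_mod_cast hdd
    linarith
  have hX2 : X' < 2 * X := by
    rw [hX, hX']; have : (d' : ℤ) < 2 * d := by exact_mod_cast hlt
    linarith
  have hNX : X < N := by
    rw [hX, hN]; have : (d : ℤ) < n := by exact_mod_cast hdn
    linarith
  have hNX' : X' < N' := by
    rw [hX', hN']; have : (d' : ℤ) < n' := by exact_mod_cast hdn'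
    linarith
  have hk2 : (2 : ℤ) ≤ k := by exact_mod_cast hk
  set c : ℤ := N' * X - N * X' with hc
  have hcB : c * (N' * X + N * X') = (k - 1) * (X' ^ 2 - X ^ 2) := by
    have e1 : N ^ 2 = 1 + k * (X ^ 2 - 1) := by linarith
    have e2 : N' ^ 2 = 1 + k * (X' ^ 2 - 1) := by linarith
    have : c * (N' * X + N * X') = N' ^ 2 * X ^ 2 - N ^ 2 * X' ^ 2 := by rw [hc]; ring
    rw [this, e1, e2]; ring
  have hBpos : 0 < N' * X + N * X' := by
    have : 0 < N' * X := mul_pos (by linarith) (by linarith)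
    have : 0 < N * X' := mul_pos (by linarith) (by linarith)
    linarith
  have hRpos : 0 < (k - 1) * (X' ^ 2 - X ^ 2) := by
    apply mul_pos (by linarith)
    have := pow_lt_pow_left₀ hXX (by linarith) (n := 2) (by norm_num)
    linarith
  have hcpos : 0 < c := by
    by_contra h
    push Not at h
    have : c * (N' * X + N * X') ≤ 0 := mul_nonpos_of_nonpos_of_nonneg h hBpos.le
    linarith
  -- divisibility of c
  have hdu : (2 * (u : ℤ)) ∣ c := by
    obtain ⟨α, hα⟩ := ha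
    obtain ⟨α', hα'⟩ := ha'
    have e1 : (n : ℤ) = d + u * α := by
      have : n = d + u * α := by omega
      exact_mod_cast this
    have e2 : (n' : ℤ) = d' + u * α' := by
      have : n' = d' + u * α' := by omega
      exact_mod_cast this
    refine ⟨α' * X - α * X', ?_⟩
    rw [hc, hN, hN', e1, e2, hX, hX']; ring
  have hdv : (2 * (v : ℤ)) ∣ c := by
    obtain ⟨β, hβ⟩ := hb
    obtain ⟨β', hβ'⟩ := hb'
    have e1 : (n : ℤ) = v * β - d - 1 := by
      have : n + d + 1 = v * β := hβ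
      have : (n : ℤ) + d + 1 = v * β := by exact_mod_cast this
      linarith
    have e2 : (n' : ℤ) = v * β' - d' - 1 := by
      have : n' + d' + 1 = v * β' := hβ'
      have : (n' : ℤ) + d' + 1 = v * β' := by exact_mod_cast this
      linarith
    refine ⟨β' * X - β * X', ?_⟩
    rw [hc, hN, hN', e1, e2, hX, hX']; ring
  -- c^2 ≥ 4 (k-1)
  have hc2 : 4 * ((k : ℤ) - 1) ≤ c ^ 2 := by
    obtain ⟨cn, hcn⟩ : ∃ cn : ℕ, c = cn := ⟨c.toNat, by rw [Int.toNat_of_nonneg hcpos.le]⟩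
    rw [hcn] at hdu hdv hcpos ⊢
    have hcn0 : 0 < cn := by exact_mod_cast hcpos
    have h1 : 2 * u ∣ cn := by exact_mod_cast hdu
    have h2 : 2 * v ∣ cn := by exact_mod_cast hdv
    have h3 : Nat.lcm (2 * u) (2 * v) ∣ cn := Nat.lcm_dvd h1 h2
    have h4 : Nat.lcm (2 * u) (2 * v) ≤ cn := Nat.le_of_dvd hcn0 h3
    have h5 : Nat.gcd (2 * u) (2 * v) * Nat.lcm (2 * u) (2 * v) = 2 * u * (2 * v) :=
      Nat.gcd_mul_lcm _ _
    have h6 : Nat.gcd (2 * u) (2 * v) ≤ Nat.lcm (2 * u) (2 * v) := by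
      apply Nat.le_of_dvd (Nat.lcm_pos (by omega) (by omega))
      exact (Nat.gcd_dvd_left _ _).trans (Nat.dvd_lcm_left _ _)
    have h7 : 2 * u * (2 * v) ≤ cn * cn := by
      rw [← h5]
      exact Nat.mul_le_mul (h6.trans h4) h4
    have h8 : (4 : ℤ) * (u * v) ≤ cn ^ 2 := by
      have : 4 * (u * v) ≤ cn ^ 2 := by nlinarith
      exact_mod_cast this
    rw [hkZ]; linarith
  -- final contradiction
  have hk1 : (0 : ℤ) < k - 1 := by linarith
  set B : ℤ := N' * X + N * X' with hB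
  have hBge : 2 * N * X' ≤ B := by
    have : 0 < c := hcpos
    rw [hB]; rw [hc] at this; linarith
  have h9 : 4 * ((k : ℤ) - 1) * B ^ 2 ≤ ((k - 1) * (X' ^ 2 - X ^ 2)) ^ 2 := by
    rw [← hcB, mul_pow]
    exact mul_le_mul_of_nonneg_right hc2 (by positivity)
  have h10 : 4 * B ^ 2 ≤ (k - 1) * (X' ^ 2 - X ^ 2) ^ 2 := by
    have : ((k : ℤ) - 1) * (4 * B ^ 2) ≤ (k - 1) * ((k - 1) * (X' ^ 2 - X ^ 2) ^ 2) := by
      calc ((k : ℤ) - 1) * (4 * B ^ 2) = 4 * ((k : ℤ) - 1) * B ^ 2 := by ring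
        _ ≤ ((k - 1) * (X' ^ 2 - X ^ 2)) ^ 2 := h9
        _ = (k - 1) * ((k - 1) * (X' ^ 2 - X ^ 2) ^ 2) := by ring
    exact le_of_mul_le_mul_left this hk1
  have h11 : 16 * (N ^ 2 * X' ^ 2) ≤ (k - 1) * (X' ^ 2 - X ^ 2) ^ 2 := by
    have : (2 * N * X') ^ 2 ≤ B ^ 2 := by
      apply pow_le_pow_left₀ _ hBge
      have : 0 < N * X' := mul_pos (by linarith) (by linarith)
      linarith
    calc 16 * (N ^ 2 * X' ^ 2) = 4 * (2 * N * X') ^ 2 := by ring
      _ ≤ 4 * B ^ 2 := by linarith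
      _ ≤ _ := h10
  have h12 : (X' ^ 2 - X ^ 2) ^ 2 ≤ X' ^ 2 * X' ^ 2 := by
    have h0 : 0 ≤ X' ^ 2 - X ^ 2 := by
      have := pow_lt_pow_left₀ hXX (by linarith) (n := 2) (by norm_num)
      linarith
    have h1 : X' ^ 2 - X ^ 2 ≤ X' ^ 2 := by linarith [sq_nonneg X]
    calc (X' ^ 2 - X ^ 2) ^ 2 = (X' ^ 2 - X ^ 2) * (X' ^ 2 - X ^ 2) := by ring
      _ ≤ X' ^ 2 * X' ^ 2 := mul_le_mul h1 h1 h0 (by positivity)
  have hX'0 : 0 < X' ^ 2 := by
    have : 0 < X' := by linarith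
    positivity
  have h13 : 16 * N ^ 2 ≤ (k - 1) * X' ^ 2 := by
    have : X' ^ 2 * (16 * N ^ 2) ≤ X' ^ 2 * ((k - 1) * X' ^ 2) := by
      calc X' ^ 2 * (16 * N ^ 2) = 16 * (N ^ 2 * X' ^ 2) := by ring
        _ ≤ (k - 1) * (X' ^ 2 - X ^ 2) ^ 2 := h11
        _ ≤ (k - 1) * (X' ^ 2 * X' ^ 2) := mul_le_mul_of_nonneg_left h12 hk1.le
        _ = X' ^ 2 * ((k - 1) * X' ^ 2) := by ring
    exact le_of_mul_le_mul_left this hX'0
  have h14 : X' ^ 2 ≤ 4 * X ^ 2 := by
    calc X' ^ 2 ≤ (2 * X) ^ 2 := pow_le_pow_left₀ (by linarith) hX2.le 2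
      _ = 4 * X ^ 2 := by ring
  have h15 : N ^ 2 = 1 + k * (X ^ 2 - 1) := by linarith
  have h16 : 16 * (1 + k * (X ^ 2 - 1)) ≤ (k - 1) * (4 * X ^ 2) := by
    rw [← h15]; exact h13.trans (mul_le_mul_of_nonneg_left h14 hk1.le)
  have h17 : 9 ≤ X ^ 2 := by
    calc (9 : ℤ) = 3 ^ 2 := by norm_num
      _ ≤ X ^ 2 := pow_le_pow_left₀ (by norm_num) hX3 2
  have h18 : (k : ℤ) * 9 ≤ k * X ^ 2 := mul_le_mul_of_nonneg_left h17 (by linarith)
  linarith

end Pool.Agent.Lib_helper91
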