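import Mathlib
import Pool.Agent.Lib_helper91.TriBasic
import Pool.Agent.Lib_helper91.PairGap
import Pool.Agent.Lib_helper91.Rankin

set_option autoImplicit false

namespace Pool.Agent.Lib_helper91

open Finset

/-- Proper predecessors of `n` in the triangular divisibility order. -/
def pre (n : ℕ) : Finset ℕ := (Finset.Ico 1 n).filter (fun d => tri d ∣ tri n)

lemma mem_pre {n d : ℕ} : d ∈ pre n ↔ (1 ≤ d ∧ d < n) ∧ tri d ∣ tri n := by
  unfold pre
  rw [Finset.mem_filter, Finset.mem_Ico]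

/-- The quotient `T(n)/T(d)`. -/
def quo (n d : ℕ) : ℕ := tri n / tri d

lemma tri_eq_quo {n d : ℕ} (h : d ∈ pre n) : tri n = quo n d * tri d := by
  rw [mem_pre] at h
  unfold quo
  exact (Nat.div_mul_cancel h.2).symm

lemma two_le_quo {n d : ℕ} (h : d ∈ pre n) : 2 ≤ quo n d := by
  have h1 := tri_eq_quo h
  rw [mem_pre] at h
  have h2 : tri d < tri n := tri_strictMono h.1.2
  by_contra hlt
  push Not at hlt
  interval_cases hq : quo n d
  · omega
  · omega

lemma quo_injOn (n : ℕ) : Set.InjOn (quo n) (pre n : Set ℕ) := by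
  intro d hd d' hd' h
  have h1 := tri_eq_quo (Finset.mem_coe.mp hd)
  have h2 := tri_eq_quo (Finset.mem_coe.mp hd')
  rw [h] at h1
  have h3 : quo n d' * tri d = quo n d' * tri d' := by rw [← h1, ← h2]
  have h4 : 0 < quo n d' := by have := two_le_quo (Finset.mem_coe.mp hd'); omega
  exact tri_strictMono.injective (Nat.eq_of_mul_eq_mul_left h4 h3)

/-- The set of quotients `k ≥ 2` such that `T(n)/k` is triangular. -/
def K (n : ℕ) : Finset ℕ := (pre n).image (quo n)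

lemma mem_K {n k : ℕ} : k ∈ K n ↔ 2 ≤ k ∧ ∃ d, 1 ≤ d ∧ tri n = k * tri d := by
  unfold K
  rw [Finset.mem_image]
  constructor
  · rintro ⟨d, hd, rfl⟩
    exact ⟨two_le_quo hd, d, (mem_pre.mp hd).1.1, tri_eq_quo hd⟩
  · rintro ⟨hk, d, hd, h⟩
    have hmem : d ∈ pre n := by
      rw [mem_pre]
      exact ⟨⟨hd, lt_of_tri_eq hk hd h⟩, ⟨k, by rw [h, mul_comm]⟩⟩
    refine ⟨d, hmem, ?_⟩
    unfold quo
    rw [h]
    exact Nat.mul_div_cancel _ (tri_pos hd)

lemma sum_K {n : ℕ} (f : ℕ → ℝ) : ∑ d ∈ pre n, f (quo n d) = ∑ k ∈ K n, f k := by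
  unfold K
  rw [Finset.sum_image (fun x hx y hy h => quo_injOn n hx hy h)]

lemma K_subset_divisors {n : ℕ} (hn : 1 ≤ n) : K n ⊆ (tri n).divisors := by
  intro k hk
  rw [mem_K] at hk
  obtain ⟨_, d, _, h⟩ := hk
  rw [Nat.mem_divisors]
  exact ⟨⟨tri d, h⟩, by have := tri_pos hn; omega⟩

lemma K_le {n k : ℕ} (hk : k ∈ K n) : k ≤ tri n := by
  rw [mem_K] at hk
  obtain ⟨_, d, hd, h⟩ := hk
  rw [h]
  exact Nat.le_mul_of_pos_right _ (tri_pos hd)

/-- `log T(n)`. -/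
noncomputable def L (n : ℕ) : ℝ := Real.log (tri n)

lemma L_nonneg (n : ℕ) : 0 ≤ L n := Real.log_natCast_nonneg _

lemma L_mono {m n : ℕ} (hm : 1 ≤ m) (h : m ≤ n) : L m ≤ L n := by
  unfold L
  apply Real.log_le_log
  · exact_mod_cast tri_pos hm
  · exact_mod_cast tri_strictMono.monotone h

lemma L_pos {n : ℕ} (hn : 2 ≤ n) : 0 < L n := by
  unfold L
  apply Real.log_pos
  have : tri 1 < tri n := tri_strictMono (by omega)
  rw [tri_one] at this
  exact_mod_cast this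

/-- The small quotients. -/
noncomputable def KY (n : ℕ) : Finset ℕ :=
  (K n).filter (fun k => Real.log k ≤ (L n) ^ (1 / 4 : ℝ))

lemma mem_KY {n k : ℕ} : k ∈ KY n ↔ k ∈ K n ∧ Real.log k ≤ (L n) ^ (1 / 4 : ℝ) := by
  unfold KY; rw [Finset.mem_filter]

lemma two_le_of_mem_K {n k : ℕ} (h : k ∈ K n) : 2 ≤ k := (mem_K.mp h).1

lemma sum_inv_sq_le (m : ℕ) : ∑ k ∈ Finset.Icc 2 m, (1 : ℝ) / (k : ℝ) ^ 2 ≤ 3 / 4 := by
  have h : ∀ m : ℕ, 2 ≤ m → ∑ k ∈ Finset.Icc 2 m, (1 : ℝ) / (k : ℝ) ^ 2 ≤ 3 / 4 - 1 / m := by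
    intro m hm
    induction m, hm using Nat.le_induction with
    | base => norm_num
    | succ m hm ih =>
      rw [Finset.sum_Icc_succ_top (by omega)]
      have hm0 : (0 : ℝ) < m := by
        have : 0 < m := by omega
        exact_mod_cast this
      have : (1 : ℝ) / ((m + 1 : ℕ) : ℝ) ^ 2 ≤ 1 / m - 1 / ((m + 1 : ℕ) : ℝ) := by
        push_cast
        rw [div_sub_div _ _ hm0.ne' (by positivity), div_le_div_iff₀ (by positivity) (by positivity)]
        nlinarith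
      linarith
  rcases Nat.lt_or_ge m 2 with hm | hm
  · rw [Finset.Icc_eq_empty (by omega)]
    norm_num
  · have := h m hm
    have : (0 : ℝ) ≤ 1 / m := by positivity
    linarith

lemma sum_inv_le_log (m : ℕ) (hm : 1 ≤ m) : ∑ k ∈ Finset.Icc 2 m, (1 : ℝ) / (k : ℝ) ≤ Real.log m := by
  induction m, hm using Nat.le_induction with
  | base => simp
  | succ m hm ih =>
    rw [Finset.sum_Icc_succ_top (by omega)]
    have hm0 : (0 : ℝ) < m := by exact_mod_cast hm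
    have h1 : (1 : ℝ) / ((m + 1 : ℕ) : ℝ) ≤ Real.log ((m + 1 : ℕ) : ℝ) - Real.log m := by
      have h2 := Real.one_sub_inv_le_log_of_pos (x := ((m + 1 : ℕ) : ℝ) / m) (by positivity)
      rw [Real.log_div (by positivity) hm0.ne'] at h2
      refine le_trans (le_of_eq ?_) h2
      push_cast
      field_simp
      ring
    linarith

/-- Off-diagonal pair sum. -/
noncomputable def R (n : ℕ) : ℝ := ∑ x ∈ (KY n).offDiag, (1 : ℝ) / ((x.1 : ℝ) * x.2)

lemma R_nonneg (n : ℕ) : 0 ≤ R n := by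
  unfold R
  apply Finset.sum_nonneg
  intro x _
  positivity

lemma sum_KY_sq (n : ℕ) : (∑ k ∈ KY n, (1 : ℝ) / k) ^ 2 ≤ 3 / 4 + R n := by
  have h1 : (∑ k ∈ KY n, (1 : ℝ) / k) ^ 2 =
      ∑ x ∈ KY n ×ˢ KY n, (1 : ℝ) / ((x.1 : ℝ) * x.2) := by
    rw [sq, Finset.sum_mul_sum, ← Finset.sum_product']
    apply Finset.sum_congr rfl
    intro x _
    rw [one_div, one_div, one_div, mul_inv]
  rw [h1, ← Finset.diag_union_offDiag, Finset.sum_union (Finset.disjoint_diag_offDiag _),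
    Finset.sum_diag]
  have h2 : ∑ k ∈ KY n, (1 : ℝ) / ((k : ℝ) * k) ≤ 3 / 4 := by
    refine le_trans ?_ (sum_inv_sq_le (tri n))
    have : ∀ k ∈ KY n, (1 : ℝ) / ((k : ℝ) * k) = 1 / (k : ℝ) ^ 2 := by
      intro k _; rw [sq]
    rw [Finset.sum_congr rfl this]
    apply Finset.sum_le_sum_of_subset_of_nonneg
    · intro k hk
      have hk' := (mem_KY.mp hk).1
      rw [Finset.mem_Icc]
      exact ⟨two_le_of_mem_K hk', K_le hk'⟩
    · intro k _ _; positivity
  have h3 : ∑ x ∈ (KY n).offDiag, (1 : ℝ) / ((x.1 : ℝ) * x.2) = R n := rfl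
  linarith

end Pool.Agent.Lib_helper91
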