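import Mathlib
import Pool.Agent.Lib_helper91.TriK

set_option autoImplicit false

namespace Pool.Agent.Lib_helper91

open Finset Filter Topology

/-- Weighted quotient sum. -/
noncomputable def s (n : ℕ) : ℝ :=
  ∑ k ∈ K n, (1 : ℝ) / k * Real.exp (Real.log k * (L n) ^ (-(1 / 3) : ℝ))

lemma s_nonneg (n : ℕ) : 0 ≤ s n := by
  unfold s
  apply Finset.sum_nonneg
  intro k _
  positivity

lemma sum_KY_inv_le (n : ℕ) : ∑ k ∈ KY n, (1 : ℝ) / k ≤ (L n) ^ (1 / 4 : ℝ) := by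
  set m := ⌊Real.exp ((L n) ^ (1 / 4 : ℝ))⌋₊ with hm
  have hLnn : 0 ≤ (L n) ^ (1 / 4 : ℝ) := Real.rpow_nonneg (L_nonneg n) _
  have hm1 : 1 ≤ m := by
    rw [hm]
    apply Nat.le_floor
    simpa using Real.one_le_exp hLnn
  have h1 : ∑ k ∈ KY n, (1 : ℝ) / k ≤ ∑ k ∈ Finset.Icc 2 m, (1 : ℝ) / k := by
    apply Finset.sum_le_sum_of_subset_of_nonneg
    · intro k hk
      obtain ⟨hk1, hk2⟩ := mem_KY.mp hk
      have h2 := two_le_of_mem_K hk1
      rw [Finset.mem_Icc]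
      refine ⟨h2, ?_⟩
      apply Nat.le_floor
      have hk0 : (0 : ℝ) < k := by
        have : 0 < k := by omega
        exact_mod_cast this
      rw [← Real.exp_log hk0]
      exact Real.exp_le_exp.mpr hk2
    · intro k _ _; positivity
  have h2 := sum_inv_le_log m hm1
  have h3 : Real.log m ≤ (L n) ^ (1 / 4 : ℝ) := by
    have hm0 : (0 : ℝ) < m := by exact_mod_cast hm1
    rw [← Real.log_exp ((L n) ^ (1 / 4 : ℝ))]
    apply Real.log_le_log hm0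
    exact Nat.floor_le (Real.exp_pos _).le
  linarith

lemma tail_le {n : ℕ} (hn : 2 ≤ n) (h : (L n) ^ (-(1 / 3) : ℝ) ≤ 1 / 20) :
    ∑ k ∈ (K n).filter (fun k : ℕ => ¬ Real.log k ≤ (L n) ^ (1 / 4 : ℝ)),
      (1 : ℝ) / k * Real.exp (Real.log k * (L n) ^ (-(1 / 3) : ℝ)) ≤
    Real.exp (-(7 / 60) * (L n) ^ (1 / 4 : ℝ) + 42 * (L n) ^ (1 / 6 : ℝ)) := by
  have h1 : ∀ k ∈ (K n).filter (fun k : ℕ => ¬ Real.log k ≤ (L n) ^ (1 / 4 : ℝ)),
      (1 : ℝ) / k * Real.exp (Real.log k * (L n) ^ (-(1 / 3) : ℝ)) ≤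
      Real.exp (-(7 / 60) * (L n) ^ (1 / 4 : ℝ)) * powHom k := by
    intro k hk
    rw [Finset.mem_filter] at hk
    obtain ⟨hk1, hk2⟩ := hk
    push Not at hk2
    have h2 := two_le_of_mem_K hk1
    have hk0 : (0 : ℝ) < k := by
      have : 0 < k := by omega
      exact_mod_cast this
    have hlog : 0 ≤ Real.log k := Real.log_natCast_nonneg k
    have e1 : (1 : ℝ) / k = Real.exp (-Real.log k) := by
      rw [Real.exp_neg, Real.exp_log hk0, one_div]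
    rw [e1, powHom_apply, Real.rpow_def_of_pos hk0, ← Real.exp_add, ← Real.exp_add]
    apply Real.exp_le_exp.mpr
    have h3 : Real.log k * (L n) ^ (-(1 / 3) : ℝ) ≤ Real.log k * (1 / 20) :=
      mul_le_mul_of_nonneg_left h hlog
    linarith
  refine (Finset.sum_le_sum h1).trans ?_
  rw [← Finset.mul_sum, Real.exp_add]
  apply mul_le_mul_of_nonneg_left _ (Real.exp_pos _).le
  refine le_trans ?_ (sum_divisors_powHom_le (tri_pos (by omega : 1 ≤ n)))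
  apply Finset.sum_le_sum_of_subset_of_nonneg
  · intro k hk
    rw [Finset.mem_filter] at hk
    exact K_subset_divisors (by omega) hk.1
  · intro k _ _
    exact powHom_nonneg k

lemma s_le {n : ℕ} (hn : 2 ≤ n) (h : (L n) ^ (-(1 / 3) : ℝ) ≤ 1 / 20) :
    s n ≤ Real.exp ((L n) ^ (1 / 4 : ℝ) * (L n) ^ (-(1 / 3) : ℝ)) * ∑ k ∈ KY n, (1 : ℝ) / k +
    Real.exp (-(7 / 60) * (L n) ^ (1 / 4 : ℝ) + 42 * (L n) ^ (1 / 6 : ℝ)) := by
  unfold s
  rw [← Finset.sum_filter_add_sum_filter_not (K n)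
    (fun k : ℕ => Real.log k ≤ (L n) ^ (1 / 4 : ℝ))]
  apply add_le_add _ (tail_le hn h)
  have : (K n).filter (fun k : ℕ => Real.log k ≤ (L n) ^ (1 / 4 : ℝ)) = KY n := rfl
  rw [this, Finset.mul_sum]
  apply Finset.sum_le_sum
  intro k hk
  obtain ⟨hk1, hk2⟩ := mem_KY.mp hk
  rw [mul_comm]
  apply mul_le_mul_of_nonneg_right _ (by positivity)
  apply Real.exp_le_exp.mpr
  exact mul_le_mul_of_nonneg_right hk2 (Real.rpow_nonneg (L_nonneg n) _)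

/-- Conditions that hold for all large `n`. -/
structure Large (n : ℕ) : Prop where
  two_le : 2 ≤ n
  c1 : Real.exp ((L n) ^ (1 / 4 : ℝ) * (L n) ^ (-(1 / 3) : ℝ)) ≤ 21 / 20
  c2 : (L n) ^ (-(1 / 3) : ℝ) ≤ 1 / 20
  c3 : Real.exp (-(7 / 60) * (L n) ^ (1 / 4 : ℝ) + 42 * (L n) ^ (1 / 6 : ℝ)) ≤ 1 / 20
  c4 : 5 * (L n) ^ (1 / 4 : ℝ) ≤ Real.log (2 * n + 1)

/-- good numbers have `s n ≤ 1`. -/
lemma s_le_one_of_good {n : ℕ} (hn : Large n) (hR : R n ≤ 1 / 16) : s n ≤ 1 := by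
  have h1 := s_le hn.two_le hn.c2
  have h2 := sum_KY_sq n
  set S := ∑ k ∈ KY n, (1 : ℝ) / k with hS
  have hS0 : 0 ≤ S := by
    rw [hS]; apply Finset.sum_nonneg; intro k _; positivity
  have h3 : S ≤ 902 / 1000 := by
    apply le_of_sq_le_sq _ (by norm_num)
    linarith
  have h4 : Real.exp ((L n) ^ (1 / 4 : ℝ) * (L n) ^ (-(1 / 3) : ℝ)) * S ≤ 21 / 20 * (902 / 1000) :=
    mul_le_mul hn.c1 h3 hS0 (by norm_num)
  have h5 := hn.c3
  have : (21 / 20 : ℝ) * (902 / 1000) + 1 / 20 ≤ 1 := by norm_num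
  linarith

lemma s_le_of_large {n : ℕ} (hn : Large n) : s n ≤ 2 * (L n) ^ (1 / 4 : ℝ) + 1 := by
  have h1 := s_le hn.two_le hn.c2
  have h2 := sum_KY_inv_le n
  set S := ∑ k ∈ KY n, (1 : ℝ) / k with hS
  have hS0 : 0 ≤ S := by
    rw [hS]; apply Finset.sum_nonneg; intro k _; positivity
  have h4 : Real.exp ((L n) ^ (1 / 4 : ℝ) * (L n) ^ (-(1 / 3) : ℝ)) * S ≤
      21 / 20 * (L n) ^ (1 / 4 : ℝ) :=
    mul_le_mul hn.c1 h2 hS0 (by norm_num)
  have h5 := hn.c3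
  have h6 : 0 ≤ (L n) ^ (1 / 4 : ℝ) := Real.rpow_nonneg (L_nonneg n) _
  linarith

end Pool.Agent.Lib_helper91
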