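import Mathlib
import Pool.Agent.Lib_helper91.TriStep

set_option autoImplicit false

namespace Pool.Agent.Lib_helper91

open Finset Filter Topology

/-- `log (2 n + 1)`. -/
noncomputable def ell (n : ℕ) : ℝ := Real.log (2 * n + 1)

lemma ell_mono {m n : ℕ} (h : m ≤ n) : ell m ≤ ell n := by
  unfold ell
  apply Real.log_le_log (by positivity)
  have : (m : ℝ) ≤ n := by exact_mod_cast h
  linarith

lemma one_le_ell {n : ℕ} (h : 1 ≤ n) : 1 ≤ ell n := by
  unfold ell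
  rw [Real.le_log_iff_exp_le (by positivity)]
  have : (1 : ℝ) ≤ n := by exact_mod_cast h
  have := Real.exp_one_lt_d9
  linarith

lemma gap_card (c : ℕ) : ∀ (B : Finset ℕ) (n : ℕ), B.card = c → 1 ≤ n → (∀ b ∈ B, 1 ≤ b) →
    (∀ b ∈ B, b ≤ n) → (∀ b ∈ B, ∀ b' ∈ B, b < b' → 3 / 2 * ell b ≤ ell b') →
    (3 / 2 : ℝ) ^ B.card ≤ 3 / 2 * ell n := by
  induction c with
  | zero =>
    intro B n hB hn _ _ _
    rw [hB]
    have := one_le_ell hn
    simp; linarith
  | succ c ih =>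
    intro B n hB hn h1 hle hgap
    have hne : B.Nonempty := by
      rw [← Finset.card_pos]; omega
    set b := B.max' hne with hb
    have hbB : b ∈ B := B.max'_mem hne
    have hcard : (B.erase b).card = c := by
      rw [Finset.card_erase_of_mem hbB]; omega
    rcases (B.erase b).eq_empty_or_nonempty with he | hne'
    · have hc : c = 0 := by rw [← hcard, he]; rfl
      rw [hB, hc]
      have := one_le_ell hn
      norm_num; linarith
    · set b' := (B.erase b).max' hne' with hb'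
      have hb'B : b' ∈ B.erase b := (B.erase b).max'_mem hne'
      have hb'B' : b' ∈ B := Finset.mem_of_mem_erase hb'B
      have hlt : b' < b := lt_of_le_of_ne (B.le_max' _ hb'B') (Finset.ne_of_mem_erase hb'B)
      have hih := ih (B.erase b) b' hcard (h1 b' hb'B')
        (fun x hx => h1 x (Finset.mem_of_mem_erase hx))
        (fun x hx => (B.erase b).le_max' x hx)
        (fun x hx y hy => hgap x (Finset.mem_of_mem_erase hx) y (Finset.mem_of_mem_erase hy))
      have h2 := hgap b' hb'B' b hbB hlt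
      have h3 := ell_mono (hle b hbB)
      have h4 : B.card = (B.erase b).card + 1 := by rw [hcard, hB]
      rw [h4, pow_succ]
      linarith

lemma pair_ell {k1 k2 b b' : ℕ} (hb : Large b) (hne : k1 ≠ k2) (h1 : k1 ∈ KY b) (h2 : k2 ∈ KY b)
    (h1' : k1 ∈ KY b') (h2' : k2 ∈ KY b') (hlt : b < b') : 3 / 2 * ell b ≤ ell b' := by
  obtain ⟨g1, l1⟩ := mem_KY.mp h1
  obtain ⟨g2, l2⟩ := mem_KY.mp h2
  obtain ⟨g1', -⟩ := mem_KY.mp h1'
  obtain ⟨g2', -⟩ := mem_KY.mp h2'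
  obtain ⟨hk1, d1, hd1, e1⟩ := mem_K.mp g1
  obtain ⟨hk2, d2, hd2, e2⟩ := mem_K.mp g2
  obtain ⟨-, d1', hd1', e1'⟩ := mem_K.mp g1'
  obtain ⟨-, d2', hd2', e2'⟩ := mem_K.mp g2'
  have key : ∀ k : ℕ, 2 ≤ k → Real.log k ≤ (L b) ^ (1 / 4 : ℝ) → (k : ℤ) ^ 5 ≤ 2 * (b : ℤ) + 1 := by
    intro k hk hl
    have hk0 : (0 : ℝ) < k := by
      have : 0 < k := by omega
      exact_mod_cast this
    have h3 : Real.log ((k : ℝ) ^ 5) ≤ Real.log (2 * b + 1) := by
      rw [Real.log_pow]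
      have := hb.c4
      push_cast
      linarith
    have h4 : (k : ℝ) ^ 5 ≤ 2 * b + 1 := by
      rwa [Real.log_le_log_iff (by positivity) (by positivity)] at h3
    exact_mod_cast h4
  have hmax : ((max k1 k2 : ℕ) : ℤ) ^ 5 ≤ 2 * (b : ℤ) + 1 := by
    rcases le_total k1 k2 with h | h
    · rw [max_eq_right h]; exact key k2 hk2 l2
    · rw [max_eq_left h]; exact key k1 hk1 l1
  have hgap := pair_gap (k1 := k1) (k2 := k2) (K := ((max k1 k2 : ℕ) : ℤ)) (N := 2 * (b : ℤ) + 1)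
    (X1 := 2 * (d1 : ℤ) + 1) (X2 := 2 * (d2 : ℤ) + 1) (N' := 2 * (b' : ℤ) + 1)
    (X1' := 2 * (d1' : ℤ) + 1) (X2' := 2 * (d2' : ℤ) + 1)
    (by exact_mod_cast hk1) (by exact_mod_cast hk2) (by exact_mod_cast hne)
    (by exact_mod_cast le_max_left k1 k2) (by exact_mod_cast le_max_right k1 k2)
    hmax (by omega) (by omega) (by omega) (by omega)
    (tri_eq_iff_sq.mp e1) (tri_eq_iff_sq.mp e2) (tri_eq_iff_sq.mp e1') (tri_eq_iff_sq.mp e2')
    (by have : (b : ℤ) < b' := by exact_mod_cast hlt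
        linarith)
  have hgap' : 4 * (2 * (b : ℝ) + 1) ^ 3 ≤ (2 * (b' : ℝ) + 1) ^ 2 := by exact_mod_cast hgap
  have hlog := Real.log_le_log (by positivity) hgap'
  rw [Real.log_mul (by norm_num) (by positivity), Real.log_pow, Real.log_pow] at hlog
  have h4 : 0 ≤ Real.log 4 := Real.log_nonneg (by norm_num)
  unfold ell
  push_cast at hlog
  linarith

/-- The bound on the number of `b ≤ n` with a given pair of small quotients. -/
noncomputable def G (n : ℕ) : ℝ := 1 + Real.log (ell n) / Real.log (3 / 2)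

lemma count_pair {n0 n k1 k2 : ℕ} (hL : ∀ b, n0 < b → Large b) (hn : 1 ≤ n) (hne : k1 ≠ k2) :
    (((Finset.Ioc n0 n).filter (fun b => k1 ∈ KY b ∧ k2 ∈ KY b)).card : ℝ) ≤ G n := by
  set B := (Finset.Ioc n0 n).filter (fun b => k1 ∈ KY b ∧ k2 ∈ KY b) with hB
  have hmem : ∀ b ∈ B, n0 < b ∧ b ≤ n ∧ k1 ∈ KY b ∧ k2 ∈ KY b := by
    intro b hb
    rw [hB, Finset.mem_filter, Finset.mem_Ioc] at hb
    exact ⟨hb.1.1, hb.1.2, hb.2.1, hb.2.2⟩
  have h := gap_card B.card B n rfl hn (fun b hb => by have := (hmem b hb).1; omega)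
    (fun b hb => (hmem b hb).2.1)
    (fun b hb b' hb' hlt => pair_ell (hL b (hmem b hb).1) hne (hmem b hb).2.2.1 (hmem b hb).2.2.2
      (hmem b' hb').2.2.1 (hmem b' hb').2.2.2 hlt)
  have hl := one_le_ell hn
  have h2 := Real.log_le_log (by positivity) h
  rw [Real.log_pow, Real.log_mul (by norm_num) (by linarith)] at h2
  have h3 : 0 < Real.log (3 / 2) := Real.log_pos (by norm_num)
  unfold G
  rw [← sub_le_iff_le_add', le_div_iff₀ h3]
  linarith

lemma G_nonneg {n : ℕ} (hn : 1 ≤ n) : 0 ≤ G n := by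
  unfold G
  have h1 := Real.log_nonneg (one_le_ell hn)
  have h3 : 0 < Real.log (3 / 2) := Real.log_pos (by norm_num)
  positivity

/-- Sum of the off-diagonal sums. -/
lemma sum_R_le {n0 n : ℕ} (hL : ∀ b, n0 < b → Large b) (hn : 1 ≤ n) :
    ∑ b ∈ Finset.Ioc n0 n, R b ≤ ((L n) ^ (1 / 4 : ℝ)) ^ 2 * G n := by
  set m := ⌊Real.exp ((L n) ^ (1 / 4 : ℝ))⌋₊ with hm
  have hLnn : 0 ≤ (L n) ^ (1 / 4 : ℝ) := Real.rpow_nonneg (L_nonneg n) _
  have hm1 : 1 ≤ m := by
    rw [hm]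
    apply Nat.le_floor
    simpa using Real.one_le_exp hLnn
  have hsub : ∀ b ∈ Finset.Ioc n0 n, KY b ⊆ Finset.Icc 2 m := by
    intro b hb k hk
    rw [Finset.mem_Ioc] at hb
    obtain ⟨hk1, hk2⟩ := mem_KY.mp hk
    have h2 := two_le_of_mem_K hk1
    rw [Finset.mem_Icc]
    refine ⟨h2, ?_⟩
    apply Nat.le_floor
    have hk0 : (0 : ℝ) < k := by
      have : 0 < k := by omega
      exact_mod_cast this
    rw [← Real.exp_log hk0]
    apply Real.exp_le_exp.mpr
    refine hk2.trans ?_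
    apply Real.rpow_le_rpow (L_nonneg b) (L_mono (by omega) hb.2) (by norm_num)
  have h1 : ∀ b ∈ Finset.Ioc n0 n, R b = ∑ x ∈ (Finset.Icc 2 m).offDiag,
      if (x.1 ∈ KY b ∧ x.2 ∈ KY b) then (1 : ℝ) / ((x.1 : ℝ) * x.2) else 0 := by
    intro b hb
    rw [← Finset.sum_filter]
    unfold R
    apply Finset.sum_congr _ (fun _ _ => rfl)
    ext x
    rw [Finset.mem_filter, Finset.mem_offDiag, Finset.mem_offDiag]
    constructor
    · rintro ⟨a1, a2, a3⟩
      exact ⟨⟨hsub b hb a1, hsub b hb a2, a3⟩, a1, a2⟩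
    · rintro ⟨⟨_, _, a3⟩, a1, a2⟩
      exact ⟨a1, a2, a3⟩
  rw [Finset.sum_congr rfl h1, Finset.sum_comm]
  have h2 : ∀ x ∈ (Finset.Icc 2 m).offDiag, (∑ b ∈ Finset.Ioc n0 n,
      if (x.1 ∈ KY b ∧ x.2 ∈ KY b) then (1 : ℝ) / ((x.1 : ℝ) * x.2) else 0) ≤
      (1 : ℝ) / ((x.1 : ℝ) * x.2) * G n := by
    intro x hx
    rw [Finset.mem_offDiag] at hx
    rw [← Finset.sum_filter, Finset.sum_const, nsmul_eq_mul, mul_comm]
    exact mul_le_mul_of_nonneg_left (count_pair hL hn hx.2.2) (by positivity)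
  refine (Finset.sum_le_sum h2).trans ?_
  rw [← Finset.sum_mul]
  apply mul_le_mul_of_nonneg_right _ (G_nonneg hn)
  have h3 : ∑ x ∈ (Finset.Icc 2 m).offDiag, (1 : ℝ) / ((x.1 : ℝ) * x.2) ≤
      ∑ x ∈ Finset.Icc 2 m ×ˢ Finset.Icc 2 m, (1 : ℝ) / ((x.1 : ℝ) * x.2) := by
    apply Finset.sum_le_sum_of_subset_of_nonneg
    · intro x hx
      rw [Finset.mem_offDiag] at hx
      rw [Finset.mem_product]
      exact ⟨hx.1, hx.2.1⟩
    · intro x _ _; positivity
  have h4 : ∑ x ∈ Finset.Icc 2 m ×ˢ Finset.Icc 2 m, (1 : ℝ) / ((x.1 : ℝ) * x.2) =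
      (∑ k ∈ Finset.Icc 2 m, (1 : ℝ) / k) ^ 2 := by
    rw [sq, Finset.sum_mul_sum, ← Finset.sum_product']
    apply Finset.sum_congr rfl
    intro x _
    rw [one_div, one_div, one_div, mul_inv]
  rw [h4] at h3
  refine h3.trans ?_
  apply pow_le_pow_left₀
  · apply Finset.sum_nonneg; intro k _; positivity
  · refine (sum_inv_le_log m hm1).trans ?_
    have hm0 : (0 : ℝ) < m := by exact_mod_cast hm1
    rw [← Real.log_exp ((L n) ^ (1 / 4 : ℝ))]
    apply Real.log_le_log hm0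
    exact Nat.floor_le (Real.exp_pos _).le

/-- The bad numbers. -/
noncomputable def bad (n0 n : ℕ) : Finset ℕ := (Finset.Ioc n0 n).filter (fun b => ¬ R b ≤ 1 / 16)

lemma card_bad_le {n0 n : ℕ} (hL : ∀ b, n0 < b → Large b) (hn : 1 ≤ n) :
    ((bad n0 n).card : ℝ) ≤ 16 * (((L n) ^ (1 / 4 : ℝ)) ^ 2 * G n) := by
  have h1 := sum_R_le hL hn
  have h2 : ((bad n0 n).card : ℝ) * (1 / 16) ≤ ∑ b ∈ Finset.Ioc n0 n, R b := by
    calc ((bad n0 n).card : ℝ) * (1 / 16) = ∑ b ∈ bad n0 n, (1 / 16 : ℝ) := by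
          rw [Finset.sum_const, nsmul_eq_mul]
      _ ≤ ∑ b ∈ bad n0 n, R b := by
          apply Finset.sum_le_sum
          intro b hb
          unfold bad at hb
          rw [Finset.mem_filter] at hb
          have := hb.2
          push Not at this
          exact this.le
      _ ≤ ∑ b ∈ Finset.Ioc n0 n, R b := by
          apply Finset.sum_le_sum_of_subset_of_nonneg
          · unfold bad; exact Finset.filter_subset _ _
          · intro b _ _; exact R_nonneg b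
  linarith

end Pool.Agent.Lib_helper91
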