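import Mathlib
import Pool.Agent.Lib_helper91.TriCount

set_option autoImplicit false

namespace Pool.Agent.Lib_helper91

open Finset Filter Topology

/-! ### Asymptotic inequalities -/

lemma ev_c1 : ∀ᶠ x : ℝ in atTop,
    Real.exp (x ^ (1 / 4 : ℝ) * x ^ (-(1 / 3) : ℝ)) ≤ 21 / 20 := by
  have h1 : Tendsto (fun x : ℝ => x ^ (-(1 / 12) : ℝ)) atTop (𝓝 0) :=
    tendsto_rpow_neg_atTop (by norm_num)
  have h2 : Tendsto (fun x : ℝ => Real.exp (x ^ (-(1 / 12) : ℝ))) atTop (𝓝 1) := by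
    have := (Real.continuous_exp.tendsto 0).comp h1
    simpa [Function.comp_def] using this
  have h3 := h2.eventually (gt_mem_nhds (show (1 : ℝ) < 21 / 20 by norm_num))
  filter_upwards [h3, eventually_gt_atTop 0] with x hx hx0
  have : x ^ (1 / 4 : ℝ) * x ^ (-(1 / 3) : ℝ) = x ^ (-(1 / 12) : ℝ) := by
    rw [← Real.rpow_add hx0]; norm_num
  rw [this]
  exact le_of_lt hx

lemma ev_c2 : ∀ᶠ x : ℝ in atTop, x ^ (-(1 / 3) : ℝ) ≤ 1 / 20 := by
  have h1 : Tendsto (fun x : ℝ => x ^ (-(1 / 3) : ℝ)) atTop (𝓝 0) :=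
    tendsto_rpow_neg_atTop (by norm_num)
  have h3 := h1.eventually (gt_mem_nhds (show (0 : ℝ) < 1 / 20 by norm_num))
  filter_upwards [h3] with x hx
  exact le_of_lt hx

lemma ev_c3 : ∀ᶠ x : ℝ in atTop,
    Real.exp (-(7 / 60) * x ^ (1 / 4 : ℝ) + 42 * x ^ (1 / 6 : ℝ)) ≤ 1 / 20 := by
  have h1 : Tendsto (fun x : ℝ => x ^ (1 / 12 : ℝ)) atTop atTop :=
    tendsto_rpow_atTop (by norm_num)
  have h2 : Tendsto (fun x : ℝ => x ^ (1 / 6 : ℝ)) atTop atTop :=
    tendsto_rpow_atTop (by norm_num)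
  have h3 := h1.eventually (eventually_ge_atTop (420 : ℝ))
  have h4 := h2.eventually (eventually_ge_atTop (3 : ℝ))
  filter_upwards [h3, h4, eventually_gt_atTop 0] with x hx3 hx4 hx0
  have e1 : x ^ (1 / 4 : ℝ) = x ^ (1 / 6 : ℝ) * x ^ (1 / 12 : ℝ) := by
    rw [← Real.rpow_add hx0]; norm_num
  have h5 : -(7 / 60) * x ^ (1 / 4 : ℝ) + 42 * x ^ (1 / 6 : ℝ) ≤ -3 := by
    rw [e1]
    have : x ^ (1 / 6 : ℝ) * 420 ≤ x ^ (1 / 6 : ℝ) * x ^ (1 / 12 : ℝ) :=
      mul_le_mul_of_nonneg_left hx3 (by linarith)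
    linarith
  refine (Real.exp_le_exp.mpr h5).trans ?_
  rw [Real.exp_neg]
  have h6 : (20 : ℝ) ≤ Real.exp 3 := by
    have h7 := Real.exp_one_gt_d9
    have h8 : Real.exp 3 = Real.exp 1 ^ 3 := by
      rw [← Real.exp_nat_mul]; norm_num
    rw [h8]
    calc (20 : ℝ) ≤ 2.718 ^ 3 := by norm_num
      _ ≤ Real.exp 1 ^ 3 := by
        apply pow_le_pow_left₀ (by norm_num)
        linarith
  rw [inv_le_comm₀ (Real.exp_pos _) (by norm_num)]
  norm_num
  linarith

lemma ev_c4 : ∀ᶠ x : ℝ in atTop, 5 * x ^ (1 / 4 : ℝ) ≤ x / 2 := by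
  have h1 : Tendsto (fun x : ℝ => x ^ (3 / 4 : ℝ)) atTop atTop :=
    tendsto_rpow_atTop (by norm_num)
  filter_upwards [h1.eventually (eventually_ge_atTop (10 : ℝ)), eventually_gt_atTop 0] with x hx hx0
  have e1 : x = x ^ (1 / 4 : ℝ) * x ^ (3 / 4 : ℝ) := by
    rw [← Real.rpow_add hx0]; norm_num
  have h2 : 0 ≤ x ^ (1 / 4 : ℝ) := by positivity
  have h3 := mul_le_mul_of_nonneg_left hx h2
  rw [← e1] at h3
  linarith

lemma ev_log1 : ∀ᶠ x : ℝ in atTop, 1 + Real.log x / Real.log (3 / 2) ≤ x ^ (1 / 24 : ℝ) := by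
  have h1 : (fun x : ℝ => 1 + Real.log x / Real.log (3 / 2)) =o[atTop] (fun x : ℝ => x ^ (1 / 24 : ℝ)) := by
    apply Asymptotics.IsLittleO.add
    · rw [Asymptotics.isLittleO_const_left]
      right
      exact tendsto_norm_atTop_atTop.comp (tendsto_rpow_atTop (by norm_num))
    · have h2 := isLittleO_log_rpow_atTop (r := 1 / 24) (by norm_num)
      have h3 := h2.const_mul_left (Real.log (3 / 2))⁻¹
      refine h3.congr_left ?_
      intro x
      exact (div_eq_inv_mul _ _).symm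
  have h2 := h1.bound (c := 1) (by norm_num)
  filter_upwards [h2, eventually_ge_atTop 1] with x hx hx1
  rw [Real.norm_eq_abs, Real.norm_eq_abs, one_mul, abs_of_nonneg (by positivity : 0 ≤ x ^ (1 / 24 : ℝ))] at hx
  exact (le_abs_self _).trans hx

lemma ev_log2 : ∀ᶠ x : ℝ in atTop, Real.log (2 * x ^ (1 / 4 : ℝ) + 1) ≤ x ^ (1 / 24 : ℝ) := by
  have h1 : (fun x : ℝ => Real.log 3 + Real.log x) =o[atTop] (fun x : ℝ => x ^ (1 / 24 : ℝ)) := by
    apply Asymptotics.IsLittleO.add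
    · rw [Asymptotics.isLittleO_const_left]
      right
      exact tendsto_norm_atTop_atTop.comp (tendsto_rpow_atTop (by norm_num))
    · exact isLittleO_log_rpow_atTop (r := 1 / 24) (by norm_num)
  have h2 := h1.bound (c := 1) (by norm_num)
  filter_upwards [h2, eventually_ge_atTop 1] with x hx hx1
  rw [Real.norm_eq_abs, Real.norm_eq_abs, one_mul, abs_of_nonneg (by positivity : 0 ≤ x ^ (1 / 24 : ℝ))] at hx
  refine le_trans ?_ ((le_abs_self _).trans hx)
  rw [← Real.log_mul (by norm_num) (by positivity)]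
  apply Real.log_le_log (by positivity)
  have : x ^ (1 / 4 : ℝ) ≤ x := by
    calc x ^ (1 / 4 : ℝ) ≤ x ^ (1 : ℝ) := Real.rpow_le_rpow_of_exponent_le hx1 (by norm_num)
      _ = x := Real.rpow_one x
  linarith

lemma ev_c5 : ∀ᶠ x : ℝ in atTop,
    16 * ((x ^ (1 / 4 : ℝ)) ^ 2 * (1 + Real.log x / Real.log (3 / 2))) *
      Real.log (2 * x ^ (1 / 4 : ℝ) + 1) ≤ 1 / 2 * x ^ (2 / 3 : ℝ) := by
  have h1 : Tendsto (fun x : ℝ => x ^ (1 / 12 : ℝ)) atTop atTop :=
    tendsto_rpow_atTop (by norm_num)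
  filter_upwards [ev_log1, ev_log2, h1.eventually (eventually_ge_atTop (32 : ℝ)),
    eventually_ge_atTop 1] with x hx1 hx2 hx3 hx
  have hx0 : 0 < x := by linarith
  have e1 : (x ^ (1 / 4 : ℝ)) ^ 2 = x ^ (1 / 2 : ℝ) := by
    rw [← Real.rpow_natCast, ← Real.rpow_mul hx0.le]; norm_num
  have e2 : x ^ (2 / 3 : ℝ) = x ^ (1 / 2 : ℝ) * x ^ (1 / 24 : ℝ) * x ^ (1 / 24 : ℝ) *
      x ^ (1 / 12 : ℝ) := by
    rw [← Real.rpow_add hx0, ← Real.rpow_add hx0, ← Real.rpow_add hx0]; norm_num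
  have h3 : 0 < Real.log (3 / 2) := Real.log_pos (by norm_num)
  have h4 : 0 ≤ 1 + Real.log x / Real.log (3 / 2) := by
    have := Real.log_nonneg hx
    positivity
  have h5 : 0 ≤ Real.log (2 * x ^ (1 / 4 : ℝ) + 1) := by
    apply Real.log_nonneg
    have : 0 ≤ x ^ (1 / 4 : ℝ) := by positivity
    linarith
  have hp : 0 ≤ x ^ (1 / 2 : ℝ) := by positivity
  have hq : 0 ≤ x ^ (1 / 24 : ℝ) := by positivity
  rw [e1, e2]
  have h6 : x ^ (1 / 2 : ℝ) * (1 + Real.log x / Real.log (3 / 2)) ≤ x ^ (1 / 2 : ℝ) * x ^ (1 / 24 : ℝ) :=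
    mul_le_mul_of_nonneg_left hx1 hp
  have h7 : x ^ (1 / 2 : ℝ) * (1 + Real.log x / Real.log (3 / 2)) * Real.log (2 * x ^ (1 / 4 : ℝ) + 1) ≤
      x ^ (1 / 2 : ℝ) * x ^ (1 / 24 : ℝ) * x ^ (1 / 24 : ℝ) :=
    mul_le_mul h6 hx2 h5 (by positivity)
  have h8 : 0 ≤ x ^ (1 / 2 : ℝ) * x ^ (1 / 24 : ℝ) * x ^ (1 / 24 : ℝ) := by positivity
  have h9 := mul_le_mul_of_nonneg_left hx3 h8
  calc 16 * (x ^ (1 / 2 : ℝ) * (1 + Real.log x / Real.log (3 / 2))) *
      Real.log (2 * x ^ (1 / 4 : ℝ) + 1)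
      = 16 * (x ^ (1 / 2 : ℝ) * (1 + Real.log x / Real.log (3 / 2)) *
        Real.log (2 * x ^ (1 / 4 : ℝ) + 1)) := by ring
    _ ≤ 16 * (x ^ (1 / 2 : ℝ) * x ^ (1 / 24 : ℝ) * x ^ (1 / 24 : ℝ)) := by linarith
    _ ≤ _ := by linarith

lemma tendsto_L : Tendsto L atTop atTop := by
  have h1 : Tendsto (fun n : ℕ => (tri n : ℝ)) atTop atTop :=
    tendsto_natCast_atTop_atTop.comp tri_strictMono.tendsto_atTop
  exact Real.tendsto_log_atTop.comp h1

lemma sq_eq_tri (n : ℕ) : (2 * (n : ℝ) + 1) ^ 2 = 8 * (tri n : ℝ) + 1 := by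
  have h := two_mul_tri n
  have h' : 2 * (tri n : ℝ) = n * (n + 1) := by exact_mod_cast h
  linarith [h', show (2 * (n : ℝ) + 1) ^ 2 = 4 * (n * (n + 1)) + 1 by ring]

lemma L_le_two_ell {n : ℕ} (hn : 1 ≤ n) : L n ≤ 2 * ell n := by
  unfold L ell
  have h1 := sq_eq_tri n
  have h2 : (1 : ℝ) ≤ tri n := by exact_mod_cast tri_pos hn
  have h3 : Real.log (tri n) ≤ Real.log ((2 * (n : ℝ) + 1) ^ 2) := by
    apply Real.log_le_log (by linarith)
    linarith
  rwa [Real.log_pow] at h3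

lemma two_ell_le {n : ℕ} (hn : 1 ≤ n) : 2 * ell n ≤ Real.log 9 + L n := by
  unfold L ell
  have h1 := sq_eq_tri n
  have h2 : (1 : ℝ) ≤ tri n := by exact_mod_cast tri_pos hn
  have h3 : Real.log ((2 * (n : ℝ) + 1) ^ 2) ≤ Real.log (9 * tri n) := by
    apply Real.log_le_log (by positivity)
    linarith
  rw [Real.log_pow, Real.log_mul (by norm_num) (by linarith)] at h3
  exact_mod_cast h3

lemma exists_large : ∃ n0 : ℕ, 1 ≤ n0 ∧ ∀ b, n0 < b → Large b := by
  have h : ∀ᶠ n : ℕ in atTop, Large n := by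
    filter_upwards [tendsto_L.eventually ev_c1, tendsto_L.eventually ev_c2,
      tendsto_L.eventually ev_c3, tendsto_L.eventually ev_c4, eventually_ge_atTop 2]
      with n h1 h2 h3 h4 h5
    refine ⟨h5, h1, h2, h3, ?_⟩
    have := L_le_two_ell (n := n) (by omega)
    unfold ell at this
    linarith
  obtain ⟨n0, hn0⟩ := eventually_atTop.mp h
  exact ⟨max n0 1, le_max_right _ _, fun b hb => hn0 b (by
    have := le_max_left n0 1
    omega)⟩

/-! ### The pointwise bound -/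

lemma rpow_two_thirds_sub {x y : ℝ} (hx : 0 ≤ x) (hxy : x ≤ y) (hy : 0 < y) :
    y ^ (2 / 3 : ℝ) ≤ x ^ (2 / 3 : ℝ) + (y - x) * y ^ (-(1 / 3) : ℝ) := by
  have e1 : y ^ (2 / 3 : ℝ) = y * y ^ (-(1 / 3) : ℝ) := by
    calc y ^ (2 / 3 : ℝ) = y ^ ((1 : ℝ) + (-(1 / 3))) := by norm_num
      _ = y ^ (1 : ℝ) * y ^ (-(1 / 3) : ℝ) := Real.rpow_add hy _ _
      _ = _ := by rw [Real.rpow_one]
  have e2 : x * y ^ (-(1 / 3) : ℝ) ≤ x ^ (2 / 3 : ℝ) := by
    rcases hx.eq_or_lt with h | h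
    · rw [← h]; simp
    · have e3 : x ^ (2 / 3 : ℝ) = x * x ^ (-(1 / 3) : ℝ) := by
        calc x ^ (2 / 3 : ℝ) = x ^ ((1 : ℝ) + (-(1 / 3))) := by norm_num
          _ = x ^ (1 : ℝ) * x ^ (-(1 / 3) : ℝ) := Real.rpow_add h _ _
          _ = _ := by rw [Real.rpow_one]
      rw [e3]
      apply mul_le_mul_of_nonneg_left _ hx
      exact Real.rpow_le_rpow_of_nonpos h hxy (by norm_num)
  rw [e1]
  linarith

section
variable {a : ℕ → ℝ} (ha0 : ∀ n, 0 ≤ a n) (hrec : ∀ n, 2 ≤ n → a n ≤ ∑ d ∈ pre n, a d)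

/-- weighted value -/
noncomputable def u (a : ℕ → ℝ) (n : ℕ) : ℝ := a n / tri n * Real.exp ((L n) ^ (2 / 3 : ℝ))

include ha0 in
lemma u_nonneg (n : ℕ) : 0 ≤ u a n := by
  unfold u
  have := ha0 n
  positivity

include ha0 hrec in
lemma u_rec {n : ℕ} (hn : 2 ≤ n) :
    u a n ≤ ∑ d ∈ pre n, u a d * ((1 : ℝ) / quo n d *
      Real.exp (Real.log (quo n d) * (L n) ^ (-(1 / 3) : ℝ))) := by
  unfold u
  have htn : (0 : ℝ) < tri n := by exact_mod_cast tri_pos (by omega : 1 ≤ n)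
  calc a n / tri n * Real.exp ((L n) ^ (2 / 3 : ℝ))
      ≤ (∑ d ∈ pre n, a d) / tri n * Real.exp ((L n) ^ (2 / 3 : ℝ)) := by
        apply mul_le_mul_of_nonneg_right _ (Real.exp_pos _).le
        exact div_le_div_of_nonneg_right (hrec n hn) htn.le
    _ = ∑ d ∈ pre n, a d / tri n * Real.exp ((L n) ^ (2 / 3 : ℝ)) := by
        rw [Finset.sum_div, Finset.sum_mul]
    _ ≤ _ := by
        apply Finset.sum_le_sum
        intro d hd
        have hd' := mem_pre.mp hd
        have htd : (0 : ℝ) < tri d := by exact_mod_cast tri_pos hd'.1.1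
        have hq : (0 : ℝ) < quo n d := by
          have : 0 < quo n d := by have := two_le_quo hd; omega
          exact_mod_cast this
        have hmul : (tri n : ℝ) = quo n d * tri d := by exact_mod_cast tri_eq_quo hd
        have hL : L n = Real.log (quo n d) + L d := by
          unfold L
          rw [hmul, Real.log_mul hq.ne' htd.ne']
        have hlogq : 0 ≤ Real.log (quo n d) := Real.log_natCast_nonneg _
        have hkey := rpow_two_thirds_sub (L_nonneg d) (by linarith : L d ≤ L n) (L_pos hn)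
        have e1 : L n - L d = Real.log (quo n d) := by linarith
        rw [e1] at hkey
        have e2 : a d / tri n = a d / tri d * (1 / quo n d) := by
          rw [hmul]; field_simp
        rw [e2]
        have h3 : Real.exp ((L n) ^ (2 / 3 : ℝ)) ≤ Real.exp ((L d) ^ (2 / 3 : ℝ)) *
            Real.exp (Real.log (quo n d) * (L n) ^ (-(1 / 3) : ℝ)) := by
          rw [← Real.exp_add]
          exact Real.exp_le_exp.mpr hkey
        have h4 : 0 ≤ a d / tri d * (1 / quo n d) := by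
          have := ha0 d
          positivity
        calc a d / tri d * (1 / quo n d) * Real.exp ((L n) ^ (2 / 3 : ℝ))
            ≤ a d / tri d * (1 / quo n d) * (Real.exp ((L d) ^ (2 / 3 : ℝ)) *
              Real.exp (Real.log (quo n d) * (L n) ^ (-(1 / 3) : ℝ))) :=
              mul_le_mul_of_nonneg_left h3 h4
          _ = _ := by ring

include ha0 hrec in
lemma u_bound {n0 : ℕ} (hn0 : 1 ≤ n0) :
    ∀ n, ∀ d, 1 ≤ d → d ≤ n → u a d ≤ (∑ e ∈ Finset.Icc 1 n0, u a e) *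
      ∏ b ∈ Finset.Ioc n0 n, max 1 (s b) := by
  set V0 := ∑ e ∈ Finset.Icc 1 n0, u a e with hV0
  have hV0nn : 0 ≤ V0 := by
    rw [hV0]; exact Finset.sum_nonneg (fun e _ => u_nonneg ha0 e)
  have hsmall : ∀ d, 1 ≤ d → d ≤ n0 → u a d ≤ V0 := by
    intro d hd1 hd2
    rw [hV0]
    exact Finset.single_le_sum (f := fun e => u a e) (fun e _ => u_nonneg ha0 e)
      (Finset.mem_Icc.mpr ⟨hd1, hd2⟩)
  intro n
  induction n with
  | zero => intro d hd1 hd2; omega
  | succ n ih =>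
    intro d hd1 hd2
    rcases Nat.lt_or_ge n0 (n + 1) with hlt | hge
    · have hins : Finset.Ioc n0 (n + 1) = insert (n + 1) (Finset.Ioc n0 n) := by
        ext x; simp only [Finset.mem_Ioc, Finset.mem_insert]; omega
      have hnot : (n + 1) ∉ Finset.Ioc n0 n := by simp
      rw [hins, Finset.prod_insert hnot]
      set H := ∏ b ∈ Finset.Ioc n0 n, max 1 (s b) with hH
      have hH1 : 0 ≤ H := by
        rw [hH]; apply Finset.prod_nonneg; intro b _; exact le_trans zero_le_one (le_max_left _ _)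
      have hVH : 0 ≤ V0 * H := mul_nonneg hV0nn hH1
      rcases Nat.lt_or_ge d (n + 1) with hd | hd
      · have h1 := ih d hd1 (by omega)
        calc u a d ≤ V0 * H := h1
          _ = 1 * (V0 * H) := by ring
          _ ≤ max 1 (s (n + 1)) * (V0 * H) :=
              mul_le_mul_of_nonneg_right (le_max_left _ _) hVH
          _ = _ := by ring
      · have hd' : d = n + 1 := by omega
        subst hd'
        have h1 := u_rec ha0 hrec (n := n + 1) (by omega)
        refine h1.trans ?_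
        have h2 : ∑ d ∈ pre (n + 1), u a d * ((1 : ℝ) / quo (n + 1) d *
            Real.exp (Real.log (quo (n + 1) d) * (L (n + 1)) ^ (-(1 / 3) : ℝ))) ≤
            ∑ d ∈ pre (n + 1), (V0 * H) * ((1 : ℝ) / quo (n + 1) d *
            Real.exp (Real.log (quo (n + 1) d) * (L (n + 1)) ^ (-(1 / 3) : ℝ))) := by
          apply Finset.sum_le_sum
          intro d hd
          have hd' := mem_pre.mp hd
          apply mul_le_mul_of_nonneg_right _ (by positivity)
          exact ih d hd'.1.1 (by omega)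
        refine h2.trans ?_
        rw [← Finset.mul_sum, sum_K (fun k => (1 : ℝ) / k *
            Real.exp (Real.log k * (L (n + 1)) ^ (-(1 / 3) : ℝ)))]
        have h3 : (∑ k ∈ K (n + 1), (1 : ℝ) / k *
            Real.exp (Real.log k * (L (n + 1)) ^ (-(1 / 3) : ℝ))) = s (n + 1) := rfl
        rw [h3]
        calc V0 * H * s (n + 1) ≤ V0 * H * max 1 (s (n + 1)) :=
              mul_le_mul_of_nonneg_left (le_max_right _ _) hVH
          _ = _ := by ring
    · have hemp : Finset.Ioc n0 (n + 1) = ∅ := Finset.Ioc_eq_empty (by omega)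
      rw [hemp, Finset.prod_empty, mul_one]
      exact hsmall d hd1 (by omega)
end

lemma prod_s_le {n0 n : ℕ} (hL : ∀ b, n0 < b → Large b) (hn : 1 ≤ n) :
    ∏ b ∈ Finset.Ioc n0 n, max 1 (s b) ≤
      Real.exp (16 * (((L n) ^ (1 / 4 : ℝ)) ^ 2 * G n) *
        Real.log (2 * (L n) ^ (1 / 4 : ℝ) + 1)) := by
  set c : ℝ := 2 * (L n) ^ (1 / 4 : ℝ) + 1 with hc
  have hLn : 0 ≤ (L n) ^ (1 / 4 : ℝ) := Real.rpow_nonneg (L_nonneg n) _
  have hc1 : 1 ≤ c := by rw [hc]; linarith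
  have h1 : ∏ b ∈ Finset.Ioc n0 n, max 1 (s b) ≤
      ∏ b ∈ Finset.Ioc n0 n, (if R b ≤ 1 / 16 then 1 else c) := by
    apply Finset.prod_le_prod
    · intro b _; exact le_trans zero_le_one (le_max_left _ _)
    · intro b hb
      rw [Finset.mem_Ioc] at hb
      have hlb := hL b hb.1
      split_ifs with hR
      · exact max_le le_rfl (s_le_one_of_good hlb hR)
      · apply max_le hc1
        refine (s_le_of_large hlb).trans ?_
        have : (L b) ^ (1 / 4 : ℝ) ≤ (L n) ^ (1 / 4 : ℝ) :=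
          Real.rpow_le_rpow (L_nonneg b) (L_mono (by omega) hb.2) (by norm_num)
        rw [hc]; linarith
  refine h1.trans ?_
  rw [Finset.prod_ite]
  simp only [Finset.prod_const_one, one_mul, Finset.prod_const]
  have h2 : ((Finset.Ioc n0 n).filter (fun b => ¬ R b ≤ 1 / 16)) = bad n0 n := rfl
  rw [h2]
  have h3 : c ^ (bad n0 n).card = Real.exp (((bad n0 n).card : ℝ) * Real.log c) := by
    rw [mul_comm, Real.exp_mul, Real.exp_log (by linarith), Real.rpow_natCast]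
  rw [h3]
  apply Real.exp_le_exp.mpr
  exact mul_le_mul_of_nonneg_right (card_bad_le hL hn) (Real.log_nonneg hc1)

/-- Pointwise bound. -/
theorem pointwise {a : ℕ → ℝ} (ha0 : ∀ n, 0 ≤ a n)
    (hrec : ∀ n, 2 ≤ n → a n ≤ ∑ d ∈ pre n, a d) :
    ∃ C : ℝ, 0 ≤ C ∧ ∀ n, 1 ≤ n → a n / tri n ≤ C * Real.exp (-(1 / 2) * (L n) ^ (2 / 3 : ℝ)) := by
  obtain ⟨n0, hn0, hL⟩ := exists_large
  set V0 := ∑ e ∈ Finset.Icc 1 n0, u a e with hV0
  have hV0nn : 0 ≤ V0 := by
    rw [hV0]; exact Finset.sum_nonneg (fun e _ => u_nonneg ha0 e)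
  have hev : ∀ᶠ n : ℕ in atTop, a n / tri n ≤ V0 * Real.exp (-(1 / 2) * (L n) ^ (2 / 3 : ℝ)) := by
    filter_upwards [tendsto_L.eventually ev_c5, tendsto_L.eventually (eventually_ge_atTop (Real.log 9)),
      eventually_ge_atTop 1] with n h5 h9 hn1
    have h1 := u_bound ha0 hrec hn0 n n hn1 le_rfl
    have h2 := prod_s_le hL hn1
    have hG : G n ≤ 1 + Real.log (L n) / Real.log (3 / 2) := by
      unfold G
      have h3 : 0 < Real.log (3 / 2) := Real.log_pos (by norm_num)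
      have h4 : ell n ≤ L n := by
        have := two_ell_le hn1
        linarith
      have h5 := Real.log_le_log (by linarith [one_le_ell hn1]) h4
      have := div_le_div_of_nonneg_right h5 h3.le
      linarith
    have hlogc : 0 ≤ Real.log (2 * (L n) ^ (1 / 4 : ℝ) + 1) := by
      apply Real.log_nonneg
      have : 0 ≤ (L n) ^ (1 / 4 : ℝ) := Real.rpow_nonneg (L_nonneg n) _
      linarith
    have h3 : 16 * (((L n) ^ (1 / 4 : ℝ)) ^ 2 * G n) * Real.log (2 * (L n) ^ (1 / 4 : ℝ) + 1) ≤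
        1 / 2 * (L n) ^ (2 / 3 : ℝ) := by
      refine le_trans ?_ h5
      apply mul_le_mul_of_nonneg_right _ hlogc
      apply mul_le_mul_of_nonneg_left _ (by norm_num)
      exact mul_le_mul_of_nonneg_left hG (by positivity)
    have h4 : u a n ≤ V0 * Real.exp (1 / 2 * (L n) ^ (2 / 3 : ℝ)) := by
      refine h1.trans (mul_le_mul_of_nonneg_left (h2.trans ?_) hV0nn)
      exact Real.exp_le_exp.mpr h3
    unfold u at h4
    have h6 : a n / tri n = (a n / tri n * Real.exp ((L n) ^ (2 / 3 : ℝ))) *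
        Real.exp (-((L n) ^ (2 / 3 : ℝ))) := by
      rw [mul_assoc, ← Real.exp_add]; simp
    rw [h6]
    calc (a n / tri n * Real.exp ((L n) ^ (2 / 3 : ℝ))) * Real.exp (-((L n) ^ (2 / 3 : ℝ)))
        ≤ (V0 * Real.exp (1 / 2 * (L n) ^ (2 / 3 : ℝ))) * Real.exp (-((L n) ^ (2 / 3 : ℝ))) :=
          mul_le_mul_of_nonneg_right h4 (Real.exp_pos _).le
      _ = V0 * Real.exp (-(1 / 2) * (L n) ^ (2 / 3 : ℝ)) := by
          rw [mul_assoc, ← Real.exp_add]; ring_nf
  obtain ⟨n1, hn1⟩ := eventually_atTop.mp hev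
  set W := ∑ e ∈ Finset.range n1, a e / tri e * Real.exp (1 / 2 * (L e) ^ (2 / 3 : ℝ)) with hW
  have hterm : ∀ e, 0 ≤ a e / tri e * Real.exp (1 / 2 * (L e) ^ (2 / 3 : ℝ)) := by
    intro e; have := ha0 e; positivity
  have hWnn : 0 ≤ W := by rw [hW]; exact Finset.sum_nonneg (fun e _ => hterm e)
  refine ⟨V0 + W, by linarith, ?_⟩
  intro n hn
  rcases Nat.lt_or_ge n n1 with hlt | hge
  · have h1 : a n / tri n * Real.exp (1 / 2 * (L n) ^ (2 / 3 : ℝ)) ≤ W := by
      rw [hW]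
      exact Finset.single_le_sum (f := fun e => a e / tri e * Real.exp (1 / 2 * (L e) ^ (2 / 3 : ℝ)))
        (fun e _ => hterm e) (Finset.mem_range.mpr hlt)
    have h6 : a n / tri n = (a n / tri n * Real.exp (1 / 2 * (L n) ^ (2 / 3 : ℝ))) *
        Real.exp (-(1 / 2) * ((L n) ^ (2 / 3 : ℝ))) := by
      rw [mul_assoc, ← Real.exp_add]; simp
    rw [h6]
    apply mul_le_mul_of_nonneg_right _ (Real.exp_pos _).le
    linarith
  · refine (hn1 n hge).trans ?_
    apply mul_le_mul_of_nonneg_right _ (Real.exp_pos _).le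
    linarith

end Pool.Agent.Lib_helper91
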