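import Mathlib
import Pool.Agent.Lib_helper91.TriPoint

set_option autoImplicit false

namespace Pool.Agent.Lib_helper91

open Finset Filter Topology

/-! ### Convergence of the auxiliary series -/

/-- `1 / (u (log₂ u + 1)^2)` -/
noncomputable def g (n : ℕ) : ℝ := 1 / ((n : ℝ) * ((Nat.log 2 n : ℝ) + 1) ^ 2)

lemma g_nonneg (n : ℕ) : 0 ≤ g n := by unfold g; positivity

lemma summable_h : Summable (fun i : ℕ => (1 : ℝ) / ((i : ℝ) + 1) ^ 2) := by
  have h := (summable_nat_add_iff 1).mpr (Real.summable_one_div_nat_pow.mpr (by norm_num : 1 < 2))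
  refine h.congr ?_
  intro i
  push_cast
  rfl

lemma summable_g : Summable g := by
  rw [← summable_condensed_iff_of_nonneg g_nonneg]
  · refine summable_h.congr ?_
    intro k
    unfold g
    rw [Nat.log_pow (by norm_num)]
    push_cast
    have : (2 : ℝ) ^ k ≠ 0 := by positivity
    field_simp
  · intro m n hm hmn
    unfold g
    have hm' : (0 : ℝ) < m := by exact_mod_cast hm
    apply one_div_le_one_div_of_le (by positivity)
    have h1 : (m : ℝ) ≤ n := by exact_mod_cast hmn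
    have h2 : (Nat.log 2 m : ℝ) ≤ Nat.log 2 n := by exact_mod_cast Nat.log_mono_right hmn
    apply mul_le_mul h1 _ (by positivity) (by positivity)
    apply pow_le_pow_left₀ (by positivity)
    linarith

/-- The majorant on triples. -/
noncomputable def F (y : ℕ × ℕ × ℕ) : ℝ := g y.1 * (g y.2.1 * (1 / ((y.2.2 : ℝ) + 1) ^ 2))

lemma F_nonneg (y : ℕ × ℕ × ℕ) : 0 ≤ F y := by
  unfold F
  have h1 := g_nonneg y.1
  have h2 := g_nonneg y.2.1
  positivity

lemma summable_F : Summable F := by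
  have h1 : Summable (fun z : ℕ × ℕ => g z.1 * (1 / ((z.2 : ℝ) + 1) ^ 2)) :=
    summable_g.mul_of_nonneg summable_h g_nonneg (fun i => by positivity)
  have h2 : Summable (fun y : ℕ × (ℕ × ℕ) => g y.1 * (g y.2.1 * (1 / ((y.2.2 : ℝ) + 1) ^ 2))) :=
    summable_g.mul_of_nonneg h1 g_nonneg (fun z => by
      have := g_nonneg z.1
      positivity)
  exact h2

/-! ### From the exponential bound to a power of the logarithm -/

lemma exp_bound (i : ℕ) : Real.exp (-(1 / 2) * ((i : ℝ) / 2) ^ (2 / 3 : ℝ)) ≤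
    (729 * 512 * 362880) / ((i : ℝ) + 1) ^ 6 := by
  set y : ℝ := ((i : ℝ) / 2) ^ (1 / 3 : ℝ) with hy
  have hi : (0 : ℝ) ≤ (i : ℝ) / 2 := by positivity
  have hy0 : 0 ≤ y := by rw [hy]; positivity
  have e1 : ((i : ℝ) / 2) ^ (2 / 3 : ℝ) = y ^ 2 := by
    rw [hy, ← Real.rpow_natCast, ← Real.rpow_mul hi]; norm_num
  have e2 : (i : ℝ) = 2 * y ^ 3 := by
    rw [hy, ← Real.rpow_natCast, ← Real.rpow_mul hi]
    norm_num
    ring
  rw [le_div_iff₀ (by positivity), e1]
  have h1 : (i : ℝ) + 1 = 2 * y ^ 3 + 1 := by rw [e2]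
  rw [h1]
  have h2 : (y ^ 2 / 2) ^ 9 / (Nat.factorial 9 : ℝ) ≤ Real.exp (y ^ 2 / 2) :=
    Real.pow_div_factorial_le_exp _ (by positivity) 9
  have h9 : (Nat.factorial 9 : ℝ) = 362880 := by norm_num [Nat.factorial]
  rw [h9] at h2
  have h3 : (2 * y ^ 3 + 1) ^ 6 ≤ (729 * 512 * 362880) * Real.exp (y ^ 2 / 2) := by
    have hexp1 : 1 ≤ Real.exp (y ^ 2 / 2) := Real.one_le_exp (by positivity)
    rcases le_total y 1 with hy1 | hy1
    · have h4 : (2 * y ^ 3 + 1) ^ 6 ≤ 3 ^ 6 := by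
        apply pow_le_pow_left₀ (by positivity)
        have : y ^ 3 ≤ 1 := pow_le_one₀ hy0 hy1
        linarith
      calc (2 * y ^ 3 + 1) ^ 6 ≤ 3 ^ 6 := h4
        _ ≤ (729 * 512 * 362880) * 1 := by norm_num
        _ ≤ _ := mul_le_mul_of_nonneg_left hexp1 (by norm_num)
    · have h4 : (2 * y ^ 3 + 1) ^ 6 ≤ (3 * y ^ 3) ^ 6 := by
        apply pow_le_pow_left₀ (by positivity)
        have : 1 ≤ y ^ 3 := one_le_pow₀ hy1
        linarith
      calc (2 * y ^ 3 + 1) ^ 6 ≤ (3 * y ^ 3) ^ 6 := h4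
        _ = (729 * 512 * 362880) * ((y ^ 2 / 2) ^ 9 / 362880) := by ring
        _ ≤ _ := mul_le_mul_of_nonneg_left h2 (by norm_num)
  calc Real.exp (-(1 / 2) * y ^ 2) * (2 * y ^ 3 + 1) ^ 6
      ≤ Real.exp (-(1 / 2) * y ^ 2) * ((729 * 512 * 362880) * Real.exp (y ^ 2 / 2)) :=
        mul_le_mul_of_nonneg_left h3 (Real.exp_pos _).le
    _ = (729 * 512 * 362880) * (Real.exp (-(1 / 2) * y ^ 2) * Real.exp (y ^ 2 / 2)) := by ring
    _ = (729 * 512 * 362880) := by
        rw [← Real.exp_add]; ring_nf; simp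

lemma L_ge_log {n : ℕ} (hn : 1 ≤ n) : (Nat.log 2 n : ℝ) / 2 ≤ L n := by
  unfold L
  have h1 : 2 ^ Nat.log 2 n ≤ n := Nat.pow_log_le_self 2 (by omega)
  have h2 : n ≤ tri n := by
    have := two_mul_tri n
    nlinarith
  have h3 : ((2 : ℝ) ^ Nat.log 2 n) ≤ tri n := by exact_mod_cast h1.trans h2
  have h4 := Real.log_le_log (by positivity) h3
  rw [Real.log_pow] at h4
  have h5 : (1 / 2 : ℝ) ≤ Real.log 2 := by
    have := Real.log_two_gt_d9
    linarith
  have h6 : (0 : ℝ) ≤ Nat.log 2 n := Nat.cast_nonneg _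
  nlinarith

theorem pointwise_log {a : ℕ → ℝ} (ha0 : ∀ n, 0 ≤ a n)
    (hrec : ∀ n, 2 ≤ n → a n ≤ ∑ d ∈ pre n, a d) :
    ∃ C : ℝ, 0 ≤ C ∧ ∀ n, 1 ≤ n → a n / tri n ≤ C / ((Nat.log 2 n : ℝ) + 1) ^ 6 := by
  obtain ⟨C, hC0, hC⟩ := pointwise ha0 hrec
  refine ⟨C * (729 * 512 * 362880), by positivity, ?_⟩
  intro n hn
  refine (hC n hn).trans ?_
  rw [mul_div_assoc]
  apply mul_le_mul_of_nonneg_left _ hC0
  refine le_trans ?_ (exp_bound (Nat.log 2 n))
  apply Real.exp_le_exp.mpr
  have : ((Nat.log 2 n : ℝ) / 2) ^ (2 / 3 : ℝ) ≤ (L n) ^ (2 / 3 : ℝ) :=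
    Real.rpow_le_rpow (by positivity) (L_ge_log hn) (by norm_num)
  linarith

/-! ### The classes -/

/-- The triple attached to a pair `(n, d)`. -/
def cls (x : ℕ × ℕ) : ℕ × ℕ × ℕ :=
  (Nat.gcd (x.1 - x.2) (quo x.1 x.2 - 1),
   (quo x.1 x.2 - 1) / Nat.gcd (x.1 - x.2) (quo x.1 x.2 - 1),
   Nat.log 2 x.2)

lemma cls_mul {n d : ℕ} : (cls (n, d)).1 * (cls (n, d)).2.1 = quo n d - 1 := by
  unfold cls
  exact Nat.mul_div_cancel' (Nat.gcd_dvd_right _ _)

lemma cls_inj {n d n' d' : ℕ} (h : d ∈ pre n) (h' : d' ∈ pre n')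
    (he : cls (n, d) = cls (n', d')) : (n, d) = (n', d') := by
  have hq := two_le_quo h
  have hq' := two_le_quo h'
  have e1 := tri_eq_quo h
  have e1' := tri_eq_quo h'
  have hk : quo n d = quo n' d' := by
    have a1 := cls_mul (n := n) (d := d)
    have a2 := cls_mul (n := n') (d := d')
    rw [he] at a1
    omega
  have hu : Nat.gcd (n - d) (quo n d - 1) = Nat.gcd (n' - d') (quo n' d' - 1) :=
    congrArg Prod.fst he
  have hi : Nat.log 2 d = Nat.log 2 d' := congrArg (fun z => z.2.2) he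
  have hd := (mem_pre.mp h).1
  have hd' := (mem_pre.mp h').1
  have main : ∀ d d' n n' k : ℕ, 2 ≤ k → 1 ≤ d → d < d' → tri n = k * tri d →
      tri n' = k * tri d' → Nat.gcd (n - d) (k - 1) = Nat.gcd (n' - d') (k - 1) →
      Nat.log 2 d ≠ Nat.log 2 d' := by
    intro d d' n n' k hk hd hdd e e' hg hlog
    have h2 := class_gap hk hd hdd e e' rfl hg.symm
    have h3 : Nat.log 2 (2 * d) ≤ Nat.log 2 d' := Nat.log_mono_right h2
    rw [mul_comm, Nat.log_mul_base (by norm_num) (by omega)] at h3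
    omega
  have hdd : d = d' := by
    rcases Nat.lt_trichotomy d d' with hlt | heq | hgt
    · exfalso
      refine main d d' n n' (quo n d) hq hd.1 hlt e1 (by rw [hk]; exact e1') ?_ hi
      rw [hu, hk]
    · exact heq
    · exfalso
      refine main d' d n' n (quo n d) hq hd'.1 hgt (by rw [hk]; exact e1') e1 ?_ hi.symm
      rw [hu, hk]
  subst hdd
  have : tri n = tri n' := by rw [e1, e1', hk]
  have := tri_strictMono.injective this
  rw [this]

lemma tri_le_sq {n : ℕ} (hn : 1 ≤ n) : tri n ≤ n ^ 2 := by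
  have := two_mul_tri n
  nlinarith

lemma quo_lt {n d : ℕ} (h : d ∈ pre n) (hlt : n < d ^ 4) : quo n d < d ^ 8 := by
  have e1 := tri_eq_quo h
  have hd := (mem_pre.mp h).1
  have h1 := tri_le_sq (n := n) (by omega)
  have h2 : n ^ 2 < (d ^ 4) ^ 2 := Nat.pow_lt_pow_left hlt (by norm_num)
  have h3 := tri_pos hd.1
  have h4 : quo n d ≤ tri n := by
    rw [e1]; exact Nat.le_mul_of_pos_right _ h3
  calc quo n d ≤ tri n := h4
    _ ≤ n ^ 2 := h1
    _ < (d ^ 4) ^ 2 := h2
    _ = d ^ 8 := by ring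

lemma term_le {a : ℕ → ℝ} {C : ℝ} (hC0 : 0 ≤ C)
    (hC : ∀ n, 1 ≤ n → a n / tri n ≤ C / ((Nat.log 2 n : ℝ) + 1) ^ 6)
    {n d : ℕ} (h : d ∈ pre n) (hlt : n < d ^ 4) :
    a d / tri n ≤ (C * 8 ^ 4) * F (cls (n, d)) := by
  have e1 := tri_eq_quo h
  have hd := (mem_pre.mp h).1
  have hq := two_le_quo h
  have hqlt := quo_lt h hlt
  have hmul := cls_mul (n := n) (d := d)
  set U := (cls (n, d)).1 with hU
  set V := (cls (n, d)).2.1 with hV
  have hi : (cls (n, d)).2.2 = Nat.log 2 d := rfl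
  have hU0 : 0 < U := by
    rcases Nat.eq_zero_or_pos U with h0 | h0
    · rw [h0] at hmul; omega
    · exact h0
  have hV0 : 0 < V := by
    rcases Nat.eq_zero_or_pos V with h0 | h0
    · rw [h0] at hmul; omega
    · exact h0
  have hUlt : U < d ^ 8 := by
    have : U ≤ U * V := Nat.le_mul_of_pos_right _ hV0
    omega
  have hVlt : V < d ^ 8 := by
    have : V ≤ U * V := Nat.le_mul_of_pos_left _ hU0
    omega
  have hdlt : d < 2 ^ (Nat.log 2 d + 1) := Nat.lt_pow_succ_log_self (by norm_num) d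
  have hd8 : d ^ 8 ≤ 2 ^ (8 * (Nat.log 2 d + 1)) := by
    calc d ^ 8 ≤ (2 ^ (Nat.log 2 d + 1)) ^ 8 := Nat.pow_le_pow_left hdlt.le 8
      _ = 2 ^ (8 * (Nat.log 2 d + 1)) := by rw [← pow_mul]; ring_nf
  have hlogU : Nat.log 2 U + 1 ≤ 8 * (Nat.log 2 d + 1) := by
    have : Nat.log 2 U < 8 * (Nat.log 2 d + 1) := by
      rw [Nat.log_lt_iff_lt_pow (by norm_num) (by omega)]
      omega
    omega
  have hlogV : Nat.log 2 V + 1 ≤ 8 * (Nat.log 2 d + 1) := by
    have : Nat.log 2 V < 8 * (Nat.log 2 d + 1) := by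
      rw [Nat.log_lt_iff_lt_pow (by norm_num) (by omega)]
      omega
    omega
  -- real versions
  set x : ℝ := (Nat.log 2 d : ℝ) + 1 with hx
  have hx0 : 0 < x := by rw [hx]; positivity
  have hUr : (Nat.log 2 U : ℝ) + 1 ≤ 8 * x := by rw [hx]; exact_mod_cast hlogU
  have hVr : (Nat.log 2 V : ℝ) + 1 ≤ 8 * x := by rw [hx]; exact_mod_cast hlogV
  have hUpos : (0 : ℝ) < U := by exact_mod_cast hU0
  have hVpos : (0 : ℝ) < V := by exact_mod_cast hV0
  have htd : (0 : ℝ) < tri d := by exact_mod_cast tri_pos hd.1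
  have hqr : (0 : ℝ) < quo n d := by
    have : 0 < quo n d := by omega
    exact_mod_cast this
  have hUV : (U : ℝ) * V ≤ quo n d := by
    have : U * V ≤ quo n d := by omega
    exact_mod_cast this
  have e2 : a d / tri n = (a d / tri d) * (1 / quo n d) := by
    have : (tri n : ℝ) = quo n d * tri d := by exact_mod_cast e1
    rw [this]; field_simp
  have h1 : a d / tri n ≤ (C / x ^ 6) * (1 / (U * V)) := by
    rw [e2]
    apply mul_le_mul (hC d hd.1) _ (by positivity) (by positivity)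
    exact one_div_le_one_div_of_le (by positivity) hUV
  refine h1.trans ?_
  have hFe : F (cls (n, d)) = 1 / ((U : ℝ) * ((Nat.log 2 U : ℝ) + 1) ^ 2) *
      (1 / ((V : ℝ) * ((Nat.log 2 V : ℝ) + 1) ^ 2) * (1 / x ^ 2)) := by
    unfold F g
    rw [hi]
  rw [hFe]
  have h2 : ((Nat.log 2 U : ℝ) + 1) ^ 2 ≤ 64 * x ^ 2 := by
    calc ((Nat.log 2 U : ℝ) + 1) ^ 2 ≤ (8 * x) ^ 2 := pow_le_pow_left₀ (by positivity) hUr 2
      _ = 64 * x ^ 2 := by ring
  have h3 : ((Nat.log 2 V : ℝ) + 1) ^ 2 ≤ 64 * x ^ 2 := by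
    calc ((Nat.log 2 V : ℝ) + 1) ^ 2 ≤ (8 * x) ^ 2 := pow_le_pow_left₀ (by positivity) hVr 2
      _ = 64 * x ^ 2 := by ring
  have h4 : ((Nat.log 2 U : ℝ) + 1) ^ 2 * ((Nat.log 2 V : ℝ) + 1) ^ 2 ≤ 8 ^ 4 * x ^ 4 := by
    calc ((Nat.log 2 U : ℝ) + 1) ^ 2 * ((Nat.log 2 V : ℝ) + 1) ^ 2 ≤ (64 * x ^ 2) * (64 * x ^ 2) :=
          mul_le_mul h2 h3 (by positivity) (by positivity)
      _ = 8 ^ 4 * x ^ 4 := by ring
  have e3 : (C / x ^ 6) * (1 / ((U : ℝ) * V)) = (C / ((U * V) * x ^ 2)) * (1 / x ^ 4) := by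
    field_simp
  have e4 : C * 8 ^ 4 * (1 / ((U : ℝ) * ((Nat.log 2 U : ℝ) + 1) ^ 2) *
      (1 / ((V : ℝ) * ((Nat.log 2 V : ℝ) + 1) ^ 2) * (1 / x ^ 2))) =
      (C / ((U * V) * x ^ 2)) * (8 ^ 4 / (((Nat.log 2 U : ℝ) + 1) ^ 2 * ((Nat.log 2 V : ℝ) + 1) ^ 2)) := by
    field_simp
  rw [e3, e4]
  apply mul_le_mul_of_nonneg_left _ (by positivity)
  rw [div_le_div_iff₀ (by positivity) (by positivity)]
  linarith

/-! ### Summation -/

lemma sum_inv_tri_le (m N : ℕ) (hm : 1 ≤ m) :
    ∑ n ∈ Finset.Icc m N, (1 : ℝ) / tri n ≤ 2 / m := by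
  have hm0 : (0 : ℝ) < m := by exact_mod_cast hm
  rcases Nat.lt_or_ge N m with hlt | hge
  · rw [Finset.Icc_eq_empty (by omega), Finset.sum_empty]
    positivity
  · have : ∑ n ∈ Finset.Icc m N, (1 : ℝ) / tri n = 2 / m - 2 / ((N : ℝ) + 1) := by
      induction N, hge using Nat.le_induction with
      | base =>
        rw [Finset.Icc_self, Finset.sum_singleton]
        have h := two_mul_tri m
        have h' : (tri m : ℝ) = m * (m + 1) / 2 := by
          have : 2 * (tri m : ℝ) = m * (m + 1) := by exact_mod_cast h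
          linarith
        rw [h']
        field_simp
        ring
      | succ N hN ih =>
        rw [Finset.sum_Icc_succ_top (by omega), ih]
        have h := two_mul_tri (N + 1)
        have h' : (tri (N + 1) : ℝ) = ((N : ℝ) + 1) * ((N : ℝ) + 2) / 2 := by
          have : 2 * (tri (N + 1) : ℝ) = ((N + 1 : ℕ) : ℝ) * (((N + 1 : ℕ) : ℝ) + 1) := by exact_mod_cast h
          push_cast at this
          linarith
        rw [h']
        push_cast
        field_simp
        ring
    rw [this]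
    have : (0 : ℝ) ≤ 2 / ((N : ℝ) + 1) := by positivity
    linarith

theorem summable_main {a : ℕ → ℝ} (ha0 : ∀ n, 0 ≤ a n)
    (hrec : ∀ n, 2 ≤ n → a n ≤ ∑ d ∈ pre n, a d) :
    Summable (fun n => a n / tri n) := by
  obtain ⟨C, hC0, hC⟩ := pointwise_log ha0 hrec
  -- weak bound
  have hweak : ∀ d, 1 ≤ d → a d ≤ C * (d : ℝ) ^ 2 := by
    intro d hd
    have h1 := hC d hd
    have htd : (0 : ℝ) < tri d := by exact_mod_cast tri_pos hd
    have h2 : C / ((Nat.log 2 d : ℝ) + 1) ^ 6 ≤ C := by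
      apply div_le_self hC0
      apply one_le_pow₀
      have : (0 : ℝ) ≤ Nat.log 2 d := Nat.cast_nonneg _
      linarith
    have h3 : a d ≤ C * tri d := by
      rw [div_le_iff₀ htd] at h1
      exact h1.trans (mul_le_mul_of_nonneg_right h2 htd.le)
    have h4 : (tri d : ℝ) ≤ (d : ℝ) ^ 2 := by exact_mod_cast tri_le_sq hd
    exact h3.trans (mul_le_mul_of_nonneg_left h4 hC0)
  set T1 : ℝ := ∑' i : ℕ, (1 : ℝ) / ((i : ℝ) + 1) ^ 2 with hT1
  set T2 : ℝ := ∑' y : ℕ × ℕ × ℕ, F y with hT2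
  have key : ∀ N : ℕ, ∑ n ∈ Finset.Icc 2 N, a n / tri n ≤ C * 2 * T1 + (C * 8 ^ 4) * T2 := by
    intro N
    have hA : ∑ n ∈ Finset.Icc 2 N, a n / tri n ≤
        ∑ n ∈ Finset.Icc 2 N, ∑ d ∈ pre n, a d / tri n := by
      apply Finset.sum_le_sum
      intro n hn
      rw [Finset.mem_Icc] at hn
      rw [← Finset.sum_div]
      apply div_le_div_of_nonneg_right (hrec n hn.1)
      positivity
    refine hA.trans ?_
    have hB : ∑ n ∈ Finset.Icc 2 N, ∑ d ∈ pre n, a d / tri n =
        ∑ n ∈ Finset.Icc 2 N, ∑ d ∈ (pre n).filter (fun d => ¬ n < d ^ 4), a d / tri n +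
        ∑ n ∈ Finset.Icc 2 N, ∑ d ∈ (pre n).filter (fun d => n < d ^ 4), a d / tri n := by
      rw [← Finset.sum_add_distrib]
      apply Finset.sum_congr rfl
      intro n _
      rw [add_comm, Finset.sum_filter_add_sum_filter_not]
    rw [hB]
    apply add_le_add
    · -- first part
      have h1 : ∑ n ∈ Finset.Icc 2 N, ∑ d ∈ (pre n).filter (fun d => ¬ n < d ^ 4), a d / tri n ≤
          ∑ n ∈ Finset.Icc 2 N, ∑ d ∈ Finset.Icc 1 N,
            if d ^ 4 ≤ n then C * (d : ℝ) ^ 2 * (1 / tri n) else 0 := by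
        apply Finset.sum_le_sum
        intro n hn
        rw [Finset.mem_Icc] at hn
        rw [← Finset.sum_filter]
        calc ∑ d ∈ (pre n).filter (fun d => ¬ n < d ^ 4), a d / tri n
            ≤ ∑ d ∈ (pre n).filter (fun d => ¬ n < d ^ 4), C * (d : ℝ) ^ 2 * (1 / tri n) := by
              apply Finset.sum_le_sum
              intro d hd
              rw [Finset.mem_filter] at hd
              rw [div_eq_mul_one_div]
              apply mul_le_mul_of_nonneg_right _ (by positivity)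
              exact hweak d (mem_pre.mp hd.1).1.1
          _ ≤ _ := by
              apply Finset.sum_le_sum_of_subset_of_nonneg
              · intro d hd
                rw [Finset.mem_filter] at hd
                have hd1 := (mem_pre.mp hd.1).1
                rw [Finset.mem_filter, Finset.mem_Icc]
                refine ⟨⟨hd1.1, by omega⟩, by omega⟩
              · intro d _ _
                positivity
      refine h1.trans ?_
      rw [Finset.sum_comm]
      have h2 : ∀ d ∈ Finset.Icc 1 N, (∑ n ∈ Finset.Icc 2 N,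
          if d ^ 4 ≤ n then C * (d : ℝ) ^ 2 * (1 / tri n) else 0) ≤
          C * 2 * (1 / (d : ℝ) ^ 2) := by
        intro d hd
        rw [Finset.mem_Icc] at hd
        have hd0 : (0 : ℝ) < d := by
          have : 0 < d := by omega
          exact_mod_cast this
        rw [← Finset.sum_filter, ← Finset.mul_sum]
        have h3 : ∑ n ∈ (Finset.Icc 2 N).filter (fun n => d ^ 4 ≤ n), (1 : ℝ) / tri n ≤
            2 / ((d ^ 4 : ℕ) : ℝ) := by
          refine le_trans ?_ (sum_inv_tri_le (d ^ 4) N (Nat.one_le_pow _ _ (by omega)))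
          apply Finset.sum_le_sum_of_subset_of_nonneg
          · intro n hn
            rw [Finset.mem_filter, Finset.mem_Icc] at hn
            rw [Finset.mem_Icc]
            exact ⟨hn.2, hn.1.2⟩
          · intro n _ _; positivity
        calc C * (d : ℝ) ^ 2 * ∑ n ∈ (Finset.Icc 2 N).filter (fun n => d ^ 4 ≤ n), (1 : ℝ) / tri n
            ≤ C * (d : ℝ) ^ 2 * (2 / ((d ^ 4 : ℕ) : ℝ)) :=
              mul_le_mul_of_nonneg_left h3 (by positivity)
          _ = C * 2 * (1 / (d : ℝ) ^ 2) := by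
              push_cast
              field_simp
      refine (Finset.sum_le_sum h2).trans ?_
      rw [← Finset.mul_sum]
      apply mul_le_mul_of_nonneg_left _ (by positivity)
      have h4 : ∑ d ∈ Finset.Icc 1 N, (1 : ℝ) / (d : ℝ) ^ 2 =
          ∑ i ∈ Finset.range N, (1 : ℝ) / ((i : ℝ) + 1) ^ 2 := by
        rw [Finset.sum_bij (fun d _ => d - 1)]
        · intro d hd; rw [Finset.mem_Icc] at hd; rw [Finset.mem_range]; omega
        · intro d hd d' hd' h
          rw [Finset.mem_Icc] at hd hd'; omega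
        · intro i hi
          rw [Finset.mem_range] at hi
          exact ⟨i + 1, by rw [Finset.mem_Icc]; omega, by omega⟩
        · intro d hd
          rw [Finset.mem_Icc] at hd
          have : ((d - 1 : ℕ) : ℝ) + 1 = d := by
            have : (d - 1) + 1 = d := by omega
            exact_mod_cast this
          rw [this]
      rw [h4, hT1]
      exact summable_h.sum_le_tsum _ (fun i _ => by positivity)
    · -- second part
      have h1 : ∑ n ∈ Finset.Icc 2 N, ∑ d ∈ (pre n).filter (fun d => n < d ^ 4), a d / tri n =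
          ∑ x ∈ (Finset.Icc 2 N).sigma (fun n => (pre n).filter (fun d => n < d ^ 4)),
            a x.2 / tri x.1 := by
        rw [Finset.sum_sigma]
      rw [h1]
      set S := (Finset.Icc 2 N).sigma (fun n => (pre n).filter (fun d => n < d ^ 4)) with hS
      have hmem : ∀ x ∈ S, x.2 ∈ pre x.1 ∧ x.1 < x.2 ^ 4 := by
        intro x hx
        rw [hS, Finset.mem_sigma, Finset.mem_filter] at hx
        exact hx.2
      calc ∑ x ∈ S, a x.2 / tri x.1 ≤ ∑ x ∈ S, (C * 8 ^ 4) * F (cls (x.1, x.2)) := by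
            apply Finset.sum_le_sum
            intro x hx
            exact term_le hC0 hC (hmem x hx).1 (hmem x hx).2
        _ = (C * 8 ^ 4) * ∑ x ∈ S, F (cls (x.1, x.2)) := by rw [Finset.mul_sum]
        _ = (C * 8 ^ 4) * ∑ y ∈ S.image (fun x => cls (x.1, x.2)), F y := by
            rw [Finset.sum_image]
            intro x hx x' hx' h
            have hx2 := (hmem x (Finset.mem_coe.mp hx)).1
            have hx2' := (hmem x' (Finset.mem_coe.mp hx')).1
            have := cls_inj hx2 hx2' h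
            obtain ⟨x1, x2⟩ := x
            obtain ⟨x1', x2'⟩ := x'
            simp only [Prod.mk.injEq] at this
            obtain ⟨r1, r2⟩ := this
            subst r1; subst r2; rfl
        _ ≤ (C * 8 ^ 4) * T2 := by
            apply mul_le_mul_of_nonneg_left _ (by positivity)
            exact summable_F.sum_le_tsum _ (fun y _ => F_nonneg y)
  have hnn : ∀ n, 0 ≤ a n / tri n := by
    intro n; have := ha0 n; positivity
  apply summable_of_sum_range_le (c := (a 0 / tri 0 + a 1 / tri 1) + (C * 2 * T1 + (C * 8 ^ 4) * T2)) hnn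
  intro n
  have hsub : Finset.range n ⊆ Finset.range 2 ∪ Finset.Icc 2 n := by
    intro x hx
    rw [Finset.mem_range] at hx
    rw [Finset.mem_union, Finset.mem_range, Finset.mem_Icc]
    omega
  calc ∑ i ∈ Finset.range n, a i / tri i ≤ ∑ i ∈ Finset.range 2 ∪ Finset.Icc 2 n, a i / tri i :=
        Finset.sum_le_sum_of_subset_of_nonneg hsub (fun i _ _ => hnn i)
    _ = ∑ i ∈ Finset.range 2, a i / tri i + ∑ i ∈ Finset.Icc 2 n, a i / tri i := by
        apply Finset.sum_union
        rw [Finset.disjoint_left]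
        intro x hx hx'
        rw [Finset.mem_range] at hx
        rw [Finset.mem_Icc] at hx'
        omega
    _ ≤ _ := by
        rw [Finset.sum_range_succ, Finset.sum_range_one]
        exact add_le_add_right (key n) _

end Pool.Agent.Lib_helper91
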